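import Pool.Agent.J4H71.CB.Pc

/-!
# Cones and singular binary forms (helper71)
-/

set_option autoImplicit false
set_option linter.unusedSectionVars false

namespace Pool.Agent.J4H71.CB

open Set Filter Topology Pool.Agent.J4H71.PC Pool.Agent.H581R2 Pool.Agent.TH729.SQ

variable {κ : Type} [Fintype κ] {b : κ → κ → κ → ℚ} {V : Submodule ℚ (κ → ℚ)}

section plane

variable {R : Type} [CommRing R] [Algebra ℚ R]

lemma Sy.comb (hb : Sy b) (x v : κ → R) (s t : R) : cub b (s • x + t • v) =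
    s ^ 3 * cub b x + 3 * s ^ 2 * t * tri b x x v + 3 * s * t ^ 2 * tri b x v v +
      t ^ 3 * cub b v := by
  rw [hb.line]
  unfold ev3 cub
  simp only [tri_smul1, tri_smul2, tri_smul3]
  ring

end plane

/-- rational approximations -/
lemma rat_seq {x : ℝ} (hx : x ≠ 0) : ∃ r : ℕ → ℚ, (∀ n, r n ≠ 0) ∧
    Tendsto (fun n => (r n : ℝ)) atTop (𝓝 x) := by
  have h : ∀ n : ℕ, ∃ r : ℚ, r ≠ 0 ∧ |(r : ℝ) - x| < 1 / ((n : ℝ) + 1) := by
    intro n
    have h1 : 0 < min |x| (1 / ((n : ℝ) + 1)) := lt_min (abs_pos.2 hx) (by positivity)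
    obtain ⟨r, h2, h3⟩ := exists_rat_btwn (show x - min |x| (1 / ((n : ℝ) + 1)) < x by linarith)
    have h4 : |(r : ℝ) - x| < min |x| (1 / ((n : ℝ) + 1)) := by
      rw [abs_lt]; constructor <;> linarith
    refine ⟨r, ?_, h4.trans_le (min_le_right _ _)⟩
    rintro rfl
    have := h4.trans_le (min_le_left _ _)
    simp at this
  choose r hr hr' using h
  refine ⟨r, hr, ?_⟩
  rw [tendsto_iff_dist_tendsto_zero]
  refine squeeze_zero (fun _ => dist_nonneg) (fun n => ?_) tendsto_one_div_add_atTop_nhds_zero_nat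
  rw [Real.dist_eq]
  exact (hr' n).le

lemma rat_seq' (x : ℝ) : ∃ r : ℕ → ℚ, Tendsto (fun n => (r n : ℝ)) atTop (𝓝 x) := by
  by_cases hx : x = 0
  · exact ⟨fun _ => 0, by simp [hx]⟩
  · obtain ⟨r, -, hr⟩ := rat_seq hx
    exact ⟨r, hr⟩

/-- **Singular binary forms.** -/
theorem adm_sing (hb : Sy b) (C : Crd V) {z₀ v : κ → ℚ} (hz₀ : z₀ ∈ V) (hv : v ∈ V)
    (hspan : ∀ x ∈ V, ∃ α β : ℚ, x = α • z₀ + β • v) (h1 : tri b z₀ v v = 0) (h2 : cub b v = 0)
    (hF : cub b z₀ ≠ 0) : AdmF b (Nz b V) := by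
  have hval : ∀ α β : ℚ, cub b (α • z₀ + β • v) = α ^ 2 * (α * cub b z₀ + 3 * β * tri b z₀ z₀ v) := by
    intro α β
    rw [hb.comb, h1, h2]
    ring
  have hvalR : ∀ α β : ℝ, cub b (α • rv z₀ + β • rv v) =
      α ^ 2 * (α * cub b z₀ + 3 * β * tri b z₀ z₀ v) := by
    intro α β
    rw [hb.comb]
    have e1 : tri b (rv z₀) (rv v) (rv v) = 0 := by
      have := tri_cast b z₀ v v
      rw [h1, Rat.cast_zero] at this
      exact this.symm
    have e2 : cub b (rv v) = 0 := by
      have := cub_cast b v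
      rw [h2, Rat.cast_zero] at this
      exact this.symm
    have e3 : cub b (rv z₀) = cub b z₀ := (cub_cast b z₀).symm
    have e4 : tri b (rv z₀) (rv z₀) (rv v) = tri b z₀ z₀ v := (tri_cast b z₀ z₀ v).symm
    rw [e1, e2, e3, e4]
    ring
  refine adm_dense C fun z hz hz0 y hy hy0 => ?_
  obtain ⟨α, β, rfl⟩ := hspan z hz
  have hα : α ≠ 0 := by
    rintro rfl
    rw [hval] at hz0
    apply hz0
    ring
  obtain ⟨α', β', rfl⟩ : ∃ α' β' : ℝ, y = α' • rv z₀ + β' • rv v := by
    choose A B hAB using fun i => hspan _ (C.mem i)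
    refine ⟨∑ i, C.lr i y * A i, ∑ i, C.lr i y * B i, ?_⟩
    conv_lhs => rw [C.sp_eq hy]
    rw [Finset.sum_smul, Finset.sum_smul, ← Finset.sum_add_distrib]
    refine Finset.sum_congr rfl fun i _ => ?_
    rw [hAB i, rv_add, rv_smul, rv_smul, smul_add, smul_smul, smul_smul]
  have hα' : α' ≠ 0 := by
    rintro rfl
    rw [hvalR] at hy0
    apply hy0
    ring
  obtain ⟨a, ha, hal⟩ := rat_seq hα'
  by_cases hg : tri b z₀ z₀ v = 0
  · obtain ⟨c, hcl⟩ := rat_seq' β'
    have h3 : Tendsto (fun n => (a n : ℝ) • rv z₀ + (c n : ℝ) • rv v) atTop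
        (𝓝 (α' • rv z₀ + β' • rv v)) := (hal.smul_const _).add (hcl.smul_const _)
    refine mem_closure_of_tendsto h3 (Eventually.of_forall fun n => ?_)
    rw [mem_rl_iff]
    refine ⟨a n • z₀ + c n • v, ⟨V.add_mem (V.smul_mem _ hz₀) (V.smul_mem _ hv), a n / α,
      div_ne_zero (ha n) hα, ?_⟩, ?_⟩
    · rw [hval, hval, hg]
      field_simp
      ring
    · rw [rv_add, rv_smul, rv_smul]
  · set f := cub b z₀ with hf
    set g := tri b z₀ z₀ v with hgd
    set F₁ := cub b (α • z₀ + β • v) with hF1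
    set F₂ := cub b (α' • rv z₀ + β' • rv v) with hF2
    have hF1R : (F₁ : ℝ) ≠ 0 := by exact_mod_cast hz0
    obtain ⟨r, hr, hrl⟩ := rat_seq (x := cb (F₂ / F₁)) (cb_ne (div_ne_zero hy0 hF1R))
    have hgR : (g : ℝ) ≠ 0 := by exact_mod_cast hg
    have h3 : Tendsto (fun n => ((F₁ : ℝ) * (r n : ℝ) ^ 3 / (a n : ℝ) ^ 2 - a n * f) / (3 * g)) atTop
        (𝓝 (((F₁ : ℝ) * cb (F₂ / F₁) ^ 3 / α' ^ 2 - α' * f) / (3 * g))) := by
      refine Tendsto.div_const (Tendsto.sub (Tendsto.div ((hrl.pow 3).const_mul _) (hal.pow 2)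
        (pow_ne_zero 2 hα')) (hal.mul_const _)) _
    have h4 : ((F₁ : ℝ) * cb (F₂ / F₁) ^ 3 / α' ^ 2 - α' * f) / (3 * g) = β' := by
      rw [cb_pow, mul_div_cancel₀ _ hF1R, hF2, hvalR]
      field_simp
      ring
    rw [h4] at h3
    have h5 : Tendsto (fun n => (a n : ℝ) • rv z₀ +
        (((F₁ : ℝ) * (r n : ℝ) ^ 3 / (a n : ℝ) ^ 2 - a n * f) / (3 * g)) • rv v) atTop
        (𝓝 (α' • rv z₀ + β' • rv v)) := (hal.smul_const _).add (h3.smul_const _)
    refine mem_closure_of_tendsto h5 (Eventually.of_forall fun n => ?_)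
    rw [mem_rl_iff]
    refine ⟨a n • z₀ + ((F₁ * r n ^ 3 / a n ^ 2 - a n * f) / (3 * g)) • v,
      ⟨V.add_mem (V.smul_mem _ hz₀) (V.smul_mem _ hv), r n, hr n, ?_⟩, ?_⟩
    · rw [hval]
      have := ha n
      field_simp
      ring
    · rw [rv_add, rv_smul, rv_smul]
      push_cast
      rfl

/-- vertices in the real points -/
lemma vert_real (C : Crd V) {v : κ → ℚ} (hv : ∀ x ∈ V, ∀ y ∈ V, tri b v x y = 0) {x y : κ → ℝ}
    (hx : x ∈ C.sp) (hy : y ∈ C.sp) : tri b (rv v) x y = 0 := by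
  have h1 : ∀ y ∈ V, tri b (rv v) x (rv y) = 0 := by
    intro y hy
    have hc : IsClosed {x : κ → ℝ | tri b (rv v) x (rv y) = 0} :=
      isClosed_eq (tri_cont b continuous_const continuous_id continuous_const) continuous_const
    refine hc.closure_subset_iff.2 ?_ (C.dense hx)
    rintro _ ⟨z, hz, rfl⟩
    change tri b (rv v) (rv z) (rv y) = 0
    have := tri_cast b v z y
    rw [hv z hz y hy, Rat.cast_zero] at this
    exact this.symm
  have hc : IsClosed {y : κ → ℝ | tri b (rv v) x y = 0} :=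
    isClosed_eq (tri_cont b continuous_const continuous_const continuous_id) continuous_const
  refine hc.closure_subset_iff.2 ?_ (C.dense hy)
  rintro _ ⟨z, hz, rfl⟩
  exact h1 z hz

/-- **Cones.** -/
theorem adm_cone (hb : Sy b) (C : Crd V) {V' : Submodule ℚ (κ → ℚ)} {v : κ → ℚ} (hv : v ∈ V)
    {i : κ} (hvi : v i ≠ 0) (hV' : ∀ x, x ∈ V' ↔ x ∈ V ∧ x i = 0)
    (hvert : ∀ x ∈ V, ∀ y ∈ V, tri b v x y = 0) (H : AdmF b (Nz b V')) : AdmF b (Nz b V) := by
  classical
  obtain ⟨A, hA, N', W', hN, hP⟩ := H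
  -- the projection
  let pq : (κ → ℚ) → κ → ℚ := fun x => x + (-(x i / v i)) • v
  let pr : (κ → ℝ) → κ → ℝ := fun x => x + (-(x i / v i)) • rv v
  have hprc : Continuous pr := by
    have h : Continuous fun x : κ → ℝ => -(x i / (v i : ℝ)) :=
      ((continuous_apply i).div_const _).neg
    have h' : Continuous fun _ : κ → ℝ => rv v := continuous_const
    exact continuous_id.add (h.smul h')
  have hrv : ∀ x, rv (pq x) = pr (rv x) := by
    intro x
    simp only [pq, pr]
    rw [rv_add, rv_smul]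
    push_cast
    rfl
  have hpV : ∀ x ∈ V, pq x ∈ V' := by
    intro x hx
    rw [hV']
    refine ⟨V.add_mem hx (V.smul_mem _ hv), ?_⟩
    simp only [pq, Pi.add_apply, Pi.smul_apply, smul_eq_mul]
    field_simp
    ring
  have hpF : ∀ x ∈ V, cub b (pq x) = cub b x := by
    intro x hx
    simp only [pq]
    rw [hb.line]
    have e1 : tri b x x v = 0 := by rw [hb.t23, hb.t12]; exact hvert x hx x hx
    have e2 : tri b x v v = 0 := by rw [hb.t12]; exact hvert x hx v hv
    have e3 : cub b v = 0 := hvert v hv v hv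
    rw [e1, e2, e3]
    unfold ev3
    ring
  have hpFR : ∀ x ∈ C.sp, cub b (pr x) = cub b x := by
    intro x hx
    simp only [pr]
    rw [hb.line]
    have hv' := C.rv_mem hv
    have e1 : tri b x x (rv v) = 0 := by rw [hb.t23, hb.t12]; exact vert_real C hvert hx hx
    have e2 : tri b x (rv v) (rv v) = 0 := by rw [hb.t12]; exact vert_real C hvert hx hv'
    have e3 : cub b (rv v) = 0 := vert_real C hvert hv' hv'
    rw [e1, e2, e3]
    unfold ev3
    ring
  have hback : ∀ x, pq x ∈ V' → x ∈ V := by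
    intro x hx
    have h1 := ((hV' _).1 hx).1
    have h2 : x = pq x + (x i / v i) • v := by
      simp only [pq]
      rw [neg_smul]
      abel
    rw [h2]
    exact V.add_mem h1 (V.smul_mem _ hv)
  have hN'V : ∀ α, ∀ x ∈ N' α, x ∈ Nz b V' := by
    intro α x hx
    rw [hN]
    exact mem_iUnion.2 ⟨α, hx⟩
  refine ⟨A, hA, fun α => {x | pq x ∈ N' α}, fun α => {x | x ∈ C.sp ∧ pr x ∈ W' α}, ?_, fun α => ?_⟩
  · ext x
    rw [mem_iUnion]
    constructor
    · rintro ⟨hx1, hx2⟩
      have h1 : pq x ∈ Nz b V' := ⟨hpV x hx1, by rw [hpF x hx1]; exact hx2⟩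
      rw [hN, mem_iUnion] at h1
      exact h1
    · rintro ⟨α, hx⟩
      obtain ⟨h1, h2⟩ := hN'V α _ hx
      have h3 := hback x h1
      exact ⟨h3, by rw [← hpF x h3]; exact h2⟩
  · refine ⟨?_, ?_⟩
    swap
    · intro t ht x hx
      have h1 : pq (t • x) = t • pq x := by
        simp only [pq, Pi.smul_apply, smul_eq_mul]
        rw [smul_add, smul_smul]
        congr 2
        ring
      change pq (t • x) ∈ N' α
      rw [h1]
      exact (hP α).2 t ht _ hx
    have hPα := (hP α).1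
    have hmemV : ∀ x, pq x ∈ N' α → x ∈ V := fun x hx => hback x (hN'V α _ hx).1
    refine ⟨?_, ?_, ?_, ?_⟩
    · refine SAP.and C.sp_SA ?_
      refine SAP.preimage (p := fun v => v ∈ W' α) hPα.sa (φ := pr) fun k => ?_
      refine (PF.coord k).add ?_
      have h1 : PF fun x : κ → ℝ => (-(1 / v i) * v k : ℚ) * x i := (PF.const _).mul (PF.coord i)
      refine Pool.Agent.TH729.SQ.PF.congr h1 fun x => ?_
      simp only [Pi.smul_apply, smul_eq_mul, rv]
      push_cast
      ring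
    · intro z hz
      refine ⟨C.rv_mem (hmemV z hz), ?_⟩
      change pr (rv z) ∈ W' α
      rw [← hrv]
      exact hPα.sub _ hz
    · intro r
      rcases hPα.sign r with h1 | h1
      · left
        rintro x ⟨hx1, hx2⟩
        have := h1 _ hx2
        rw [aeval_pol] at this ⊢
        rwa [hpFR x hx1] at this
      · right
        rintro x ⟨hx1, hx2⟩
        have := h1 _ hx2
        rw [aeval_pol] at this ⊢
        rwa [hpFR x hx1] at this
    · rintro z hz x ⟨hx1, hx2⟩ hx
      have hzV := hmemV z hz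
      set K := cls (fun _ : Unit => 3) (fun _ => pol b) {x | pq x ∈ N' α} z with hK
      set K' := cls (fun _ : Unit => 3) (fun _ => pol b) (N' α) (pq z) with hK'
      have hmap : ∀ y ∈ rl K, pr y ∈ rl K' := by
        rintro _ ⟨u, ⟨hu1, hu2⟩, rfl⟩
        refine mem_rl_iff.2 ⟨pq u, ⟨hu1, fun r => ?_⟩, hrv u⟩
        have := hu2 r
        rw [eval_pol, eval_pol] at this ⊢
        rw [hpF z hzV, hpF u (hmemV u hu1)]
        exact this
      have h1 : pr x ∈ closure (rl K') := map_mem_closure hprc hx hmap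
      have h2 := hPα.opn (pq z) hz (pr x) hx2 h1
      have h3 : Tendsto pr (𝓝[{x | x ∈ C.sp ∧ pr x ∈ W' α}] x) (𝓝[W' α] (pr x)) := by
        refine tendsto_nhdsWithin_of_tendsto_nhds_of_eventually_within _
          (hprc.continuousAt.tendsto.mono_left nhdsWithin_le_nhds) ?_
        filter_upwards [self_mem_nhdsWithin] with y hy
        exact hy.2
      filter_upwards [h3 h2] with y hy
      have h4 : y = pr y + (y i / v i) • rv v := by
        simp only [pr]
        rw [neg_smul]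
        abel
      rw [h4]
      have h5 : (y i / v i : ℝ) ∈ closure (Set.range ((↑) : ℚ → ℝ)) := Rat.denseRange_cast _
      refine map_mem_closure₂ (f := fun (a : κ → ℝ) (s : ℝ) => a + s • rv v) (by fun_prop) hy h5 ?_
      rintro _ ⟨u, ⟨hu1, hu2⟩, rfl⟩ _ ⟨t, rfl⟩
      have hu3 := hN'V α _ hu1
      have hui : u i = 0 := ((hV' u).1 hu3.1).2
      have hpu : pq (u + t • v) = u := by
        simp only [pq, Pi.add_apply, Pi.smul_apply, smul_eq_mul, hui, zero_add]
        rw [mul_div_cancel_right₀ _ hvi, neg_smul]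
        abel
      have huV : u + t • v ∈ V := V.add_mem ((hV' u).1 hu3.1).1 (V.smul_mem _ hv)
      refine mem_rl_iff.2 ⟨u + t • v, ⟨?_, fun r => ?_⟩, ?_⟩
      · change pq (u + t • v) ∈ N' α
        rw [hpu]
        exact hu1
      · have := hu2 r
        rw [eval_pol, eval_pol] at this ⊢
        rw [hpF z hzV] at this
        rw [← hpF _ huV, hpu]
        exact this
      · rw [rv_add, rv_smul]
        rfl

end Pool.Agent.J4H71.CB
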