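import Pool.Agent.J4H71.CB.Exc

/-!
# The exceptional points lie in smaller subspaces (helper71)
-/

set_option autoImplicit false
set_option linter.unusedSectionVars false

namespace Pool.Agent.J4H71.CB

open Set Filter Topology Pool.Agent.J4H71.PC Pool.Agent.H581R2 Pool.Agent.TH729.SQ

variable {κ : Type} [Fintype κ] {b : κ → κ → κ → ℚ} {V : Submodule ℚ (κ → ℚ)}

/-- decomposition with respect to the polar hyperplane -/
lemma pdec {z : κ → ℚ} (hz : z ∈ V) (hf : cub b z ≠ 0) {x : κ → ℚ} (hx : x ∈ V) :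
    ∃ k ∈ Pl b V z z, x = (tri b z z x / cub b z) • z + k := by
  refine ⟨x + (-(tri b z z x / cub b z)) • z, ⟨V.add_mem hx (V.smul_mem _ hz), ?_⟩, ?_⟩
  · rw [tri_add3, tri_smul3]
    change tri b z z x + -(tri b z z x / cub b z) * cub b z = 0
    field_simp
    ring
  · rw [neg_smul]
    abel

/-- the form at a point of the first type -/
lemma type1_form (hb : Sy b) {x : κ → ℚ} (hx : x ∈ V) (hf : cub b x ≠ 0)
    (h : ∀ w ∈ Pl b V x x, tri b x w w = 0) {u v : κ → ℚ} (hu : u ∈ V) (hv : v ∈ V) :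
    cub b x * tri b x u v = tri b x x u * tri b x x v := by
  obtain ⟨k, hk, hk'⟩ := pdec hx hf hu
  obtain ⟨l, hl, hl'⟩ := pdec hx hf hv
  obtain ⟨α, hα⟩ : ∃ α, α = tri b x x u / cub b x := ⟨_, rfl⟩
  obtain ⟨β, hβ⟩ : ∃ β, β = tri b x x v / cub b x := ⟨_, rfl⟩
  rw [← hα] at hk'
  rw [← hβ] at hl'
  have e1 : tri b x x u = α * cub b x := by rw [hα]; field_simp
  have e2 : tri b x x v = β * cub b x := by rw [hβ]; field_simp
  rw [e1, e2, hk', hl']
  simp only [tri_add2, tri_add3, tri_smul2, tri_smul3]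
  rw [pol2 hb h hk hl, hl.2, hb.t23 x x k, hk.2]
  unfold cub
  ring

/-- **two points of the first type** -/
lemma type11 (hb : Sy b) (hnc : ∀ v ∈ V, Vert b V v → v = 0) {x y : κ → ℚ} (hx : x ∈ V)
    (hy : y ∈ V) (hf : cub b x ≠ 0) (hg : cub b y ≠ 0)
    (h : ∀ w ∈ Pl b V x x, tri b x w w = 0) (h' : ∀ w ∈ Pl b V y y, tri b y w w = 0)
    (hp : tri b x x y ≠ 0) : ∃ a : ℚ, y = a • x := by
  have F1 : ∀ {u v : κ → ℚ}, u ∈ V → v ∈ V → cub b x * tri b x u v = tri b x x u * tri b x x v :=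
    fun hu hv => type1_form hb hx hf h hu hv
  have F2 : ∀ {u v : κ → ℚ}, u ∈ V → v ∈ V → cub b y * tri b y u v = tri b y y u * tri b y y v :=
    fun hu hv => type1_form hb hy hg h' hu hv
  obtain ⟨f, hfd⟩ : ∃ f, f = cub b x := ⟨_, rfl⟩
  obtain ⟨g, hgd⟩ : ∃ g, g = cub b y := ⟨_, rfl⟩
  obtain ⟨p, hpd⟩ : ∃ p, p = tri b x x y := ⟨_, rfl⟩
  obtain ⟨q, hqd⟩ : ∃ q, q = tri b x y y := ⟨_, rfl⟩
  rw [← hfd] at hf
  rw [← hgd] at hg
  rw [← hpd] at hp
  have hyyx : tri b y y x = q := by rw [hb.t23, hb.t12, ← hqd]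
  have hyxx : tri b y x x = p := by rw [hb.t12, hb.t23, ← hpd]
  have r1 : f * q = p ^ 2 := by
    have := F1 hy hy
    rw [← hfd, ← hpd, ← hqd] at this
    linear_combination this
  have r2 : g * p = q ^ 2 := by
    have := F2 hx hx
    rw [← hgd, hyyx, hyxx] at this
    linear_combination this
  have hq : q ≠ 0 := by
    rintro rfl
    apply pow_ne_zero 2 hp
    rw [← r1, mul_zero]
  have r3 : ∀ u ∈ V, f * q * tri b y y u = p * g * tri b x x u := by
    intro u hu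
    have e1 := F1 hy hu
    have e2 := F2 hx hu
    rw [← hfd, ← hpd] at e1
    rw [← hgd, hyyx, hb.t12 x y u] at e2
    linear_combination g * e1 - f * e2
  have hv : Vert b V (y + (-(p / f)) • x) := by
    intro u hu w hw
    rw [tri_add1, tri_smul1]
    have e1 := F2 hu hw
    have e2 := r3 u hu
    have e3 := r3 w hw
    have e4 := F1 hu hw
    rw [← hgd] at e1
    rw [← hfd] at e4
    have key : f ^ 2 * q ^ 2 * g * (f * tri b y u w - p * tri b x u w) = 0 := by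
      have h1 : f ^ 2 * q ^ 2 * (g * tri b y u w) = (p * g) ^ 2 * (f * tri b x u w) := by
        rw [e1, e4]
        calc f ^ 2 * q ^ 2 * (tri b y y u * tri b y y w) =
            (f * q * tri b y y u) * (f * q * tri b y y w) := by ring
          _ = _ := by rw [e2, e3]; ring
      have h2 : (p * g) ^ 2 = p * g * q ^ 2 := by rw [← r2]; ring
      rw [h2] at h1
      linear_combination f * h1
    have h5 : f ^ 2 * q ^ 2 * g ≠ 0 :=
      mul_ne_zero (mul_ne_zero (pow_ne_zero 2 hf) (pow_ne_zero 2 hq)) hg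
    have h6 := (mul_eq_zero.1 key).resolve_left h5
    field_simp
    linear_combination h6
  have h0 := hnc _ (V.add_mem hy (V.smul_mem _ hx)) hv
  refine ⟨p / f, ?_⟩
  rw [neg_smul, ← sub_eq_add_neg, sub_eq_zero] at h0
  exact h0

/-- the second type with different polar hyperplanes: an auxiliary computation -/
lemma type22_aux (hb : Sy b) {x y u k : κ → ℚ} (hx : x ∈ V)
    (hy : y ∈ V) (hf : cub b x ≠ 0) (hg : cub b y ≠ 0)
    (h : ∀ w ∈ Pl b V x x, cub b w = 0) (h' : ∀ w ∈ Pl b V y y, cub b w = 0)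
    (hu : u ∈ Pl b V x x) (hu' : tri b y y u ≠ 0) (hk : k ∈ Pl b V x x) (hk' : k ∈ Pl b V y y) :
    Vert b V k := by
  have Px : ∀ {a c d : κ → ℚ}, a ∈ Pl b V x x → c ∈ Pl b V x x → d ∈ Pl b V x x →
    tri b a c d = 0 := fun ha hc hd => pol3 hb h ha hc hd
  have Py : ∀ {a c d : κ → ℚ}, a ∈ Pl b V y y → c ∈ Pl b V y y → d ∈ Pl b V y y →
    tri b a c d = 0 := fun ha hc hd => pol3 hb h' ha hc hd
  -- decomposition
  have hdec : ∀ w ∈ V, ∃ β : ℚ, ∃ w' ∈ Pl b V y y, w = w' + β • u ∧ β = tri b y y w / tri b y y u := by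
    intro w hw
    refine ⟨_, w + (-(tri b y y w / tri b y y u)) • u, ⟨V.add_mem hw (V.smul_mem _ hu.1), ?_⟩, ?_, rfl⟩
    · rw [tri_add3, tri_smul3]
      field_simp
      ring
    · rw [neg_smul]
      abel
  have hxy : tri b y y x ≠ 0 := by
    intro h0
    exact hf (h' x ⟨hx, h0⟩)
  -- `tri k x u = 0`
  have hkxu : tri b k x u = 0 := by
    obtain ⟨β, x', hx', hxe, hβ⟩ := hdec x hx
    have hβ0 : β ≠ 0 := by
      rw [hβ]
      exact div_ne_zero hxy hu'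
    have h1 : tri b x x k = 0 := hk.2
    have h2 : tri b k x x = 0 := by rw [hb.t12, hb.t23]; exact h1
    rw [hxe] at h2
    simp only [tri_add2, tri_add3, tri_smul2, tri_smul3] at h2
    rw [Py hk' hx' hx', Px hk hu hu, hb.t23 k x' u] at h2
    have h3 : tri b k x' u = 0 := by
      have : 2 * β * tri b k x' u = 0 := by linear_combination h2
      rcases mul_eq_zero.1 this with h4 | h4
      · exact absurd h4 (mul_ne_zero two_ne_zero hβ0)
      · exact h4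
    rw [hxe, tri_add2, tri_smul2, h3, Px hk hu hu]
    ring
  -- `tri k w u = 0`
  have hkwu : ∀ w ∈ V, tri b k w u = 0 := by
    intro w hw
    obtain ⟨l, hl, hl'⟩ := pdec hx hf hw
    rw [hl', tri_add2, tri_smul2, hkxu, Px hk hl hu]
    ring
  intro w₁ hw₁ w₂ hw₂
  obtain ⟨β₁, a₁, ha₁, he₁, -⟩ := hdec w₁ hw₁
  obtain ⟨β₂, a₂, ha₂, he₂, -⟩ := hdec w₂ hw₂
  rw [he₁, he₂]
  simp only [tri_add2, tri_add3, tri_smul2, tri_smul3]
  rw [Py hk' ha₁ ha₂, hkwu a₁ ha₁.1, hb.t23 k a₂ u, hkwu a₂ ha₂.1, Px hk hu hu]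
  ring

/-- **two points of the second type** -/
lemma type22 (hb : Sy b) (hd : 2 < Module.finrank ℚ V) (hnc : ∀ v ∈ V, Vert b V v → v = 0)
    {x y : κ → ℚ} (hx : x ∈ V) (hy : y ∈ V) (hf : cub b x ≠ 0) (hg : cub b y ≠ 0)
    (h : ∀ w ∈ Pl b V x x, cub b w = 0) (h' : ∀ w ∈ Pl b V y y, cub b w = 0) :
    ∃ a : ℚ, y = a • x := by
  obtain ⟨k, hk, hk0, hk1, hk2⟩ := exists_ker (b := b) hd x x y y
  have hkx : k ∈ Pl b V x x := ⟨hk, hk1⟩
  have hky : k ∈ Pl b V y y := ⟨hk, hk2⟩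
  by_cases hxy : ∃ u ∈ Pl b V x x, tri b y y u ≠ 0
  · obtain ⟨u, hu, hu'⟩ := hxy
    exact absurd (hnc k hk (type22_aux hb hx hy hf hg h h' hu hu' hkx hky)) hk0
  by_cases hyx : ∃ u ∈ Pl b V y y, tri b x x u ≠ 0
  · obtain ⟨u, hu, hu'⟩ := hyx
    exact absurd (hnc k hk (type22_aux hb hy hx hg hf h' h hu hu' hky hkx)) hk0
  push Not at hxy hyx
  have hp : tri b x x y ≠ 0 := fun h0 => hg (h y ⟨hy, h0⟩)
  obtain ⟨y', hy', hye⟩ := pdec hx hf hy
  obtain ⟨α, hα⟩ : ∃ α, α = tri b x x y / cub b x := ⟨_, rfl⟩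
  have hα0 : α ≠ 0 := by rw [hα]; exact div_ne_zero hp hf
  rw [← hα] at hye
  have hv : Vert b V y' := by
    refine vert_of hb hx hf hy'.2 (fun k hk => ?_) fun k hk l hl => pol3 hb h hk hl hy'
    have h1 := hxy k hk
    rw [hye] at h1
    simp only [tri_add1, tri_add2, tri_smul1, tri_smul2] at h1
    rw [hk.2, pol3 hb h hy' hy' hk, hb.t12 x y' k] at h1
    have h2 : 2 * α * tri b x y' k = 0 := by linear_combination h1
    rw [hb.t23]
    rcases mul_eq_zero.1 h2 with h4 | h4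
    · exact absurd h4 (mul_ne_zero two_ne_zero hα0)
    · exact h4
  have h0 := hnc y' hy'.1 hv
  refine ⟨α, ?_⟩
  rw [h0, add_zero] at hye
  exact hye

/-- **The exceptional points are in three proper subspaces.** -/
theorem exc_cover (hb : Sy b) (hd : 2 < Module.finrank ℚ V) (hnc : ∀ v ∈ V, Vert b V v → v = 0) :
    ∃ V' : Fin 3 → Submodule ℚ (κ → ℚ), (∀ j, V' j < V) ∧
      ∀ z ∈ V, cub b z ≠ 0 → (∀ w ∈ V, dd b z w = 0) → ∃ j, z ∈ V' j := by
  classical
  have hline : ∀ x ∈ V, Submodule.span ℚ {x} < V := by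
    intro x hx
    have hle : Submodule.span ℚ {x} ≤ V := by
      rw [Submodule.span_singleton_le_iff_mem]
      exact hx
    refine lt_of_le_of_ne hle fun h0 => ?_
    have h1 : Module.finrank ℚ (Submodule.span ℚ {x}) ≤ 1 := by
      exact le_trans (finrank_span_le_card {x}) (by simp)
    rw [h0] at h1
    omega
  have hbot : (⊥ : Submodule ℚ (κ → ℚ)) < V := by
    rw [bot_lt_iff_ne_bot]
    rintro rfl
    simp at hd
  obtain ⟨V₁, V₂, h1, h2, h12⟩ : ∃ V₁ V₂ : Submodule ℚ (κ → ℚ), V₁ < V ∧ V₂ < V ∧ ∀ z ∈ V,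
      cub b z ≠ 0 → (∀ w ∈ Pl b V z z, tri b z w w = 0) → z ∈ V₁ ∨ z ∈ V₂ := by
    by_cases hex : ∃ x ∈ V, cub b x ≠ 0 ∧ ∀ w ∈ Pl b V x x, tri b x w w = 0
    · obtain ⟨x, hx, hf, hx'⟩ := hex
      refine ⟨Submodule.span ℚ {x}, Pl b V x x, hline x hx, ?_, ?_⟩
      · refine lt_of_le_of_ne (fun w hw => hw.1) fun h0 => ?_
        have : x ∈ Pl b V x x := by rw [h0]; exact hx
        exact hf this.2
      · intro z hz hg hz'
        by_cases hp : tri b x x z = 0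
        · exact Or.inr ⟨hz, hp⟩
        · left
          obtain ⟨a, rfl⟩ := type11 hb hnc hx hz hf hg hx' hz' hp
          exact Submodule.smul_mem _ _ (Submodule.mem_span_singleton_self x)
    · push Not at hex
      refine ⟨⊥, ⊥, hbot, hbot, fun z hz hg hz' => ?_⟩
      obtain ⟨w, hw, hw'⟩ := hex z hz hg
      exact absurd (hz' w hw) hw'
  obtain ⟨V₃, h3, h3'⟩ : ∃ V₃ : Submodule ℚ (κ → ℚ), V₃ < V ∧ ∀ z ∈ V,
      cub b z ≠ 0 → (∀ w ∈ Pl b V z z, cub b w = 0) → z ∈ V₃ := by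
    by_cases hex : ∃ x ∈ V, cub b x ≠ 0 ∧ ∀ w ∈ Pl b V x x, cub b w = 0
    · obtain ⟨x, hx, hf, hx'⟩ := hex
      refine ⟨Submodule.span ℚ {x}, hline x hx, fun z hz hg hz' => ?_⟩
      obtain ⟨a, rfl⟩ := type22 hb hd hnc hx hz hf hg hx' hz'
      exact Submodule.smul_mem _ _ (Submodule.mem_span_singleton_self x)
    · push Not at hex
      refine ⟨⊥, hbot, fun z hz hg hz' => ?_⟩
      obtain ⟨w, hw, hw'⟩ := hex z hz hg
      exact absurd (hz' w hw) hw'
  refine ⟨![V₁, V₂, V₃], ?_, ?_⟩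
  · intro j
    fin_cases j
    · exact h1
    · exact h2
    · exact h3
  · intro z hz hg hz'
    rcases exc_types' hz hg hz' with h | h | ⟨γ, hγ, h⟩
    · rcases h12 z hz hg h with h4 | h4
      · exact ⟨0, h4⟩
      · exact ⟨1, h4⟩
    · exact ⟨2, h3' z hz hg h⟩
    · obtain ⟨v, hv, hv0, hv'⟩ := type3 hb hd hz hg hγ h
      exact absurd (hnc v hv hv') hv0

end Pool.Agent.J4H71.CB
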