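import Pool.Agent.J4H71.CB.PN

/-!
# Real density of the rational zeros of diagonal cubic forms (helper71)
-/

set_option autoImplicit false
set_option linter.unusedSectionVars false

namespace Pool.Agent.J4H71.CB

open Set Filter Topology Pool.Agent.TH729.CC Pool.Agent.Y718

/-! ### the real cube root -/

lemma cube_surj : Function.Surjective (fun x : ℝ => x ^ 3) := by
  intro y
  by_cases hy : y = 0
  · exact ⟨0, by simp [hy]⟩
  · exact ⟨Pool.Agent.J4H71.PC.cr y, Pool.Agent.J4H71.PC.cr_cube hy⟩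

/-- the cube as an isomorphism of the ordered set of the real numbers -/
noncomputable def cbO : ℝ ≃o ℝ :=
  StrictMono.orderIsoOfSurjective (fun x : ℝ => x ^ 3) (Odd.strictMono_pow (by decide : Odd 3))
    cube_surj

/-- the real cube root -/
noncomputable def cb (x : ℝ) : ℝ := cbO.symm x

lemma cb_pow (x : ℝ) : cb x ^ 3 = x := cbO.apply_symm_apply x

lemma pow_cb (x : ℝ) : cb (x ^ 3) = x := cbO.symm_apply_apply x

lemma cb_cont : Continuous cb := cbO.symm.continuous

lemma cube_inj {x y : ℝ} (h : x ^ 3 = y ^ 3) : x = y := by rw [← pow_cb x, h, pow_cb]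

lemma cb_mul (x y : ℝ) : cb (x * y) = cb x * cb y :=
  cube_inj (by rw [cb_pow, mul_pow, cb_pow, cb_pow])

lemma cb_zero : cb 0 = 0 := by
  have := pow_cb 0
  simpa using this

lemma cb_ne {x : ℝ} (h : x ≠ 0) : cb x ≠ 0 := by
  intro h0
  have := cb_pow x
  rw [h0] at this
  exact h (by rw [← this]; norm_num)

/-! ### the diagonal form -/

variable {n : ℕ}

/-- the diagonal cubic form -/
noncomputable def DF (c : Fin n → ℚ) : Tri n where
  f := ∑ i, (c i : ℝ) • pr3 (LinearMap.proj i) (LinearMap.proj i) (LinearMap.proj i)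
  s12 a b d := by
    simp only [LinearMap.sum_apply, LinearMap.smul_apply, pr3_apply, LinearMap.proj_apply,
      smul_eq_mul]
    exact Finset.sum_congr rfl fun i _ => by ring
  s23 a b d := by
    simp only [LinearMap.sum_apply, LinearMap.smul_apply, pr3_apply, LinearMap.proj_apply,
      smul_eq_mul]
    exact Finset.sum_congr rfl fun i _ => by ring

lemma DF_apply (c : Fin n → ℚ) (a b d : E n) :
    (DF c).f a b d = ∑ i, (c i : ℝ) * (a i * b i * d i) := by
  simp only [DF, LinearMap.sum_apply, LinearMap.smul_apply, pr3_apply, LinearMap.proj_apply,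
    smul_eq_mul]

lemma DF_cube (c : Fin n → ℚ) (a : E n) : (DF c).f a a a = ∑ i, (c i : ℝ) * a i ^ 3 := by
  rw [DF_apply]
  exact Finset.sum_congr rfl fun i _ => by ring

lemma DF_rat (c : Fin n → ℚ) : Rat3 (DF c) QR := by
  intro a b d ha hb hd
  rw [DF_apply]
  exact Subfield.sum_mem _ fun i _ => Subfield.mul_mem _ (mem_QR _)
    (Subfield.mul_mem _ (Subfield.mul_mem _ (ha i) (hb i)) (hd i))

lemma DF_NSg {c : Fin n → ℚ} (h0 : ∀ j, c j ≠ 0) {P : E n} (hP : P ≠ 0) :
    ∃ v, (DF c).f P P v ≠ 0 := by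
  classical
  obtain ⟨i, hi⟩ := Function.ne_iff.1 hP
  refine ⟨Pi.single i 1, ?_⟩
  rw [DF_apply]
  rw [Finset.sum_eq_single i]
  · simp only [Pi.single_eq_same, mul_one]
    have : ((c i : ℚ) : ℝ) ≠ 0 := by exact_mod_cast h0 i
    exact mul_ne_zero this (mul_ne_zero hi hi)
  · intro j _ hj
    simp [Pi.single_eq_of_ne hj]
  · simp

lemma DF_NH {c : Fin n → ℚ} (hn : 3 ≤ n) (h0 : ∀ j, c j ≠ 0) : NH (DF c) QR := by
  classical
  intro a ha
  by_contra hcon
  push Not at hcon
  -- rational coordinates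
  have hch : ∀ i, ∃ q : ℚ, (q : ℝ) = a i := fun i => of_QR (a i).2
  choose b hb using hch
  obtain ⟨i, hi⟩ := Function.ne_iff.1 ha
  have hbi : b i ≠ 0 := by
    intro h
    apply hi
    apply Subtype.ext
    rw [← hb i, h]
    simp
  obtain ⟨j, k, hji, hki, hjk⟩ : ∃ j k : Fin n, j ≠ i ∧ k ≠ i ∧ j ≠ k := by
    obtain ⟨j, hj, k, hk, hjk⟩ := Finset.one_lt_card.1 (show 1 < (Finset.univ.erase i).card by
      rw [Finset.card_erase_of_mem (Finset.mem_univ _), Finset.card_univ, Fintype.card_fin]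
      omega)
    simp only [Finset.mem_erase, Finset.mem_univ, and_true] at hj hk
    exact ⟨j, k, hj, hk, hjk⟩
  have key : ∀ s t : ℚ, c j * (s * b i) ^ 3 + c k * (t * b i) ^ 3 -
      c i * (s * b j + t * b k) ^ 3 = 0 := by
    intro s t
    let v : Fin n → ℚ := fun x => if x = j then s * b i else if x = k then t * b i else
      if x = i then -(s * b j + t * b k) else 0
    have hvj : v j = s * b i := by simp [v]
    have hvk : v k = t * b i := by simp [v, hjk.symm]
    have hvi : v i = -(s * b j + t * b k) := by simp [v, hji.symm, hki.symm]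
    have hvx : ∀ x, x ≠ j → x ≠ k → x ≠ i → v x = 0 := by
      intro x h1 h2 h3
      simp [v, h1, h2, h3]
    have hsum : ∀ f : Fin n → ℝ, (∀ x, x ≠ j → x ≠ k → x ≠ i → f x = 0) →
        ∑ x, f x = f j + f k + f i := by
      intro f hf
      rw [← Finset.add_sum_erase _ f (Finset.mem_univ j),
        ← Finset.add_sum_erase _ f (show k ∈ Finset.univ.erase j by simp [hjk.symm]),
        ← Finset.add_sum_erase _ f (show i ∈ (Finset.univ.erase j).erase k by
          simp [hji.symm, hki.symm]), Finset.sum_eq_zero (s := ((Finset.univ.erase j).erase k).erase i)]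
      · ring
      · intro x hx
        simp only [Finset.mem_erase, Finset.mem_univ, and_true] at hx
        exact hf x hx.2.2 hx.2.1 hx.1
    have h1 := hcon (fun x => ((v x : ℚ) : ℝ)) (fun x => mem_QR _) (by
      rw [hsum _ (fun x h1 h2 h3 => by simp [hvx x h1 h2 h3]), hvj, hvk, hvi, ← hb i, ← hb j,
        ← hb k]
      push_cast
      ring)
    rw [DF_cube, hsum _ (fun x h1 h2 h3 => by simp [hvx x h1 h2 h3]), hvj, hvk, hvi] at h1
    have h2 : c j * (s * b i) ^ 3 + c k * (t * b i) ^ 3 + c i * (-(s * b j + t * b k)) ^ 3 = 0 := by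
      exact_mod_cast h1
    linear_combination h2
  have k1 := key 1 0
  have k2 := key 0 1
  have k3 := key 1 1
  have k4 := key 1 2
  have hbj : b j ≠ 0 := by
    intro h
    rw [h] at k1
    apply mul_ne_zero (h0 j) (pow_ne_zero 3 hbi)
    linear_combination k1
  have hbk : b k ≠ 0 := by
    intro h
    rw [h] at k2
    apply mul_ne_zero (h0 k) (pow_ne_zero 3 hbi)
    linear_combination k2
  have e1 : b j + b k = 0 := by
    have : (3 * c i * b j * b k) * (b j + b k) = 0 := by linear_combination k1 + k2 - k3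
    exact (mul_eq_zero.1 this).resolve_left (mul_ne_zero (mul_ne_zero (mul_ne_zero three_ne_zero
      (h0 i)) hbj) hbk)
  have e2 : b j + 2 * b k = 0 := by
    have : (6 * c i * b j * b k) * (b j + 2 * b k) = 0 := by linear_combination k1 + 8 * k2 - k4
    exact (mul_eq_zero.1 this).resolve_left (mul_ne_zero (mul_ne_zero (mul_ne_zero (by norm_num)
      (h0 i)) hbj) hbk)
  apply hbk
  linear_combination e2 - e1

lemma DF_cov {c : Fin n → ℚ} (hN : NC c) : ¬ Cov (DF c) QR := by
  classical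
  rintro ⟨L, hL, hL0, hLc⟩
  have hch : ∀ a : Fin n → QR, ∃ b : Fin n → ℚ, ∀ i, ((b i : ℚ) : ℝ) = a i := by
    intro a
    choose b hb using fun i => of_QR (a i).2
    exact ⟨b, hb⟩
  choose g hg using hch
  obtain ⟨q, hq, hq'⟩ := hN (hL.toFinset.image g) (by
    intro l hl
    obtain ⟨a, ha, rfl⟩ := Finset.mem_image.1 hl
    rw [Set.Finite.mem_toFinset] at ha
    intro h
    apply hL0 a ha
    funext i
    apply Subtype.ext
    rw [← hg a i, h]
    simp)
  obtain ⟨a, haL, ha⟩ := hLc (fun i => ((q i : ℚ) : ℝ)) ⟨fun i => mem_QR _, by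
    rw [DF_cube]
    have : ∑ j, c j * q j ^ 3 = 0 := hq
    exact_mod_cast this⟩
  apply hq' (g a) (Finset.mem_image_of_mem _ ((Set.Finite.mem_toFinset _).2 haL))
  have h1 : ((∑ j, g a j * q j : ℚ) : ℝ) = 0 := by
    rw [← ha]
    push_cast
    exact Finset.sum_congr rfl fun i _ => by rw [hg a i]
  exact_mod_cast h1

/-- the real zeros are connected -/
theorem dense_fin {m : ℕ} (hm : 2 ≤ m) {c : Fin (m + 1) → ℚ} (h0 : ∀ j, c j ≠ 0) (hN : NC c)
    {x : Fin (m + 1) → ℝ} (hx : ∑ j, (c j : ℝ) * x j ^ 3 = 0) : x ∈ W (DF c) QR := by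
  classical
  have hNH : NH (DF c) QR := DF_NH (by omega) h0
  obtain ⟨R, hR⟩ : ∃ R, Int' (DF c) QR R := by
    by_contra hcon
    push Not at hcon
    exact DF_cov hN (cov_all ⟨DF_rat c, hcon⟩ hNH fun P _ hP => DF_NSg h0 hP)
  have hcR : ∀ j, ((c j : ℚ) : ℝ) ≠ 0 := fun j => by exact_mod_cast h0 j
  -- the zero vector
  by_cases hx0 : x = 0
  · rw [hx0]
    refine subset_closure ⟨Rt.zero, ?_⟩
    simp
  -- the hyperplane
  let S : (Fin (m + 1) → ℝ) →ₗ[ℝ] ℝ := ∑ i, LinearMap.proj i
  have hS : ∀ v, S v = ∑ i, v i := fun v => by simp [S, LinearMap.sum_apply]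
  let H : Submodule ℝ (Fin (m + 1) → ℝ) := LinearMap.ker S
  have hrank : 1 < Module.rank ℝ H := by
    have h1 := LinearMap.finrank_range_add_finrank_ker S
    rw [Module.finrank_fin_fun] at h1
    have h2 : Module.finrank ℝ (LinearMap.range S) ≤ 1 := by
      have := Submodule.finrank_le (LinearMap.range S)
      simpa using this
    have h3 : 1 < Module.finrank ℝ H := by
      change 1 < Module.finrank ℝ (LinearMap.ker S)
      omega
    rw [← Module.finrank_eq_rank]
    exact_mod_cast h3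
  have hconn : IsPreconnected ({0}ᶜ : Set H) :=
    (isPathConnected_compl_singleton_of_one_lt_rank hrank 0).isConnected.isPreconnected
  let φ : H → E (m + 1) := fun X j => cb (X.1 j / c j)
  have hφ : Continuous φ := by
    refine continuous_pi fun j => cb_cont.comp ?_
    exact ((continuous_apply j).comp continuous_subtype_val).div_const _
  have hφz : ∀ X : H, (DF c).f (φ X) (φ X) (φ X) = 0 := by
    intro X
    rw [DF_cube]
    have h1 : S X.1 = 0 := X.2
    rw [hS] at h1
    rw [← h1]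
    refine Finset.sum_congr rfl fun j _ => ?_
    simp only [φ]
    rw [cb_pow]
    field_simp [hcR j]
  have hφ0 : ∀ X : H, X ≠ 0 → φ X ≠ 0 := by
    intro X hX h
    apply hX
    apply Subtype.ext
    funext j
    have h1 := congrFun h j
    simp only [φ, Pi.zero_apply] at h1
    have h2 := cb_pow (X.1 j / c j)
    rw [h1] at h2
    have h3 : X.1 j / c j = 0 := by rw [← h2]; norm_num
    simpa [hcR j] using h3
  -- all nonzero real zeros are values
  have hsurj : ∀ y : E (m + 1), ∑ j, (c j : ℝ) * y j ^ 3 = 0 → ∃ X : H, φ X = y := by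
    intro y hy
    refine ⟨⟨fun j => (c j : ℝ) * y j ^ 3, ?_⟩, ?_⟩
    · change S _ = 0
      rw [hS]
      exact hy
    · funext j
      simp only [φ]
      rw [mul_div_cancel_left₀ _ (hcR j), pow_cb]
  set T : Set H := {0}ᶜ with hT
  have hTo : IsOpen T := isOpen_compl_singleton
  have hu : IsOpen (φ ⁻¹' W (DF c) QR ∩ T) := by
    rw [isOpen_iff_mem_nhds]
    rintro X ⟨hX, hXT⟩
    have hX0 : X ≠ 0 := hXT
    obtain ⟨v, hv⟩ := DF_NSg h0 (hφ0 X hX0)
    have hInt := int_all (DF_rat c) hNH hR hX hv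
    have h1 : ∀ᶠ Y in 𝓝 X, (DF c).f (φ Y) (φ Y) (φ Y) = 0 → φ Y ∈ W (DF c) QR :=
      hφ.continuousAt.tendsto.eventually hInt.2.2
    filter_upwards [h1, hTo.mem_nhds hXT] with Y hY1 hY2
    exact ⟨hY1 (hφz Y), hY2⟩
  have hv : IsOpen (φ ⁻¹' (W (DF c) QR)ᶜ) := (isClosed_closure.isOpen_compl).preimage hφ
  have hne : (T ∩ (φ ⁻¹' W (DF c) QR ∩ T)).Nonempty := by
    obtain ⟨q, hq, hq'⟩ := hN {fun j => if j = 0 then 1 else 0} (by
      intro l hl
      rw [Finset.mem_singleton] at hl
      rw [hl]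
      intro h
      have := congrFun h 0
      simp at this)
    have hq0 : q 0 ≠ 0 := by
      have := hq' _ (Finset.mem_singleton_self _)
      simpa using this
    have hqR : ∑ j, (c j : ℝ) * ((q j : ℚ) : ℝ) ^ 3 = 0 := by
      have : ∑ j, c j * q j ^ 3 = 0 := hq
      exact_mod_cast this
    obtain ⟨X, hX⟩ := hsurj (fun j => ((q j : ℚ) : ℝ)) hqR
    have hX0 : X ∈ T := by
      intro h
      have h' : X = 0 := h
      have h1 := congrFun hX 0
      rw [h'] at h1
      simp only [φ, Submodule.coe_zero, Pi.zero_apply, zero_div, cb_zero] at h1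
      exact hq0 (by exact_mod_cast h1.symm)
    refine ⟨X, hX0, ?_, hX0⟩
    change φ X ∈ W (DF c) QR
    rw [hX]
    refine subset_closure ⟨fun j => mem_QR _, ?_⟩
    rw [DF_cube]
    exact hqR
  have hsub := hconn.subset_left_of_subset_union hu hv
    (Set.disjoint_left.2 fun X hX hX' => hX' hX.1)
    (fun X hX => by
      by_cases h : φ X ∈ W (DF c) QR
      · exact Or.inl ⟨h, hX⟩
      · exact Or.inr h) hne
  obtain ⟨X, hX⟩ := hsurj x hx
  have hX0 : X ∈ T := by
    intro h
    have h' : X = 0 := h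
    apply hx0
    rw [← hX, h']
    funext j
    simp [φ, cb_zero]
  have := (hsub hX0).1
  rw [← hX]
  exact this

/-- **The rational zeros are dense in the real zeros.** -/
theorem dense_NC {ι : Type} [Fintype ι] (h3 : 3 ≤ Fintype.card ι) {c : ι → ℚ}
    (h0 : ∀ j, c j ≠ 0) (hN : NC c) {x : ι → ℝ} (hx : ∑ j, (c j : ℝ) * x j ^ 3 = 0) {ε : ℝ}
    (hε : 0 < ε) : ∃ q : ι → ℚ, ZQ c q ∧ ∀ j, |(q j : ℝ) - x j| < ε := by
  classical
  obtain ⟨m, hm⟩ : ∃ m, Fintype.card ι = m + 1 := ⟨Fintype.card ι - 1, by omega⟩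
  have e : Fin (m + 1) ≃ ι := (Fintype.equivFinOfCardEq hm).symm
  have h1 : (fun j => x (e j)) ∈ W (DF fun j => c (e j)) QR := by
    refine dense_fin (by omega) (fun j => h0 _) (NC.equiv e.symm (by simpa using hN)) ?_
    rw [← hx]
    exact Equiv.sum_comp e fun j => (c j : ℝ) * x j ^ 3
  obtain ⟨y, ⟨hy1, hy2⟩, hy3⟩ := Metric.mem_closure_iff.1 h1 ε hε
  choose q hq using fun i => of_QR (hy1 i)
  refine ⟨fun j => q (e.symm j), ?_, fun j => ?_⟩
  · rw [DF_cube] at hy2
    have h2 : ∑ i, c (e i) * q i ^ 3 = 0 := by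
      simp only [← hq] at hy2
      exact_mod_cast hy2
    unfold ZQ
    rw [← Equiv.sum_comp e]
    simpa using h2
  · have h2 := (dist_pi_lt_iff hε).1 hy3 (e.symm j)
    rw [Real.dist_eq, ← hq, Equiv.apply_symm_apply, abs_sub_comm] at h2
    exact h2

end Pool.Agent.J4H71.CB
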