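import Pool.Agent.J4H71.CB.Den
import Pool.Agent.J4H71.PC.Fib

/-!
# Diagonal cubic fibres (helper71)
-/

set_option autoImplicit false
set_option linter.unusedSectionVars false

namespace Pool.Agent.J4H71.CB

open Set Filter Topology Pool.Agent.J4H71.PC Pool.Agent.H581R2 Pool.Agent.TH729.SQ

section dich

variable {ι : Type}

/-- the patterns of the exceptional zeros -/
abbrev Pat (ι : Type) : Type := (ι × ι) ⊕ (ι × ι × ι)

/-- `e_a - e_b` and `e_a + e_b - 2 e_d` -/
def vec [DecidableEq ι] (p : Pat ι) (j : ι) : ℚ :=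
  Sum.elim (fun s => (if j = s.1 then 1 else 0) - (if j = s.2 then 1 else 0))
    (fun s => (if j = s.1 then 1 else 0) + (if j = s.2.1 then 1 else 0) -
      2 * (if j = s.2.2 then 1 else 0)) p

variable [Fintype ι] [DecidableEq ι]

/-- all rational zeros are exceptional -/
def Thin (c : ι → ℚ) : Prop :=
  ∀ q, ZQ c q → ∃ (p : Pat ι) (t : ℚ), ∀ j, c j * q j ^ 3 = t * vec p j

/-- **The dichotomy.** -/
theorem dich [Nonempty ι] {c : ι → ℚ} (h : ¬ Thin c) {x : ι → ℝ}
    (hx : ∑ j, (c j : ℝ) * x j ^ 3 = 0) {ε : ℝ} (hε : 0 < ε) :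
    ∃ q : ι → ℚ, ZQ c q ∧ ∀ j, |(q j : ℝ) - x j| < ε := by
  classical
  unfold Thin at h
  push Not at h
  obtain ⟨q, hq, hnp⟩ := h
  set X : ι → ℚ := fun j => c j * q j ^ 3 with hX
  have hXs : ∑ j, X j = 0 := hq
  set S : Finset ι := Finset.univ.filter fun j => X j ≠ 0 with hS
  have hsS : ∀ f : ι → ℚ, (∀ j, X j = 0 → f j = 0) → ∑ j, f j = ∑ j ∈ S, f j := by
    intro f hf
    rw [hS, Finset.sum_filter_of_ne]
    intro j _ hj h0
    exact hj (hf j h0)
  have hXS : ∑ j ∈ S, X j = 0 := by rw [← hsS X fun _ h => h]; exact hXs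
  have hout : ∀ j, j ∉ S → X j = 0 := by
    intro j hj
    by_contra h0
    exact hj (by rw [hS]; simp [h0])
  have hin : ∀ j ∈ S, X j ≠ 0 := by
    intro j hj
    rw [hS] at hj
    simpa using hj
  have h3 : 3 ≤ S.card := by
    by_contra hcon
    have : S.card = 0 ∨ S.card = 1 ∨ S.card = 2 := by omega
    rcases this with h0 | h0 | h0
    · rw [Finset.card_eq_zero] at h0
      obtain ⟨a⟩ := ‹Nonempty ι›
      obtain ⟨j, hj⟩ := hnp (Sum.inl (a, a)) 0
      apply hj
      rw [zero_mul]
      exact hout j (by rw [h0]; simp)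
    · obtain ⟨a, ha⟩ := Finset.card_eq_one.1 h0
      rw [ha, Finset.sum_singleton] at hXS
      exact hin a (by rw [ha]; simp) hXS
    · obtain ⟨a, b, hab, hS2⟩ := Finset.card_eq_two.1 h0
      rw [hS2, Finset.sum_pair hab] at hXS
      obtain ⟨j, hj⟩ := hnp (Sum.inl (a, b)) (X a)
      apply hj
      by_cases hja : j = a
      · simp [vec, hja, hab, hX]
      · by_cases hjb : j = b
        · simp only [vec, Sum.elim_inl, hjb, hab.symm, if_false, if_true]
          change X b = _
          linear_combination hXS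
        · simp only [vec, Sum.elim_inl, hja, hjb, if_false, sub_zero, mul_zero]
          exact hout j (by rw [hS2]; simp [hja, hjb])
  -- the nonzero coefficients
  set J : Type := {j : ι // c j ≠ 0} with hJ
  have hmap : ((Finset.univ.filter fun j : J => q j.1 ≠ 0).map ⟨Subtype.val, Subtype.val_injective⟩) =
      S := by
    ext j
    simp only [Finset.mem_map, Finset.mem_filter, Finset.mem_univ, true_and,
      Function.Embedding.coeFn_mk, hS, hX]
    constructor
    · rintro ⟨a, ha, rfl⟩
      exact mul_ne_zero a.2 (pow_ne_zero 3 ha)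
    · intro hj
      have h1 : c j ≠ 0 := left_ne_zero_of_mul hj
      have h2 : q j ≠ 0 := by
        intro h0
        apply hj
        rw [h0]
        ring
      exact ⟨⟨j, h1⟩, h2, rfl⟩
  have hsum : ∀ {R : Type} [CommRing R] (f : ι → R), (∀ j, c j = 0 → f j = 0) →
      ∑ j : J, f j.1 = ∑ j, f j := by
    intro R _ f hf
    rw [← Finset.sum_subtype (Finset.univ.filter fun j => c j ≠ 0) (by simp) f]
    rw [Finset.sum_filter_of_ne]
    intro j _ hj h0
    exact hj (hf j h0)
  have hzJ : ZQ (fun j : J => c j.1) fun j => q j.1 := by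
    unfold ZQ
    rw [hsum (fun j => c j * q j ^ 3) (fun j hj => by rw [hj, zero_mul])]
    exact hq
  have hcardS : 3 ≤ (Finset.univ.filter fun j : J => q j.1 ≠ 0).card := by
    rw [← Finset.card_map ⟨Subtype.val, Subtype.val_injective⟩, hmap]
    exact h3
  have hcardJ : 3 ≤ Fintype.card J := hcardS.trans (Finset.card_le_univ _)
  have hNC : NC (fun j : J => c j.1) := by
    refine NC_of (fun j => j.2) hzJ hcardS ?_
    intro hc3 a b hab
    by_contra hne
    have hab' : X a.1 = X b.1 := hab
    have hc1 : ((Finset.univ.erase a).erase b : Finset J).card = 1 := by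
      rw [Finset.card_erase_of_mem (by simp [Ne.symm hne]), Finset.card_erase_of_mem (by simp),
        Finset.card_univ, hc3]
    obtain ⟨d, hd⟩ := Finset.card_eq_one.1 hc1
    have hd' : d ≠ b ∧ d ≠ a := by
      have : d ∈ (Finset.univ.erase a).erase b := by rw [hd]; simp
      simpa using this
    have hall : ∀ j : J, j = a ∨ j = b ∨ j = d := by
      intro j
      by_contra hcon
      push Not at hcon
      have : j ∈ (Finset.univ.erase a).erase b := by simp [hcon.1, hcon.2.1]
      rw [hd] at this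
      exact hcon.2.2 (by simpa using this)
    have hsumJ : X a.1 + X b.1 + X d.1 = 0 := by
      have h1 : ∑ j : J, X j.1 = 0 := hzJ
      rw [← Finset.add_sum_erase _ _ (Finset.mem_univ a),
        ← Finset.add_sum_erase _ _ (show b ∈ Finset.univ.erase a by simp [Ne.symm hne]), hd,
        Finset.sum_singleton] at h1
      linear_combination h1
    have hab0 : a.1 ≠ b.1 := fun h => hne (Subtype.ext h)
    have had0 : d.1 ≠ a.1 := fun h => hd'.2 (Subtype.ext h)
    have hbd0 : d.1 ≠ b.1 := fun h => hd'.1 (Subtype.ext h)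
    obtain ⟨j, hj⟩ := hnp (Sum.inr (a.1, b.1, d.1)) (X a.1)
    apply hj
    by_cases hcj : c j = 0
    · have h1 : j ≠ a.1 := fun h => a.2 (h ▸ hcj)
      have h2 : j ≠ b.1 := fun h => b.2 (h ▸ hcj)
      have h4 : j ≠ d.1 := fun h => d.2 (h ▸ hcj)
      simp [vec, h1, h2, h4, hcj]
    · rcases hall ⟨j, hcj⟩ with h1 | h1 | h1
      · have : j = a.1 := congrArg Subtype.val h1
        subst this
        simp [vec, hab0, had0.symm, hX]
      · have : j = b.1 := congrArg Subtype.val h1
        subst this
        simp only [vec, Sum.elim_inr, hab0.symm, hbd0.symm, if_false, if_true]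
        change X b.1 = _
        rw [hab']
        ring
      · have : j = d.1 := congrArg Subtype.val h1
        subst this
        simp only [vec, Sum.elim_inr, had0, hbd0, if_false, if_true]
        change X d.1 = _
        linear_combination hsumJ + hab'
  obtain ⟨p, hp, hp'⟩ := dense_NC hcardJ (fun j : J => j.2) hNC (x := fun j : J => x j.1) (by
    rw [hsum (fun j => (c j : ℝ) * x j ^ 3) (fun j hj => by rw [hj]; push_cast; ring)]
    exact hx) hε
  have hrat : ∀ j, ∃ r : ℚ, |(r : ℝ) - x j| < ε := by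
    intro j
    obtain ⟨r, h1, h2⟩ := exists_rat_btwn (show x j - ε < x j by linarith)
    exact ⟨r, by rw [abs_lt]; constructor <;> linarith⟩
  choose s hs using hrat
  refine ⟨fun j => if h : c j ≠ 0 then p ⟨j, h⟩ else s j, ?_, ?_⟩
  · unfold ZQ
    rw [← hsum (fun j => c j * (if h : c j ≠ 0 then p ⟨j, h⟩ else s j) ^ 3) (fun j hj =>
      mul_eq_zero_of_left hj _)]
    have : ∑ j : J, c j.1 * p j ^ 3 = 0 := hp
    refine Eq.trans (Finset.sum_congr rfl fun j _ => ?_) this
    rw [dif_pos j.2]
  · intro j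
    by_cases h : c j ≠ 0
    · simp only [dif_pos h]
      exact hp' ⟨j, h⟩
    · simp only [dif_neg h]
      exact hs j

end dich

end Pool.Agent.J4H71.CB
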