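import Pool.Agent.J4H71.CB.Cone

/-!
# The exceptional points (helper71)
-/

set_option autoImplicit false
set_option linter.unusedSectionVars false

namespace Pool.Agent.J4H71.CB

open Set Filter Topology Pool.Agent.J4H71.PC Pool.Agent.H581R2 Pool.Agent.TH729.SQ

variable {κ : Type} [Fintype κ] {b : κ → κ → κ → ℚ} {V : Submodule ℚ (κ → ℚ)}

/-- polarization of quadratic forms -/
lemma pol2 (hb : Sy b) {z : κ → ℚ} {P : Submodule ℚ (κ → ℚ)} (h : ∀ w ∈ P, tri b z w w = 0)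
    {x y : κ → ℚ} (hx : x ∈ P) (hy : y ∈ P) : tri b z x y = 0 := by
  have h1 := h (x + y) (P.add_mem hx hy)
  simp only [tri_add2, tri_add3] at h1
  rw [h x hx, h y hy, hb.t23 z x y] at h1
  linarith

/-- polarization of cubic forms -/
lemma pol3 (hb : Sy b) {P : Submodule ℚ (κ → ℚ)} (h : ∀ w ∈ P, cub b w = 0)
    {x y z : κ → ℚ} (hx : x ∈ P) (hy : y ∈ P) (hz : z ∈ P) : tri b x y z = 0 := by
  have key : ∀ x ∈ P, ∀ y ∈ P, tri b y x x = 0 := by
    intro x hx y hy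
    have h1 := h ((1 : ℚ) • x + (1 : ℚ) • y) (P.add_mem (P.smul_mem _ hx) (P.smul_mem _ hy))
    have h2 := h ((1 : ℚ) • x + (-1 : ℚ) • y) (P.add_mem (P.smul_mem _ hx) (P.smul_mem _ hy))
    rw [hb.comb, h x hx, h y hy] at h1 h2
    have e : tri b x x y = tri b y x x := by rw [hb.t23, hb.t12]
    rw [e] at h1 h2
    linarith
  exact pol2 hb (fun w hw => key w hw x hx) hy hz

/-- the polar hyperplane -/
def Pl (b : κ → κ → κ → ℚ) (V : Submodule ℚ (κ → ℚ)) (a c : κ → ℚ) : Submodule ℚ (κ → ℚ) where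
  carrier := {w | w ∈ V ∧ tri b a c w = 0}
  zero_mem' := ⟨V.zero_mem, by simp [tri]⟩
  add_mem' := by
    rintro x y ⟨hx, hx'⟩ ⟨hy, hy'⟩
    exact ⟨V.add_mem hx hy, by rw [tri_add3, hx', hy', add_zero]⟩
  smul_mem' := by
    rintro t x ⟨hx, hx'⟩
    exact ⟨V.smul_mem _ hx, by rw [tri_smul3, hx', mul_zero]⟩

lemma mem_Pl {a c w : κ → ℚ} : w ∈ Pl b V a c ↔ w ∈ V ∧ tri b a c w = 0 := Iff.rfl

/-- a nonzero vector in the kernels of two functionals -/
lemma exists_ker (h : 2 < Module.finrank ℚ V) (a₁ c₁ a₂ c₂ : κ → ℚ) :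
    ∃ k ∈ V, k ≠ 0 ∧ tri b a₁ c₁ k = 0 ∧ tri b a₂ c₂ k = 0 := by
  let φ : V →ₗ[ℚ] (Fin 2 → ℚ) :=
    { toFun := fun k => ![tri b a₁ c₁ (k : κ → ℚ), tri b a₂ c₂ (k : κ → ℚ)]
      map_add' := by
        intro x y
        ext i
        fin_cases i <;> simp [tri_add3]
      map_smul' := by
        intro t x
        ext i
        fin_cases i <;> simp [tri_smul3] }
  have h1 : LinearMap.ker φ ≠ ⊥ := LinearMap.ker_ne_bot_of_finrank_lt (by simpa using h)
  obtain ⟨k, hk, hk0⟩ := Submodule.exists_mem_ne_zero_of_ne_bot h1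
  have h2 : φ k = 0 := hk
  refine ⟨k, k.2, fun h0 => hk0 (Subtype.ext h0), ?_, ?_⟩
  · have := congrFun h2 0
    simpa [φ] using this
  · have := congrFun h2 1
    simpa [φ] using this

/-- **The types of exceptional points.** -/
lemma exc_types {z : κ → ℚ} (hz : z ∈ V) (hf : cub b z ≠ 0) (h : ∀ w ∈ V, dd b z w = 0) :
    (∀ w ∈ V, gg b z w = 0) ∨ ∃ r : ℚ, ∀ w ∈ V, 4 * hh b z w ^ 3 + r * gg b z w ^ 2 = 0 := by
  obtain ⟨C⟩ := exists_crd V
  set W : κ → MvPolynomial (Fin C.m) ℚ := fun k =>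
    ∑ i, MvPolynomial.C (C.e i k) * MvPolynomial.X i with hW
  set Z : κ → MvPolynomial (Fin C.m) ℚ := fun k => MvPolynomial.C (z k) with hZ
  have hWe : ∀ t : Fin C.m → ℚ, (fun k => MvPolynomial.aeval t (W k) : κ → ℚ) = ∑ i, t i • C.e i := by
    intro t
    funext k
    simp only [hW, map_sum, map_mul, MvPolynomial.aeval_X, MvPolynomial.aeval_C,
      Finset.sum_apply, Pi.smul_apply, smul_eq_mul]
    exact Finset.sum_congr rfl fun i _ => by simp [mul_comm]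
  have hZe : ∀ t : Fin C.m → ℚ, (fun k => MvPolynomial.aeval t (Z k) : κ → ℚ) = z := by
    intro t
    funext k
    simp [hZ]
  have hmem : ∀ t : Fin C.m → ℚ, ∑ i, t i • C.e i ∈ V := fun t =>
    Submodule.sum_mem _ fun i _ => V.smul_mem _ (C.mem i)
  have hrep : ∀ w ∈ V, ∃ t : Fin C.m → ℚ, w = ∑ i, t i • C.e i := by
    intro w hw
    refine ⟨fun i => ∑ j, C.l i j * w j, ?_⟩
    funext k
    rw [Finset.sum_apply]
    exact C.rep w hw k
  have h0 : dd b Z W = 0 := by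
    apply MvPolynomial.funext
    intro t
    have := dd_map b (MvPolynomial.aeval t : MvPolynomial (Fin C.m) ℚ →ₐ[ℚ] ℚ) Z W
    rw [hWe, hZe, h _ (hmem t)] at this
    rw [map_zero]
    exact this
  unfold dd at h0
  rcases mul_eq_zero.1 h0 with h1 | h1
  · rcases mul_eq_zero.1 h1 with h2 | h2
    · exfalso
      obtain ⟨t, ht⟩ := hrep z hz
      have := tri_map b (MvPolynomial.aeval t : MvPolynomial (Fin C.m) ℚ →ₐ[ℚ] ℚ) W W W
      rw [hWe, ← ht] at this
      unfold cub at h2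
      rw [h2, map_zero] at this
      exact hf this.symm
    · left
      intro w hw
      obtain ⟨t, rfl⟩ := hrep w hw
      have := gg_map b (MvPolynomial.aeval t : MvPolynomial (Fin C.m) ℚ →ₐ[ℚ] ℚ) Z W
      rw [h2, hWe, hZe, map_zero] at this
      exact this.symm
  · right
    obtain ⟨r, -, h2⟩ := Finset.prod_eq_zero_iff.1 h1
    refine ⟨r, fun w hw => ?_⟩
    obtain ⟨t, rfl⟩ := hrep w hw
    have := congrArg (MvPolynomial.aeval t : MvPolynomial (Fin C.m) ℚ →ₐ[ℚ] ℚ) h2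
    simp only [map_add, map_mul, map_pow, map_ofNat, AlgHom.commutes, map_zero, hh_map, gg_map,
      hWe, hZe] at this
    exact this

lemma hh_polar {z w : κ → ℚ} (h : tri b z z w = 0) : hh b z w = cub b z * tri b z w w := by
  unfold hh H0
  rw [h]
  ring

lemma gg_polar {z w : κ → ℚ} (h : tri b z z w = 0) : gg b z w = cub b z ^ 2 * cub b w := by
  unfold gg G0
  rw [h]
  ring

/-- the three types -/
lemma exc_types' {z : κ → ℚ} (hz : z ∈ V) (hf : cub b z ≠ 0) (h : ∀ w ∈ V, dd b z w = 0) :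
    (∀ w ∈ Pl b V z z, tri b z w w = 0) ∨ (∀ w ∈ Pl b V z z, cub b w = 0) ∨
      ∃ γ : ℚ, γ ≠ 0 ∧ ∀ w ∈ Pl b V z z, tri b z w w ^ 3 = γ * cub b w ^ 2 := by
  rcases exc_types hz hf h with h1 | ⟨r, h1⟩
  · right; left
    rintro w ⟨hw, hw'⟩
    have := h1 w hw
    rw [gg_polar hw'] at this
    rcases mul_eq_zero.1 this with h2 | h2
    · exact absurd (pow_eq_zero_iff two_ne_zero |>.1 h2) hf
    · exact h2
  · by_cases hr : r = 0
    · left
      rintro w ⟨hw, hw'⟩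
      have := h1 w hw
      rw [hh_polar hw', gg_polar hw', hr] at this
      have h2 : cub b z ^ 3 * tri b z w w ^ 3 = 0 := by linarith
      rcases mul_eq_zero.1 h2 with h3 | h3
      · exact absurd (pow_eq_zero_iff three_ne_zero |>.1 h3) hf
      · exact pow_eq_zero_iff three_ne_zero |>.1 h3
    · right; right
      refine ⟨-(r * cub b z) / 4, by
        have := mul_ne_zero hr hf
        intro h0
        apply this
        linarith, ?_⟩
      rintro w ⟨hw, hw'⟩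
      have := h1 w hw
      rw [hh_polar hw', gg_polar hw'] at this
      have h2 : cub b z ^ 3 * (4 * tri b z w w ^ 3 + r * cub b z * cub b w ^ 2) = 0 := by
        linear_combination this
      rcases mul_eq_zero.1 h2 with h3 | h3
      · exact absurd (pow_eq_zero_iff three_ne_zero |>.1 h3) hf
      · linarith

/-- vertices -/
def Vert (b : κ → κ → κ → ℚ) (V : Submodule ℚ (κ → ℚ)) (v : κ → ℚ) : Prop :=
  ∀ x ∈ V, ∀ y ∈ V, tri b v x y = 0

/-- a criterion for vertices -/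
lemma vert_of (hb : Sy b) {z v : κ → ℚ} (hz : z ∈ V) (hf : cub b z ≠ 0) (h1 : tri b z z v = 0)
    (h2 : ∀ k ∈ Pl b V z z, tri b z k v = 0)
    (h3 : ∀ k ∈ Pl b V z z, ∀ k' ∈ Pl b V z z, tri b k k' v = 0) : Vert b V v := by
  have hdec : ∀ x ∈ V, ∃ (α : ℚ) (k : κ → ℚ), k ∈ Pl b V z z ∧ x = α • z + k := by
    intro x hx
    refine ⟨tri b z z x / cub b z, x + (-(tri b z z x / cub b z)) • z,
      ⟨V.add_mem hx (V.smul_mem _ hz), ?_⟩, ?_⟩
    · rw [tri_add3, tri_smul3]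
      change tri b z z x + -(tri b z z x / cub b z) * cub b z = 0
      field_simp
      ring
    · rw [neg_smul]
      abel
  intro x hx y hy
  obtain ⟨α, k, hk, rfl⟩ := hdec x hx
  obtain ⟨β, k', hk', rfl⟩ := hdec y hy
  simp only [tri_add2, tri_add3, tri_smul2, tri_smul3]
  have e1 : tri b v z z = 0 := by rw [hb.t12, hb.t23]; exact h1
  have e2 : tri b v z k' = 0 := by rw [hb.t12, hb.t23]; exact h2 k' hk'
  have e3 : tri b v k z = 0 := by rw [hb.t23, hb.t12, hb.t23]; exact h2 k hk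
  have e4 : tri b v k k' = 0 := by rw [hb.t12, hb.t23]; exact h3 k hk k' hk'
  rw [e1, e2, e3, e4]
  ring

/-- the coefficients of an even identity -/
lemma even_id {b0 b2 γ c0 c1 c2 c3 : ℚ} (hγ : γ ≠ 0) (hb0 : b0 ≠ 0)
    (h : ∀ t : ℚ, (b0 + t ^ 2 * b2) ^ 3 = γ * ev3 c0 c1 c2 c3 t ^ 2) :
    b2 = 0 ∧ c1 = 0 ∧ c2 = 0 ∧ c3 = 0 := by
  unfold ev3 at h
  have k0 := h 0
  have k1 := h 1
  have k2 := h (-1)
  have k3 := h 2
  have k4 := h (-2)
  have k5 := h 3
  have k6 := h (-3)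
  -- the coefficients
  have e0 : b0 ^ 3 = γ * c0 ^ 2 := by linear_combination k0
  have e1 : γ * (c0 * c1) = 0 := by
    linear_combination (-3/4*k1 + 3/4*k2 + 3/20*k3 - 3/20*k4 - 1/60*k5 + 1/60*k6) * (1/6)
  have e3 : γ * (18 * c1 * c2 + 2 * c0 * c3) = 0 := by
    linear_combination 13/48*k1 - 13/48*k2 - 1/6*k3 + 1/6*k4 + 1/48*k5 - 1/48*k6
  have e6 : b2 ^ 3 = γ * c3 ^ 2 := by
    linear_combination -1/36*k0 + 1/48*k1 + 1/48*k2 - 1/120*k3 - 1/120*k4 + 1/720*k5 + 1/720*k6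
  have e2 : 3 * b0 ^ 2 * b2 = γ * (9 * c1 ^ 2 + 6 * c0 * c2) := by
    linear_combination -49/36*k0 + 3/4*k1 + 3/4*k2 - 3/40*k3 - 3/40*k4 + 1/180*k5 + 1/180*k6
  have hc0 : c0 ≠ 0 := by
    rintro rfl
    apply hb0
    have : b0 ^ 3 = 0 := by rw [e0]; ring
    exact pow_eq_zero_iff three_ne_zero |>.1 this
  have hc1 : c1 = 0 := by
    rcases mul_eq_zero.1 e1 with h1 | h1
    · exact absurd h1 hγ
    · rcases mul_eq_zero.1 h1 with h2 | h2
      · exact absurd h2 hc0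
      · exact h2
  have hc3 : c3 = 0 := by
    rw [hc1] at e3
    have : γ * c0 * c3 = 0 := by linarith
    rcases mul_eq_zero.1 this with h1 | h1
    · exact absurd h1 (mul_ne_zero hγ hc0)
    · exact h1
  have hb2 : b2 = 0 := by
    rw [hc3] at e6
    have : b2 ^ 3 = 0 := by rw [e6]; ring
    exact pow_eq_zero_iff three_ne_zero |>.1 this
  have hc2 : c2 = 0 := by
    rw [hc1, hb2] at e2
    have : γ * c0 * c2 = 0 := by linarith
    rcases mul_eq_zero.1 this with h1 | h1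
    · exact absurd h1 (mul_ne_zero hγ hc0)
    · exact h1
  exact ⟨hb2, hc1, hc2, hc3⟩

/-- **The third type.** -/
lemma type3 (hb : Sy b) (hd : 2 < Module.finrank ℚ V) {z : κ → ℚ} (hz : z ∈ V)
    (hf : cub b z ≠ 0) {γ : ℚ} (hγ : γ ≠ 0)
    (h : ∀ w ∈ Pl b V z z, tri b z w w ^ 3 = γ * cub b w ^ 2) :
    ∃ v ∈ V, v ≠ 0 ∧ Vert b V v := by
  by_cases hB : ∀ w ∈ Pl b V z z, tri b z w w = 0
  · obtain ⟨v, hv, hv0, h1, -⟩ := exists_ker (b := b) hd z z z z
    have hvP : v ∈ Pl b V z z := ⟨hv, h1⟩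
    have hc : ∀ w ∈ Pl b V z z, cub b w = 0 := by
      intro w hw
      have := h w hw
      rw [hB w hw] at this
      have h2 : γ * cub b w ^ 2 = 0 := by rw [← this]; ring
      rcases mul_eq_zero.1 h2 with h3 | h3
      · exact absurd h3 hγ
      · exact pow_eq_zero_iff two_ne_zero |>.1 h3
    exact ⟨v, hv, hv0, vert_of hb hz hf h1 (fun k hk => pol2 hb hB hk hvP)
      fun k hk k' hk' => pol3 hb hc hk hk' hvP⟩
  · push Not at hB
    obtain ⟨w₀, hw₀, hB0⟩ := hB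
    obtain ⟨v, hv, hv0, h1, h2⟩ := exists_ker (b := b) hd z z z w₀
    -- the space `K`
    have hK : ∀ k ∈ Pl b (Pl b V z z) z w₀, tri b z k k = 0 ∧ tri b w₀ w₀ k = 0 ∧
        tri b w₀ k k = 0 ∧ cub b k = 0 := by
      rintro k ⟨hk1, hk2⟩
      refine even_id (b0 := tri b z w₀ w₀) (c0 := cub b w₀) hγ hB0 fun t => ?_
      rw [← hb.line, ← h _ ((Pl b V z z).add_mem hw₀ ((Pl b V z z).smul_mem _ hk1))]
      congr 1
      simp only [tri_add2, tri_add3, tri_smul2, tri_smul3]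
      rw [hk2, hb.t23 z w₀ k, hk2]
      ring
    have hvP : v ∈ Pl b V z z := ⟨hv, h1⟩
    have hvK : v ∈ Pl b (Pl b V z z) z w₀ := ⟨hvP, h2⟩
    -- decomposition of the elements of the polar hyperplane
    have hdec : ∀ x ∈ Pl b V z z, ∃ (α : ℚ) (k : κ → ℚ), k ∈ Pl b (Pl b V z z) z w₀ ∧
        x = α • w₀ + k := by
      intro x hx
      refine ⟨tri b z w₀ x / tri b z w₀ w₀, x + (-(tri b z w₀ x / tri b z w₀ w₀)) • w₀,
        ⟨(Pl b V z z).add_mem hx ((Pl b V z z).smul_mem _ hw₀), ?_⟩, ?_⟩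
      · rw [tri_add3, tri_smul3]
        field_simp
        ring
      · rw [neg_smul]
        abel
    have q1 : ∀ k ∈ Pl b (Pl b V z z) z w₀, tri b z k v = 0 := fun k hk =>
      pol2 hb (fun w hw => (hK w hw).1) hk hvK
    have q2 : ∀ k ∈ Pl b (Pl b V z z) z w₀, tri b w₀ k v = 0 := fun k hk =>
      pol2 hb (fun w hw => (hK w hw).2.2.1) hk hvK
    have q3 : ∀ k ∈ Pl b (Pl b V z z) z w₀, ∀ k' ∈ Pl b (Pl b V z z) z w₀, tri b k k' v = 0 :=
      fun k hk k' hk' => pol3 hb (fun w hw => (hK w hw).2.2.2) hk hk' hvK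
    refine ⟨v, hv, hv0, vert_of hb hz hf h1 (fun x hx => ?_) fun x hx y hy => ?_⟩
    · obtain ⟨α, k, hk, rfl⟩ := hdec x hx
      rw [tri_add2, tri_smul2, h2, q1 k hk]
      ring
    · obtain ⟨α, k, hk, rfl⟩ := hdec x hx
      obtain ⟨β, k', hk', rfl⟩ := hdec y hy
      simp only [tri_add1, tri_add2, tri_smul1, tri_smul2]
      rw [(hK v hvK).2.1, q2 k' hk', hb.t12 w₀ k v, q2 k hk, q3 k hk k' hk']
      ring

end Pool.Agent.J4H71.CB
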