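import Pool.Agent.J4H71.CB.Dich

/-!
# The fibre `c_0 + ∑ c_j u_j³ = 0` (helper71)
-/

set_option autoImplicit false
set_option linter.unusedSectionVars false

namespace Pool.Agent.J4H71.CB

open Set Filter Topology Pool.Agent.J4H71.PC Pool.Agent.H581R2 Pool.Agent.TH729.SQ

variable {μ : Type} [Fintype μ] [DecidableEq μ]

/-- the coordinates with `1` for the constant term -/
def hat {R : Type} [One R] (u : μ → R) (j : Option μ) : R := j.elim 1 u

/-- the scaled real point -/
noncomputable def sx (c : Option μ → ℚ) (c' : Option μ → ℝ) (u' : μ → ℝ) (j : Option μ) : ℝ :=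
  open Classical in if c j = 0 then hat u' j else hat u' j * cb (c' j / c j)

/-- the core of the limit property -/
theorem lim_core {c : Option μ → ℚ} {b : ℕ → Option μ → ℚ} {c' : Option μ → ℝ} {u' : μ → ℝ}
    (hcb : ∀ n j, PS 3 (c j) (b n j)) (hb : ∀ j, Tendsto (fun n => (b n j : ℝ)) atTop (𝓝 (c' j)))
    (hc0 : ∀ j, c' j = 0 → c j = 0)
    (hx : ∀ ε : ℝ, 0 < ε → ∃ q, ZQ c q ∧ ∀ j, |(q j : ℝ) - sx c c' u' j| < ε) :
    ∀ ε : ℝ, 0 < ε → ∀ᶠ n in atTop, ∃ u ∈ Aff (μ := μ) 3 (b n), ∀ k, |(u k : ℝ) - u' k| < ε := by
  classical
  intro ε hε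
  choose r hr0 hr using hcb
  set ρ : Option μ → ℝ := fun j => cb (c' j / c j) with hρ
  have hρ0 : ∀ j, c j ≠ 0 → ρ j ≠ 0 := by
    intro j hj
    refine cb_ne (div_ne_zero (fun h => hj (hc0 j h)) ?_)
    exact_mod_cast hj
  have hrl : ∀ j, c j ≠ 0 → Tendsto (fun n => (r n j : ℝ)) atTop (𝓝 (ρ j)) := by
    intro j hj
    have hjR : (c j : ℝ) ≠ 0 := by exact_mod_cast hj
    have h1 : Tendsto (fun n => cb ((b n j : ℝ) / c j)) atTop (𝓝 (ρ j)) :=
      (cb_cont.tendsto _).comp ((hb j).div_const _)
    refine h1.congr fun n => ?_
    rw [hr n j]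
    push_cast
    rw [mul_div_cancel_right₀ _ hjR, pow_cb]
  -- rational zeros close to the scaled point
  have hx' : ∀ m : ℕ, ∃ q, ZQ c q ∧ ∀ j, |(q j : ℝ) - sx c c' u' j| < 1 / ((m : ℝ) + 1) :=
    fun m => hx _ (by positivity)
  choose q hqz hq using hx'
  have hql : ∀ j, Tendsto (fun m => (q m j : ℝ)) atTop (𝓝 (sx c c' u' j)) := by
    intro j
    rw [tendsto_iff_dist_tendsto_zero]
    refine squeeze_zero (fun _ => dist_nonneg) (fun m => ?_) tendsto_one_div_add_atTop_nhds_zero_nat
    rw [Real.dist_eq]
    exact (hq m j).le
  -- the factor for the constant term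
  let lam : ℚ → ℝ → ℝ := fun q0 r0 => if c none = 0 then 1 else r0 / q0
  let G : (Option μ → ℚ) → (Option μ → ℝ) → μ → ℝ := fun q r k =>
    if c (some k) = 0 then q (some k) else (q (some k) : ℝ) / r (some k) * lam (q none) (r none)
  have hGl : ∀ k, Tendsto (fun m => G (q m) ρ k) atTop (𝓝 (u' k)) := by
    intro k
    simp only [G]
    by_cases hk : c (some k) = 0
    · simp only [hk, if_true]
      have := hql (some k)
      simpa [sx, hk, hat] using this
    · simp only [hk, if_false]
      have h1 : Tendsto (fun m => (q m (some k) : ℝ) / ρ (some k)) atTop (𝓝 (u' k)) := by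
        have := (hql (some k)).div_const (ρ (some k))
        simp only [sx, hk, if_false, hat, Option.elim] at this
        rwa [mul_div_cancel_right₀ _ (hρ0 _ hk)] at this
      have h2 : Tendsto (fun m => lam (q m none) (ρ none)) atTop (𝓝 1) := by
        simp only [lam]
        by_cases h0 : c none = 0
        · simp only [h0, if_true]
          exact tendsto_const_nhds
        · simp only [h0, if_false]
          have h3 := hql none
          simp only [sx, h0, if_false, hat, Option.elim, one_mul] at h3
          have h4 : Tendsto (fun m => ρ none / (q m none : ℝ)) atTop (𝓝 (ρ none / ρ none)) :=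
            tendsto_const_nhds.div h3 (hρ0 _ h0)
          rwa [div_self (hρ0 _ h0)] at h4
      have := h1.mul h2
      rwa [mul_one] at this
  have e1 : ∀ᶠ m in atTop, ∀ k, |G (q m) ρ k - u' k| < ε / 2 := by
    rw [Filter.eventually_all]
    intro k
    filter_upwards [(Metric.tendsto_nhds.1 (hGl k)) (ε / 2) (half_pos hε)] with m hm
    rwa [Real.dist_eq] at hm
  have e2 : ∀ᶠ m in atTop, c none ≠ 0 → (q m none : ℝ) ≠ 0 := by
    by_cases h0 : c none = 0
    · exact Eventually.of_forall fun m h => absurd h0 h
    · have h3 := hql none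
      simp only [sx, h0, if_false, hat, Option.elim, one_mul] at h3
      filter_upwards [h3.eventually_ne (hρ0 _ h0)] with m hm _
      exact hm
  obtain ⟨m, hm1, hm2⟩ := (e1.and e2).exists
  have hGn : ∀ k, Tendsto (fun n => G (q m) (fun j => (r n j : ℝ)) k) atTop (𝓝 (G (q m) ρ k)) := by
    intro k
    simp only [G]
    by_cases hk : c (some k) = 0
    · simp only [hk, if_true]
      exact tendsto_const_nhds
    · simp only [hk, if_false]
      refine (tendsto_const_nhds.div (hrl _ hk) (hρ0 _ hk)).mul ?_
      simp only [lam]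
      by_cases h0 : c none = 0
      · simp only [h0, if_true]
        exact tendsto_const_nhds
      · simp only [h0, if_false]
        exact (hrl _ h0).div_const _
  have e3 : ∀ᶠ n in atTop, ∀ k, |G (q m) (fun j => (r n j : ℝ)) k - G (q m) ρ k| < ε / 2 := by
    rw [Filter.eventually_all]
    intro k
    filter_upwards [(Metric.tendsto_nhds.1 (hGn k)) (ε / 2) (half_pos hε)] with n hn
    rwa [Real.dist_eq] at hn
  filter_upwards [e3] with n hn
  let lq : ℚ := if c none = 0 then 1 else r n none / q m none
  refine ⟨fun k => if c (some k) = 0 then q m (some k) else q m (some k) / r n (some k) * lq,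
    ?_, fun k => ?_⟩
  · have hz : ∑ j, c j * q m j ^ 3 = 0 := hqz m
    rw [Fintype.sum_option] at hz
    change b n none + ∑ k, b n (some k) * (if c (some k) = 0 then q m (some k) else
      q m (some k) / r n (some k) * lq) ^ 3 = 0
    have h1 : ∀ k, b n (some k) * (if c (some k) = 0 then q m (some k) else
        q m (some k) / r n (some k) * lq) ^ 3 = lq ^ 3 * (c (some k) * q m (some k) ^ 3) := by
      intro k
      rw [hr n (some k)]
      by_cases hk : c (some k) = 0
      · rw [hk]; ring
      · rw [if_neg hk]
        have := hr0 n (some k)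
        field_simp
    rw [Finset.sum_congr rfl fun k _ => h1 k, ← Finset.mul_sum, hr n none]
    by_cases h0 : c none = 0
    · have : lq = 1 := by simp [lq, h0]
      rw [this, h0]
      rw [h0] at hz
      linear_combination hz
    · have h2 : lq = r n none / q m none := by simp [lq, h0]
      have h3 : q m none ≠ 0 := by
        intro h
        exact hm2 h0 (by rw [h]; norm_num)
      rw [h2]
      field_simp
      linear_combination (r n none ^ 3) * hz
  · have h1 : (((if c (some k) = 0 then q m (some k) else
        q m (some k) / r n (some k) * lq : ℚ)) : ℝ) = G (q m) (fun j => (r n j : ℝ)) k := by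
      simp only [G, lam, lq]
      by_cases hk : c (some k) = 0
      · simp [hk]
      · by_cases h0 : c none = 0
        · simp [hk, h0]
        · simp [hk, h0]
    rw [h1]
    have := abs_sub_le (G (q m) (fun j => (r n j : ℝ)) k) (G (q m) ρ k) (u' k)
    have h2 := hn k
    have h3 := hm1 k
    linarith

/-- the realised patterns -/
def Rz (c : Option μ → ℚ) : Set (Pat (Option μ)) :=
  {p | ∃ (q : Option μ → ℚ) (t : ℚ), t ≠ 0 ∧ ∀ j, c j * q j ^ 3 = t * vec p j}

/-- the models of the closures -/
def ShM : Option (Set (Pat (Option μ))) → Set (Option μ ⊕ μ → ℝ)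
  | none => {v | v (Sum.inl none) + ∑ j, v (Sum.inl (some j)) * v (Sum.inr j) ^ 3 = 0}
  | some R => {v | ∃ p : Pat (Option μ), p ∈ R ∧ ∃ t : ℝ, v (Sum.inl none) = t * (vec p none : ℚ) ∧
      ∀ j, v (Sum.inl (some j)) * v (Sum.inr j) ^ 3 = t * (vec p (some j) : ℚ)}

open Classical in
/-- the shapes of the fibres -/
noncomputable def ShC (c : Option μ → ℚ) : Set (Option μ ⊕ μ → ℝ) :=
  ShM (if Thin c then some (Rz c) else none)

lemma vec_zero (j : Option μ) : vec (Sum.inl (none, none) : Pat (Option μ)) j = 0 := by
  simp [vec]

/-- **Affine diagonal cubics.** -/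
theorem fib_cube : Fib 3 (Aff (μ := μ) 3) ShC := by
  classical
  refine ⟨?_, ?_, ?_, ?_⟩
  · refine (Set.finite_range (ShM (μ := μ))).subset ?_
    rintro _ ⟨c, rfl⟩
    exact ⟨_, rfl⟩
  · intro c
    unfold ShC
    split_ifs
    · refine SAP.exists_fin fun p => SAP.and (SAP.const _) ?_
      refine SAP.exists' ?_
      refine SAP.and (SAP.eq (PF.coord _) ((PF.coord _).mul (PF.const _))) ?_
      exact SAP.forall_fin fun j => SAP.eq ((PF.coord _).mul ((PF.coord _).pow 3))
        ((PF.coord _).mul (PF.const _))
    · exact SAP.eq_zero ((PF.coord _).add (PF.sum _ fun j _ => (PF.coord _).mul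
        ((PF.coord _).pow 3)))
  · intro c u hu
    have hu' : c none + ∑ j, c (some j) * u j ^ 3 = 0 := hu
    have hz : ZQ c (hat u) := by
      unfold ZQ
      rw [Fintype.sum_option]
      simp only [hat, Option.elim, one_pow, mul_one]
      exact hu'
    unfold ShC
    split_ifs with hT
    · obtain ⟨p, t, hp⟩ := hT _ hz
      by_cases ht : t = 0
      · refine ⟨Sum.inl (none, none), ⟨fun _ => 0, 1, one_ne_zero, fun j => ?_⟩, 0, ?_, fun j => ?_⟩
        · rw [vec_zero]; ring
        · have := hp none
          rw [ht] at this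
          simp only [hat, Option.elim, one_pow, mul_one, zero_mul] at this
          simp only [Sum.elim_inl, zero_mul]
          exact_mod_cast this
        · have := hp (some j)
          rw [ht] at this
          simp only [hat, Option.elim, zero_mul] at this
          simp only [Sum.elim_inl, Sum.elim_inr, zero_mul]
          exact_mod_cast this
      · refine ⟨p, ⟨hat u, t, ht, hp⟩, t, ?_, fun j => ?_⟩
        · have := hp none
          simp only [hat, Option.elim, one_pow, mul_one] at this
          simp only [Sum.elim_inl]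
          exact_mod_cast this
        · have := hp (some j)
          simp only [hat, Option.elim] at this
          simp only [Sum.elim_inl, Sum.elim_inr]
          exact_mod_cast this
    · change _ = _
      simp only [Sum.elim_inl, Sum.elim_inr]
      exact_mod_cast hu'
  · intro c b c' u' hcb hb hc0 hS
    refine lim_core hcb hb hc0 ?_
    have hb0 : ∀ n j, c j = 0 → b n j = 0 := fun n j h0 => (hcb n j).eq_zero_iff.1 h0
    have hc0' : ∀ j, c j = 0 → c' j = 0 := by
      intro j hj
      have h1 : Tendsto (fun n => (b n j : ℝ)) atTop (𝓝 0) := by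
        have : (fun n => (b n j : ℝ)) = fun _ => (0 : ℝ) := by
          funext n
          rw [hb0 n j hj]
          simp
        rw [this]
        exact tendsto_const_nhds
      exact tendsto_nhds_unique (hb j) h1
    -- the terms
    have hterm : ∀ j, (c j : ℝ) * sx c c' u' j ^ 3 = c' j * hat u' j ^ 3 := by
      intro j
      unfold sx
      by_cases hj : c j = 0
      · rw [if_pos hj, hj, hc0' j hj]
        push_cast
        ring
      · rw [if_neg hj, mul_pow, cb_pow]
        have : (c j : ℝ) ≠ 0 := by exact_mod_cast hj
        field_simp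
    unfold ShC at hS
    split_ifs at hS with hT
    · obtain ⟨p, ⟨q, t, ht, hq⟩, t', h1, h2⟩ := hS
      simp only [Sum.elim_inl, Sum.elim_inr] at h1 h2
      have htR : (t : ℝ) ≠ 0 := by exact_mod_cast ht
      -- the scaled point is a real multiple of `q`
      have hmul : ∀ j, c j ≠ 0 → sx c c' u' j = cb (t' / t) * q j := by
        intro j hj
        have hjR : (c j : ℝ) ≠ 0 := by exact_mod_cast hj
        apply cube_inj
        apply mul_left_cancel₀ hjR
        rw [hterm j, mul_pow, cb_pow]
        have h3 : c' j * hat u' j ^ 3 = t' * (vec p j : ℚ) := by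
          rcases j with _ | j
          · simp only [hat, Option.elim, one_pow, mul_one]
            exact h1
          · exact h2 j
        have h4 : (c j : ℝ) * (q j : ℝ) ^ 3 = t * (vec p j : ℚ) := by exact_mod_cast hq j
        rw [h3]
        field_simp
        linear_combination -t' * h4
      intro ε hε
      -- a rational multiple
      obtain ⟨M, hM0, hM⟩ : ∃ M : ℝ, 0 < M ∧ ∀ j, |(q j : ℝ)| ≤ M := by
        obtain ⟨M, hM⟩ := (Set.finite_range fun j => |(q j : ℝ)|).bddAbove
        exact ⟨max M 1, lt_of_lt_of_le one_pos (le_max_right _ _),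
          fun j => (hM ⟨j, rfl⟩).trans (le_max_left _ _)⟩
      obtain ⟨s, hs1, hs2⟩ := exists_rat_btwn (show cb (t' / t) - ε / M < cb (t' / t) by
        have : 0 < ε / M := by positivity
        linarith)
      have hrat : ∀ j, ∃ r : ℚ, |(r : ℝ) - sx c c' u' j| < ε := by
        intro j
        obtain ⟨r, h1, h2⟩ := exists_rat_btwn (show sx c c' u' j - ε < sx c c' u' j by linarith)
        exact ⟨r, by rw [abs_lt]; constructor <;> linarith⟩
      choose y hy using hrat
      have hqz : ZQ c q := by
        unfold ZQ
        rw [Finset.sum_congr rfl fun j _ => hq j, ← Finset.mul_sum]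
        have : ∑ j, vec p j = 0 := by
          rcases p with ⟨a, d⟩ | ⟨a, d, e⟩
          · simp [vec]
          · simp [vec, Finset.sum_add_distrib, ← Finset.mul_sum]
            norm_num
        rw [this, mul_zero]
      refine ⟨fun j => if c j = 0 then y j else s * q j, ?_, fun j => ?_⟩
      · unfold ZQ at hqz ⊢
        have h3 : ∀ j, c j * (if c j = 0 then y j else s * q j) ^ 3 = s ^ 3 * (c j * q j ^ 3) := by
          intro j
          by_cases hj : c j = 0
          · rw [hj]; ring
          · rw [if_neg hj]; ring
        rw [Finset.sum_congr rfl fun j _ => h3 j, ← Finset.mul_sum, hqz, mul_zero]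
      · by_cases hj : c j = 0
        · simp only [if_pos hj]
          exact hy j
        · simp only [if_neg hj]
          rw [hmul j hj]
          push_cast
          rw [← sub_mul, abs_mul]
          have h3 : |(s : ℝ) - cb (t' / t)| < ε / M := by
            rw [abs_lt]
            constructor <;> linarith [div_pos hε hM0]
          calc |(s : ℝ) - cb (t' / t)| * |(q j : ℝ)| ≤ |(s : ℝ) - cb (t' / t)| * M := by
                gcongr
                exact hM j
            _ < ε / M * M := by gcongr
            _ = ε := by field_simp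
    · have hS' : c' none + ∑ j, c' (some j) * u' j ^ 3 = 0 := hS
      intro ε hε
      refine dich hT ?_ hε
      rw [Finset.sum_congr rfl fun j _ => hterm j, Fintype.sum_option]
      simp only [hat, Option.elim, one_pow, mul_one]
      exact hS'

end Pool.Agent.J4H71.CB
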