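import Pool.Agent.J4H71.CB.FibC
import Pool.Agent.J4H71.NF.Var

/-!
# Bundles of sums of cubic forms (helper71)
-/

set_option autoImplicit false
set_option linter.unusedSectionVars false

namespace Pool.Agent.J4H71.CB

open Set Filter Topology Pool.Agent.J4H71.PC Pool.Agent.H581R2 Pool.Agent.TH729.SQ
  Pool.Agent.J4H71.SC

section prin

variable {ι Λ : Type} {κ R : ι → Type} {m : Λ → ℕ} {d : ∀ l, Fin (m l) → ℕ} [Fintype ι] [Fintype Λ]
  [∀ i, Fintype (κ i)] [∀ i, Fintype (R i)]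

/-- the rational points -/
def Pts (h : ∀ i, R i → MvPolynomial (κ i) ℚ) (N : ∀ i, Set (κ i → ℚ)) (T : Set (∀ i, R i → ℚ))
    (a : ∀ l, Option (Fin (m l)) → ℚ) (e : ∀ l, Option (Fin (m l)) → ∀ i, R i → ℕ)
    (H : ∀ l (j : Fin (m l)), MvPolynomial (Fin (d l j)) ℚ)
    (M : ∀ l (j : Fin (m l)), Set (Fin (d l j) → ℚ)) :
    Set ((Σ i, κ i) ⊕ (Σ l, Σ j : Fin (m l), Fin (d l j)) → ℚ) :=
  {w | (∀ i, (fun k => w (Sum.inl ⟨i, k⟩)) ∈ N i) ∧
    (vq h fun i k => w (Sum.inl ⟨i, k⟩)) ∈ T ∧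
    ∀ l, (∀ j, (fun k => w (Sum.inr ⟨l, j, k⟩)) ∈ M l j) ∧
      cof a e l none (vq h fun i k => w (Sum.inl ⟨i, k⟩)) +
      ∑ j, cof a e l (some j) (vq h fun i k => w (Sum.inl ⟨i, k⟩)) *
        MvPolynomial.eval (fun k => w (Sum.inr ⟨l, j, k⟩)) (H l j) = 0}

/-- the variables of the blocks -/
def Kv (κ : ι → Type) (d : ∀ l, Fin (m l) → ℕ) : (ι ⊕ Σ l, Fin (m l)) → Type
  | Sum.inl i => κ i
  | Sum.inr x => Fin (d x.1 x.2)

instance fKv : ∀ i, Fintype (Kv κ d i)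
  | Sum.inl i => inferInstanceAs (Fintype (κ i))
  | Sum.inr x => inferInstanceAs (Fintype (Fin (d x.1 x.2)))

/-- the functions of the blocks -/
def Rv (m : Λ → ℕ) (R : ι → Type) : (ι ⊕ Σ l, Fin (m l)) → Type
  | Sum.inl i => R i
  | Sum.inr _ => Unit

instance fRv : ∀ i, Fintype (Rv m R i)
  | Sum.inl i => inferInstanceAs (Fintype (R i))
  | Sum.inr _ => inferInstanceAs (Fintype Unit)

/-- the exponents -/
def nv (n : ∀ i, R i → ℕ) : ∀ i : ι ⊕ Σ l, Fin (m l), Rv m R i → ℕ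
  | Sum.inl i => n i
  | Sum.inr _ => fun _ => 3

/-- the functions -/
noncomputable def hv (h : ∀ i, R i → MvPolynomial (κ i) ℚ)
    (H : ∀ l (j : Fin (m l)), MvPolynomial (Fin (d l j)) ℚ) :
    ∀ i : ι ⊕ Σ l, Fin (m l), Rv m R i → MvPolynomial (Kv κ d i) ℚ
  | Sum.inl i => h i
  | Sum.inr x => fun _ => H x.1 x.2

/-- the points -/
def Nv (N : ∀ i, Set (κ i → ℚ)) (M : ∀ l (j : Fin (m l)), Set (Fin (d l j) → ℚ)) :
    ∀ i : ι ⊕ Σ l, Fin (m l), Set (Kv κ d i → ℚ)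
  | Sum.inl i => N i
  | Sum.inr x => M x.1 x.2

open Classical in
/-- the exponents of the coefficients -/
noncomputable def ev (e : ∀ l, Option (Fin (m l)) → ∀ i, R i → ℕ) :
    ∀ l, Option (Fin (m l)) → ∀ i : ι ⊕ Σ l, Fin (m l), Rv m R i → ℕ := fun l j i =>
  match i with
  | Sum.inl i => e l j i
  | Sum.inr x => fun _ => if (⟨x.1, some x.2⟩ : Σ l, Option (Fin (m l))) = ⟨l, j⟩ then 1 else 0

lemma cof_none (a : ∀ l, Option (Fin (m l)) → ℚ) (e : ∀ l, Option (Fin (m l)) → ∀ i, R i → ℕ)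
    (l : Λ) (g : ∀ i : ι ⊕ Σ l, Fin (m l), Rv m R i → ℚ) :
    cof a (ev e) l none g = cof a e l none fun i => g (Sum.inl i) := by
  classical
  unfold cof
  rw [Fintype.prod_sum_type]
  have h1 : ∏ x : Σ l, Fin (m l), ∏ r, g (Sum.inr x) r ^ ev e l none (Sum.inr x) r = 1 := by
    refine Finset.prod_eq_one fun x _ => Finset.prod_eq_one fun r _ => ?_
    have : ev e l none (Sum.inr x) r = 0 := by
      change (if (⟨x.1, some x.2⟩ : Σ l, Option (Fin (m l))) = ⟨l, none⟩ then 1 else 0) = 0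
      rw [if_neg]
      intro h
      rcases x with ⟨l', j'⟩
      cases h
    rw [this, pow_zero]
  rw [h1, mul_one]
  rfl

lemma cof_some (a : ∀ l, Option (Fin (m l)) → ℚ) (e : ∀ l, Option (Fin (m l)) → ∀ i, R i → ℕ)
    (l : Λ) (j : Fin (m l)) (g : ∀ i : ι ⊕ Σ l, Fin (m l), Rv m R i → ℚ) :
    cof a (ev e) l (some j) g = (cof a e l (some j) fun i => g (Sum.inl i)) *
      g (Sum.inr ⟨l, j⟩) () := by
  classical
  unfold cof
  rw [Fintype.prod_sum_type]
  have h1 : ∏ x : Σ l, Fin (m l), ∏ r, g (Sum.inr x) r ^ ev e l (some j) (Sum.inr x) r =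
      g (Sum.inr ⟨l, j⟩) () := by
    rw [Finset.prod_eq_single ⟨l, j⟩]
    · have e1 : ∀ r, ev e l (some j) (Sum.inr ⟨l, j⟩) r = 1 := fun r => if_pos rfl
      rw [Finset.prod_congr rfl fun r _ => by rw [e1 r, pow_one]]
      exact Fintype.prod_unique (fun r : Unit => g (Sum.inr ⟨l, j⟩) r)
    · intro x _ hx
      refine Finset.prod_eq_one fun r _ => ?_
      have : ev e l (some j) (Sum.inr x) r = 0 := by
        change (if (⟨x.1, some x.2⟩ : Σ l, Option (Fin (m l))) = ⟨l, some j⟩ then 1 else 0) = 0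
        rw [if_neg]
        intro h
        rcases x with ⟨l', j'⟩
        cases h
        exact hx rfl
      rw [this, pow_zero]
    · intro h
      exact absurd (Finset.mem_univ _) h
  rw [h1, mul_assoc]
  rfl

variable {h : ∀ i, R i → MvPolynomial (κ i) ℚ} {N : ∀ i, Set (κ i → ℚ)}
  {T : Set (∀ i, R i → ℚ)} {n : ∀ i, R i → ℕ}

/-- the polynomials of the map -/
noncomputable def pv : (Σ i, κ i) ⊕ (Σ l, Σ j : Fin (m l), Fin (d l j)) →
    MvPolynomial (((Σ i, Kv κ d i) ⊕ (Σ l, Fin (m l))) ⊕ Empty) ℚ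
  | Sum.inl x => MvPolynomial.X (Sum.inl (Sum.inl ⟨Sum.inl x.1, x.2⟩))
  | Sum.inr x => MvPolynomial.X (Sum.inl (Sum.inr ⟨x.1, x.2.1⟩)) *
      MvPolynomial.X (Sum.inl (Sum.inl ⟨Sum.inr ⟨x.1, x.2.1⟩, x.2.2⟩))

/-- **The principle for sums of cubic forms.** -/
theorem prin3 (hA : ∀ i, Adm (n i) (h i) (N i)) (hT : Sat n T) (a : ∀ l, Option (Fin (m l)) → ℚ)
    (e : ∀ l, Option (Fin (m l)) → ∀ i, R i → ℕ) (hs : ∀ l j i r, 3 ∣ n i r * e l j i r)
    {H : ∀ l (j : Fin (m l)), MvPolynomial (Fin (d l j)) ℚ}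
    {M : ∀ l (j : Fin (m l)), Set (Fin (d l j) → ℚ)}
    (hM : ∀ l j (r : ℚ), ∀ u ∈ M l j, (fun k => r * u k) ∈ M l j)
    (hH : ∀ l j (r : ℚ) (u : Fin (d l j) → ℚ),
      MvPolynomial.eval (fun k => r * u k) (H l j) = r ^ 3 * MvPolynomial.eval u (H l j))
    (hMA : ∀ l j, Adm (fun _ : Unit => 3) (fun _ => H l j) (M l j)) :
    SA (closure (rl (Pts h N T a e H M))) := by
  classical
  set T' : Set (∀ i : ι ⊕ Σ l, Fin (m l), Rv m R i → ℚ) := {g | (fun i => g (Sum.inl i)) ∈ T} with hT'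
  have h1 := Tot_SA (ι := ι ⊕ Σ l, Fin (m l)) (Λ := Λ) (κ := Kv κ d) (R := Rv m R)
    (ν := fun l => Option (Fin (m l))) (μ := fun l => Fin (m l)) (n := nv n) (s := fun _ => 3)
    (h := hv h H) (N := Nv N M) (T := T')
    (by
      rintro (i | x)
      · exact hA i
      · exact hMA x.1 x.2)
    (by
      intro g hg g' hgg
      exact hT _ hg _ fun i r => hgg (Sum.inl i) r)
    a (ev e) (by
      rintro l j (i | x) r
      · exact hs l j i r
      · exact dvd_mul_right _ _) (Φ := fun l => Aff (μ := Fin (m l)) 3) (Sh := fun l => ShC)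
    (fun l => fib_cube)
  have h2 := SA_image (κ := Empty) h1 pv 1
  convert h2 using 3
  ext w
  constructor
  · rintro ⟨hw1, hw2, hw3⟩
    let x : (Σ i, Kv κ d i) ⊕ (Σ l, Fin (m l)) → ℚ := fun t =>
      match t with
      | Sum.inl ⟨Sum.inl i, k⟩ => w (Sum.inl ⟨i, k⟩)
      | Sum.inl ⟨Sum.inr y, k⟩ => w (Sum.inr ⟨y.1, y.2, k⟩)
      | Sum.inr _ => 1
    refine ⟨x, fun e => e.elim, ⟨?_, ?_, ?_⟩, ?_, ?_⟩
    · rintro (i | y)
      · exact hw1 i
      · exact (hw3 y.1).1 y.2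
    · exact hw2
    · intro l
      change cof a (ev e) l none (vq (hv h H) (xs x)) + ∑ j, cof a (ev e) l (some j)
        (vq (hv h H) (xs x)) * x (Sum.inr ⟨l, j⟩) ^ 3 = 0
      rw [cof_none]
      simp only [cof_some]
      have := (hw3 l).2
      rw [← this]
      congr 1
      refine Finset.sum_congr rfl fun j _ => ?_
      change _ * _ * (1 : ℚ) ^ 3 = _
      rw [one_pow, mul_one]
      rfl
    · simp
    · rintro (y | y)
      · simp only [pv, MvPolynomial.eval_X, Sum.elim_inl, map_one, div_one]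
        rfl
      · simp only [pv, map_mul, MvPolynomial.eval_X, Sum.elim_inl, map_one, div_one]
        change _ = 1 * _
        rw [one_mul]
  · rintro ⟨x, u, ⟨hx1, hx2, hx3⟩, -, hy⟩
    have hyl : ∀ i k, w (Sum.inl ⟨i, k⟩) = x (Sum.inl ⟨Sum.inl i, k⟩) := by
      intro i k
      rw [hy]
      simp [pv]
    have hyr : ∀ l j k, w (Sum.inr ⟨l, j, k⟩) = x (Sum.inr ⟨l, j⟩) *
        x (Sum.inl ⟨Sum.inr ⟨l, j⟩, k⟩) := by
      intro l j k
      rw [hy]
      simp [pv]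
    refine ⟨fun i => ?_, ?_, fun l => ⟨fun j => ?_, ?_⟩⟩
    · simp only [hyl]
      exact hx1 (Sum.inl i)
    · simp only [hyl]
      exact hx2
    · simp only [hyr]
      exact hM l j _ _ (hx1 (Sum.inr ⟨l, j⟩))
    · have h3 : cof a (ev e) l none (vq (hv h H) (xs x)) + ∑ j, cof a (ev e) l (some j)
        (vq (hv h H) (xs x)) * x (Sum.inr ⟨l, j⟩) ^ 3 = 0 := hx3 l
      rw [cof_none] at h3
      simp only [cof_some] at h3
      rw [← h3]
      simp only [hyl, hyr, hH]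
      congr 1
      refine Finset.sum_congr rfl fun j _ => ?_
      change _ * (_ * MvPolynomial.eval (fun k => x (Sum.inl ⟨Sum.inr ⟨l, j⟩, k⟩)) (H l j)) =
        _ * MvPolynomial.eval (fun k => x (Sum.inl ⟨Sum.inr ⟨l, j⟩, k⟩)) (H l j) * _
      have e1 : (vq h fun i k => x (Sum.inl ⟨Sum.inl i, k⟩)) =
        fun i => vq (hv h H) (xs x) (Sum.inl i) := rfl
      rw [e1]
      ring

end prin

section affine

variable {ι Λ : Type} [Fintype ι] [Fintype Λ] {m : Λ → ℕ} {d : ∀ l, Fin (m l) → ℕ}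

/-- the rational points of the affine variety; the polynomials `A l none i` are
the factors of the constant term, and `A l (some j) i` the factors of the coefficient of
`H l j` -/
def VarC (H : ∀ l (j : Fin (m l)), MvPolynomial (Fin (d l j)) ℚ)
    (A : ∀ l : Λ, Option (Fin (m l)) → ι → Polynomial ℚ) :
    Set ((ι ⊕ Σ l, Σ j : Fin (m l), Fin (d l j)) → ℚ) :=
  {w | ∀ l, (∏ i, (A l none i).eval (w (Sum.inl i))) +
    ∑ j, (∏ i, (A l (some j) i).eval (w (Sum.inl i))) *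
      MvPolynomial.eval (fun k => w (Sum.inr ⟨l, j, k⟩)) (H l j) = 0}

/-- the version with the other index type -/
def VarC' (H : ∀ l (j : Fin (m l)), MvPolynomial (Fin (d l j)) ℚ)
    (A : ∀ l : Λ, Option (Fin (m l)) → ι → Polynomial ℚ) :
    Set (((Σ _ : ι, Fin 1) ⊕ Σ l, Σ j : Fin (m l), Fin (d l j)) → ℚ) :=
  {w | ∀ l, (∏ i, (A l none i).eval (w (Sum.inl ⟨i, 0⟩))) +
    ∑ j, (∏ i, (A l (some j) i).eval (w (Sum.inl ⟨i, 0⟩))) *
      MvPolynomial.eval (fun k => w (Sum.inr ⟨l, j, k⟩)) (H l j) = 0}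

lemma VarC'_SA {H : ∀ l (j : Fin (m l)), MvPolynomial (Fin (d l j)) ℚ}
    (hH : ∀ l j (r : ℚ) (u : Fin (d l j) → ℚ),
      MvPolynomial.eval (fun k => r * u k) (H l j) = r ^ 3 * MvPolynomial.eval u (H l j))
    (hMA : ∀ l j, Adm (fun _ : Unit => 3) (fun _ => H l j) univ)
    (A : ∀ l : Λ, Option (Fin (m l)) → ι → Polynomial ℚ)
    (hA : ∀ i, LGf (fun _ : Σ l : Λ, Option (Fin (m l)) => 3) (fun r => A r.1 r.2 i)) :
    SA (closure (rl (VarC' H A))) := by
  classical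
  have h := prin3 (ι := ι) (Λ := Λ) (κ := fun _ => Fin 1)
    (R := fun _ => Σ l : Λ, Option (Fin (m l))) (n := fun _ _ => 3)
    (h := fun i r => one (A r.1 r.2 i)) (N := fun _ => univ) (T := univ)
    (fun i => (hA i).adm) (fun _ _ _ _ => mem_univ _)
    (fun _ _ => 1) (fun l j _ r => if r = ⟨l, j⟩ then 1 else 0)
    (fun _ _ _ _ => dvd_mul_right _ _) (H := H) (M := fun _ _ => univ)
    (fun _ _ _ _ _ => mem_univ _) hH hMA
  convert h using 3
  ext w
  simp only [VarC', Pts, mem_univ, implies_true, true_and, Set.mem_ofPred_eq]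
  refine forall_congr' fun l => ?_
  have e : ∀ j, cof (fun _ _ => 1) (fun l j _ r => if r = ⟨l, j⟩ then 1 else 0) l j
      (vq (fun i (r : Σ l : Λ, Option (Fin (m l))) => one (A r.1 r.2 i))
        fun i k => w (Sum.inl ⟨i, k⟩)) = ∏ i, (A l j i).eval (w (Sum.inl ⟨i, 0⟩)) := by
    intro j
    rw [cof, one_mul]
    refine Finset.prod_congr rfl fun i _ => ?_
    rw [Finset.prod_eq_single ⟨l, j⟩]
    · simp only [if_true, pow_one]
      exact one_eval _ _
    · intro r _ hr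
      rw [if_neg hr, pow_zero]
    · intro h
      exact absurd (Finset.mem_univ _) h
  simp only [e]

/-- **Affine varieties over products of lines.** -/
theorem VarC_SA {H : ∀ l (j : Fin (m l)), MvPolynomial (Fin (d l j)) ℚ}
    (hH : ∀ l j (r : ℚ) (u : Fin (d l j) → ℚ),
      MvPolynomial.eval (fun k => r * u k) (H l j) = r ^ 3 * MvPolynomial.eval u (H l j))
    (hMA : ∀ l j, Adm (fun _ : Unit => 3) (fun _ => H l j) univ)
    (A : ∀ l : Λ, Option (Fin (m l)) → ι → Polynomial ℚ)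
    (hA : ∀ i, LGf (fun _ : Σ l : Λ, Option (Fin (m l)) => 3) (fun r => A r.1 r.2 i)) :
    SA (closure (rl (VarC H A))) := by
  classical
  have h := SA_image (κ := Empty) (VarC'_SA hH hMA A hA)
    (fun t : ι ⊕ Σ l, Σ j : Fin (m l), Fin (d l j) =>
      MvPolynomial.X (Sum.inl (Sum.map (fun i => ⟨i, 0⟩) id t))) 1
  convert h using 3
  ext w
  constructor
  · intro hw
    refine ⟨Sum.elim (fun x => w (Sum.inl x.1)) (fun x => w (Sum.inr x)), fun e => e.elim, hw, ?_, ?_⟩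
    · simp
    · rintro (i | s)
      · simp
      · simp
  · rintro ⟨x, u, hx, -, hy⟩
    have : w = fun t => x (Sum.map (fun i => ⟨i, 0⟩) id t) := by
      funext t
      rw [hy]
      simp
    rw [this]
    exact hx

end affine

section norm

/-- cubic norm forms, and cubes of norm forms of degree one -/
theorem norm_cubic {m : ℕ} {K : Type} [Field K] [Algebra ℚ K] (b : Module.Basis (Fin m) ℚ K)
    {e : ℕ} (he : m * e = 3) {H : MvPolynomial (Fin m) ℚ}
    (hH : ∀ u : Fin m → ℚ, MvPolynomial.eval u H = Algebra.norm ℚ (∑ k, u k • b k) ^ e) :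
    (∀ (r : ℚ) (u : Fin m → ℚ),
      MvPolynomial.eval (fun k => r * u k) H = r ^ 3 * MvPolynomial.eval u H) ∧
    Adm (fun _ : Unit => 3) (fun _ => H) univ := by
  have h1 : H = NF.normPoly b ^ e := MvPolynomial.funext fun u => by
    rw [hH, map_pow, NF.normPoly_eval]
    rfl
  constructor
  · intro r u
    rw [h1, map_pow, map_pow, NF.norm_smul, mul_pow, Fintype.card_fin, ← pow_mul, he]
  · rw [h1]
    refine NF.norm_adm (R := Unit) b (fun _ => three_ne_zero) fun _ => ?_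
    rintro rfl
    simp at he

end norm

end Pool.Agent.J4H71.CB
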