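import Pool.Agent.J4H71.CB.Sl
import Pool.Agent.J4H71.CB.Var

/-!
# Affine varieties (helper71)
-/

set_option autoImplicit false
set_option linter.unusedSectionVars false

namespace Pool.Agent.J4H71.CB

open Set Filter Topology Pool.Agent.J4H71.PC Pool.Agent.H581R2 Pool.Agent.TH729.SQ
  Pool.Agent.J4H71.SC

variable {ι θ Λ : Type} [Fintype ι] [Fintype θ] [Fintype Λ] {D : θ → ℕ} {m : Λ → ℕ}
  {d : ∀ l, Fin (m l) → ℕ}

/-- the coefficients -/
noncomputable def coD (a : ∀ l, Option (Fin (m l)) → ℚ)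
    (A : ∀ l : Λ, Option (Fin (m l)) → ι → Polynomial ℚ)
    (f : ∀ i, MvPolynomial (Fin (D i)) ℚ) (e : ∀ l, Option (Fin (m l)) → θ → ℕ)
    (l : Λ) (j : Option (Fin (m l)))
    (w : (ι ⊕ (Σ i, Fin (D i)) ⊕ (Σ l, Σ j : Fin (m l), Fin (d l j))) → ℚ) : ℚ :=
  a l j * (∏ i, (A l j i).eval (w (Sum.inl i))) *
    ∏ i, MvPolynomial.eval (fun c => w (Sum.inr (Sum.inl ⟨i, c⟩))) (f i) ^ e l j i

/-- the rational points of the affine variety -/
def VarD (a : ∀ l, Option (Fin (m l)) → ℚ)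
    (A : ∀ l : Λ, Option (Fin (m l)) → ι → Polynomial ℚ)
    (f : ∀ i, MvPolynomial (Fin (D i)) ℚ) (e : ∀ l, Option (Fin (m l)) → θ → ℕ)
    (H : ∀ l (j : Fin (m l)), MvPolynomial (Fin (d l j)) ℚ) :
    Set ((ι ⊕ (Σ i, Fin (D i)) ⊕ (Σ l, Σ j : Fin (m l), Fin (d l j))) → ℚ) :=
  {w | ∀ l, coD a A f e l none w + ∑ j, coD a A f e l (some j) w *
    MvPolynomial.eval (fun c => w (Sum.inr (Sum.inr ⟨l, j, c⟩))) (H l j) = 0}

/-- the variables of the blocks -/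
def Kb (ι : Type) (D : θ → ℕ) : (ι ⊕ θ) → Type
  | Sum.inl _ => Fin 1
  | Sum.inr i => Fin (D i)

instance fKb : ∀ i, Fintype (Kb ι D i)
  | Sum.inl _ => inferInstanceAs (Fintype (Fin 1))
  | Sum.inr i => inferInstanceAs (Fintype (Fin (D i)))

/-- the functions of the blocks -/
def Rb (ι θ : Type) (m : Λ → ℕ) : (ι ⊕ θ) → Type
  | Sum.inl _ => Σ l : Λ, Option (Fin (m l))
  | Sum.inr _ => Unit

instance fRb : ∀ i, Fintype (Rb ι θ m i)
  | Sum.inl _ => inferInstanceAs (Fintype (Σ l : Λ, Option (Fin (m l))))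
  | Sum.inr _ => inferInstanceAs (Fintype Unit)

/-- the functions -/
noncomputable def hb' (A : ∀ l : Λ, Option (Fin (m l)) → ι → Polynomial ℚ)
    (f : ∀ i, MvPolynomial (Fin (D i)) ℚ) :
    ∀ i : ι ⊕ θ, Rb ι θ m i → MvPolynomial (Kb ι D i) ℚ
  | Sum.inl i => fun r => one (A r.1 r.2 i)
  | Sum.inr i => fun _ => f i

open Classical in
/-- the exponents -/
noncomputable def eb (e : ∀ l, Option (Fin (m l)) → θ → ℕ) :
    ∀ l, Option (Fin (m l)) → ∀ i : ι ⊕ θ, Rb ι θ m i → ℕ := fun l j i =>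
  match i with
  | Sum.inl _ => fun r => if r = (⟨l, j⟩ : Σ l : Λ, Option (Fin (m l))) then 1 else 0
  | Sum.inr i => fun _ => e l j i

/-- the map of the indices -/
def ib : (ι ⊕ (Σ i, Fin (D i)) ⊕ (Σ l, Σ j : Fin (m l), Fin (d l j))) →
    ((Σ i : ι ⊕ θ, Kb ι D i) ⊕ (Σ l, Σ j : Fin (m l), Fin (d l j)))
  | Sum.inl i => Sum.inl ⟨Sum.inl i, (0 : Fin 1)⟩
  | Sum.inr (Sum.inl x) => Sum.inl ⟨Sum.inr x.1, x.2⟩
  | Sum.inr (Sum.inr x) => Sum.inr x

/-- the inverse map of the indices -/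
def jb : ((Σ i : ι ⊕ θ, Kb ι D i) ⊕ (Σ l, Σ j : Fin (m l), Fin (d l j))) →
    (ι ⊕ (Σ i, Fin (D i)) ⊕ (Σ l, Σ j : Fin (m l), Fin (d l j)))
  | Sum.inl ⟨Sum.inl i, _⟩ => Sum.inl i
  | Sum.inl ⟨Sum.inr i, c⟩ => Sum.inr (Sum.inl ⟨i, c⟩)
  | Sum.inr x => Sum.inr (Sum.inr x)

lemma cof_b (a : ∀ l, Option (Fin (m l)) → ℚ)
    (A : ∀ l : Λ, Option (Fin (m l)) → ι → Polynomial ℚ)
    (f : ∀ i, MvPolynomial (Fin (D i)) ℚ) (e : ∀ l, Option (Fin (m l)) → θ → ℕ)
    (l : Λ) (j : Option (Fin (m l)))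
    (x : (Σ i : ι ⊕ θ, Kb ι D i) ⊕ (Σ l, Σ j : Fin (m l), Fin (d l j)) → ℚ) :
    cof a (eb e) l j (vq (hb' A f) fun i k => x (Sum.inl ⟨i, k⟩)) =
      coD a A f e l j (fun t => x (ib t)) := by
  classical
  unfold cof coD
  rw [Fintype.prod_sum_type, mul_assoc]
  congr 1
  congr 1
  · refine Finset.prod_congr rfl fun i _ => ?_
    have h1 := Finset.prod_eq_single (s := Finset.univ)
      (f := fun r : Σ l : Λ, Option (Fin (m l)) =>
        (A r.1 r.2 i).eval (x (Sum.inl ⟨Sum.inl i, (0 : Fin 1)⟩)) ^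
          (if r = (⟨l, j⟩ : Σ l : Λ, Option (Fin (m l))) then 1 else 0)) ⟨l, j⟩
      (fun r _ hr => by beta_reduce; rw [if_neg hr, pow_zero])
      (fun h => absurd (Finset.mem_univ _) h)
    beta_reduce at h1
    rw [if_pos rfl, pow_one] at h1
    refine Eq.trans ?_ h1
    refine Finset.prod_congr rfl fun r _ => ?_
    refine congrArg₂ (· ^ ·) (one_eval _ _) ?_
    by_cases h : r = (⟨l, j⟩ : Σ l : Λ, Option (Fin (m l)))
    · exact Eq.trans (b := 1) (if_pos h) (if_pos h).symm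
    · exact Eq.trans (b := 0) (if_neg h) (if_neg h).symm
  · refine Finset.prod_congr rfl fun i _ => ?_
    exact Fintype.prod_unique (fun r : Unit => MvPolynomial.eval
      (fun c : Fin (D i) => x (Sum.inl ⟨Sum.inr i, c⟩)) (f i) ^ e l j i)

/-- **All rational points.** -/
theorem VarD_SA (a : ∀ l, Option (Fin (m l)) → ℚ)
    (A : ∀ l : Λ, Option (Fin (m l)) → ι → Polynomial ℚ)
    (hA : ∀ i, LGf (fun _ : Σ l : Λ, Option (Fin (m l)) => 3) (fun r => A r.1 r.2 i))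
    (f : ∀ i, MvPolynomial (Fin (D i)) ℚ) (hf : ∀ i, (f i).totalDegree ≤ 3)
    (e : ∀ l, Option (Fin (m l)) → θ → ℕ)
    (H : ∀ l (j : Fin (m l)), MvPolynomial (Fin (d l j)) ℚ)
    (hH : ∀ l j, (H l j).IsHomogeneous 3) : SA (closure (rl (VarD a A f e H))) := by
  classical
  have hsc : ∀ l j (r : ℚ) (u : Fin (d l j) → ℚ),
      MvPolynomial.eval (fun k => r * u k) (H l j) = r ^ 3 * MvPolynomial.eval u (H l j) := by
    intro l j r u
    obtain ⟨b, -, hb⟩ := exists_tri (hH l j)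
    rw [hb, hb]
    exact cub_smul r u
  have h1 := prin3 (ι := ι ⊕ θ) (Λ := Λ) (κ := Kb ι D) (R := Rb ι θ m) (n := fun _ _ => 3)
    (h := hb' A f) (N := fun _ => univ) (T := univ)
    (by
      rintro (i | i)
      · exact (hA i).adm
      · exact adm_poly (hf i))
    (fun _ _ _ _ => mem_univ _) a (eb e) (fun _ _ _ _ => dvd_mul_right _ _) (H := H)
    (M := fun _ _ => univ) (fun _ _ _ _ _ => mem_univ _) hsc
    (fun l j => adm_poly ((hH l j).totalDegree_le))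
  have h2 := SA_image (κ := Empty) h1
    (fun t : ι ⊕ (Σ i, Fin (D i)) ⊕ (Σ l, Σ j : Fin (m l), Fin (d l j)) =>
      MvPolynomial.X (Sum.inl (ib t))) 1
  convert h2 using 3
  ext w
  constructor
  · intro hw
    have e1 : (fun t => w (jb (ib t : (Σ i : ι ⊕ θ, Kb ι D i) ⊕
        (Σ l, Σ j : Fin (m l), Fin (d l j))))) = w := by
      funext t
      rcases t with i | x | x <;> rfl
    refine ⟨fun t => w (jb t), fun e => e.elim, ⟨fun _ => mem_univ _, mem_univ _, fun l =>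
      ⟨fun _ => mem_univ _, ?_⟩⟩, by simp, fun t => ?_⟩
    · rw [cof_b a A f e l none (fun t => w (jb t)), e1]
      simp only [cof_b a A f e l _ (fun t => w (jb t)), e1]
      exact hw l
    · simp only [MvPolynomial.eval_X, Sum.elim_inl, map_one, div_one]
      exact (congrFun e1 t).symm
  · rintro ⟨x, u, ⟨-, -, hx⟩, -, hy⟩
    have e1 : w = fun t => x (ib t) := by
      funext t
      rw [hy]
      simp
    intro l
    have h3 := (hx l).2
    rw [cof_b a A f e l none x] at h3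
    simp only [cof_b a A f e l _ x] at h3
    rw [e1]
    exact h3

end Pool.Agent.J4H71.CB
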