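import Pool.Agent.J4H71.CB.Cov

/-!
# Cubic forms are admissible (helper71)
-/

set_option autoImplicit false
set_option linter.unusedSectionVars false

namespace Pool.Agent.J4H71.CB

open Set Filter Topology Pool.Agent.J4H71.PC Pool.Agent.H581R2 Pool.Agent.TH729.SQ

variable {κ : Type} [Fintype κ] {b : κ → κ → κ → ℚ} {V : Submodule ℚ (κ → ℚ)}

/-- the Hessian of a binary form -/
def pH (f g h t : ℚ) : ℚ := f * h * t ^ 2 + f * g * t - h ^ 2

/-- the cubic covariant of a binary form -/
def pG (f g h t : ℚ) : ℚ :=
  (f * g ^ 2 + 2 * h ^ 3) + 3 * f * g * h * t + 6 * f * h ^ 2 * t ^ 2 - f ^ 2 * g * t ^ 3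

lemma pG_ne {f g h : ℚ} (hf : f ≠ 0) (hD : f * g ^ 2 + 4 * h ^ 3 ≠ 0)
    (H : ∀ t, pG f g h t = 0) : False := by
  unfold pG at H
  have k0 := H 0
  have k1 := H 1
  have k2 := H (-1)
  have k3 := H 2
  have e3 : f ^ 2 * g = 0 := by linear_combination (-k3 + 3 * k1 - 3 * k0 + k2) / 6
  have hg : g = 0 := by
    rcases mul_eq_zero.1 e3 with h1 | h1
    · exact absurd (pow_eq_zero_iff two_ne_zero |>.1 h1) hf
    · exact h1
  have e0 : h ^ 3 = 0 := by
    rw [hg] at k0
    linarith
  apply hD
  rw [hg, e0]
  ring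

lemma pHG_ne {f g h r : ℚ} (hf : f ≠ 0) (hD : f * g ^ 2 + 4 * h ^ 3 ≠ 0)
    (H : ∀ t, 4 * pH f g h t ^ 3 + r * pG f g h t ^ 2 = 0) : False := by
  have k0 := H 0
  have k1 := H 1
  have k2 := H (-1)
  have k3 := H 2
  have k4 := H (-2)
  have k5 := H 3
  have k6 := H (-3)
  unfold pH pG at k0 k1 k2 k3 k4 k5 k6
  have c0 : -4 * h ^ 6 + r * (f * g ^ 2 + 2 * h ^ 3) ^ 2 = 0 := by linear_combination k0
  have c1 : f * g * h * (12 * h ^ 3 + 6 * r * (f * g ^ 2 + 2 * h ^ 3)) = 0 := by
    linear_combination 3/4*k1 - 3/4*k2 - 3/20*k3 + 3/20*k4 + 1/60*k5 - 1/60*k6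
  have c6 : f ^ 3 * (4 * h ^ 3 + r * (f * g ^ 2)) = 0 := by
    linear_combination -1/36*k0 + 1/48*k1 + 1/48*k2 - 1/120*k3 - 1/120*k4 + 1/720*k5 + 1/720*k6
  have c6' : 4 * h ^ 3 + r * (f * g ^ 2) = 0 := by
    rcases mul_eq_zero.1 c6 with h1 | h1
    · exact absurd (pow_eq_zero_iff three_ne_zero |>.1 h1) hf
    · exact h1
  have e1 : h ^ 3 * ((f * g ^ 2 + h ^ 3) * (f * g ^ 2 + 4 * h ^ 3)) = 0 := by
    linear_combination (-(f * g ^ 2) * c0 + (f * g ^ 2 + 2 * h ^ 3) ^ 2 * c6') / 4
  rcases mul_eq_zero.1 e1 with h1 | h1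
  · have hh : h = 0 := pow_eq_zero_iff three_ne_zero |>.1 h1
    rw [hh] at hD c6' k1
    have hX : f * g ^ 2 ≠ 0 := by
      intro h0
      apply hD
      rw [h0]
      ring
    have hr : r = 0 := by
      have : r * (f * g ^ 2) = 0 := by linear_combination c6'
      exact (mul_eq_zero.1 this).resolve_right hX
    rw [hr] at k1
    have : (f * g) ^ 3 = 0 := by linear_combination k1 / 4
    have h2 := pow_eq_zero_iff three_ne_zero |>.1 this
    apply hX
    have : f * g ^ 2 = f * g * g := by ring
    rw [this, h2, zero_mul]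
  · rcases mul_eq_zero.1 h1 with h2 | h2
    · have hY : h ^ 3 ≠ 0 := by
        intro h0
        apply hD
        have : f * g ^ 2 = 0 := by rw [h0] at h2; linarith
        rw [h0, this]
        ring
      have hX : f * g ^ 2 = -h ^ 3 := by linear_combination h2
      have hr : r = 4 := by
        rw [hX] at c6'
        have : h ^ 3 * (4 - r) = 0 := by linear_combination c6'
        have := (mul_eq_zero.1 this).resolve_left hY
        linarith
      rw [hr, hX] at c1
      have h3 : f * g * h * h ^ 3 = 0 := by linear_combination c1 / 36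
      have h4 : f * g * h ≠ 0 := by
        refine mul_ne_zero ?_ ?_
        · intro h0
          apply hY
          have : h ^ 3 = -(f * g * g) := by linear_combination hX
          rw [this, h0]
          ring
        · rintro rfl
          exact hY (by ring)
      exact (mul_ne_zero h4 hY) h3
    · exact hD h2

/-- proper lines -/
lemma line_lt (hd : 1 < Module.finrank ℚ V) {x : κ → ℚ} (hx : x ∈ V) :
    Submodule.span ℚ {x} < V := by
  have hle : Submodule.span ℚ {x} ≤ V := by
    rw [Submodule.span_singleton_le_iff_mem]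
    exact hx
  refine lt_of_le_of_ne hle fun h0 => ?_
  have h1 : Module.finrank ℚ (Submodule.span ℚ {x}) ≤ 1 :=
    le_trans (finrank_span_le_card {x}) (by simp)
  rw [h0] at h1
  omega

/-- **Planes.** -/
theorem adm_two (hb : Sy b) (hd : Module.finrank ℚ V = 2)
    (IH : ∀ V' : Submodule ℚ (κ → ℚ), V' < V → AdmF b (Nz b V')) {z₀ : κ → ℚ} (hz₀ : z₀ ∈ V)
    (hf : cub b z₀ ≠ 0) : AdmF b (Nz b V) := by
  classical
  obtain ⟨C⟩ := exists_crd V
  -- the second vector
  obtain ⟨w, hw, hw0⟩ : ∃ w ∈ Pl b V z₀ z₀, w ≠ 0 := by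
    obtain ⟨x, hx, hx'⟩ := SetLike.exists_of_lt (line_lt (by omega) hz₀)
    obtain ⟨k, hk, hk'⟩ := pdec hz₀ hf hx
    refine ⟨k, hk, ?_⟩
    rintro rfl
    apply hx'
    rw [hk', add_zero]
    exact Submodule.smul_mem _ _ (Submodule.mem_span_singleton_self z₀)
  have hw1 : tri b z₀ z₀ w = 0 := hw.2
  have hspan : ∀ x ∈ V, ∃ α β : ℚ, x = α • z₀ + β • w := by
    have hli : LinearIndependent ℚ ![z₀, w] := by
      rw [LinearIndependent.pair_iff]
      intro s t hst
      have h1 : tri b z₀ z₀ (s • z₀ + t • w) = 0 := by rw [hst]; simp [tri]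
      rw [tri_add3, tri_smul3, tri_smul3, hw1] at h1
      have hs : s = 0 := by
        have : s * cub b z₀ = 0 := by
          unfold cub
          linear_combination h1
        exact (mul_eq_zero.1 this).resolve_right hf
      rw [hs, zero_smul, zero_add] at hst
      exact ⟨hs, (smul_eq_zero.1 hst).resolve_right hw0⟩
    have hr : Set.range ![z₀, w] = {z₀, w} := by
      ext x
      simp [Matrix.range_cons, Matrix.range_empty, or_comm]
    have h1 := finrank_span_eq_card hli
    rw [hr, Fintype.card_fin] at h1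
    have h2 : Submodule.span ℚ {z₀, w} = V := by
      refine Submodule.eq_of_le_of_finrank_eq ?_ (h1.trans hd.symm)
      rw [Submodule.span_le]
      rintro x (rfl | rfl)
      · exact hz₀
      · exact hw.1
    intro x hx
    rw [← h2, Submodule.mem_span_pair] at hx
    obtain ⟨α, β, h3⟩ := hx
    exact ⟨α, β, h3.symm⟩
  obtain ⟨f, hfd⟩ : ∃ f, f = cub b z₀ := ⟨_, rfl⟩
  obtain ⟨g, hgd⟩ : ∃ g, g = cub b w := ⟨_, rfl⟩
  obtain ⟨h, hhd⟩ : ∃ h, h = tri b z₀ w w := ⟨_, rfl⟩
  have hf' : f ≠ 0 := by rw [hfd]; exact hf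
  by_cases hD : f * g ^ 2 + 4 * h ^ 3 = 0
  · by_cases hh : h = 0
    · have hg : g = 0 := by
        rw [hh] at hD
        have : f * g ^ 2 = 0 := by linear_combination hD
        exact pow_eq_zero_iff two_ne_zero |>.1 ((mul_eq_zero.1 this).resolve_left hf')
      exact adm_sing hb C hz₀ hw.1 hspan (by rw [← hhd, hh]) (by rw [← hgd, hg]) hf
    · have e1 : tri b z₀ ((-g) • z₀ + (2 * h) • w) ((-g) • z₀ + (2 * h) • w) = 0 := by
        simp only [tri_add2, tri_add3, tri_smul2, tri_smul3]
        rw [hw1, hb.t23 z₀ z₀ w, hw1, ← hhd]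
        have : tri b z₀ z₀ z₀ = f := hfd.symm
        rw [this]
        linear_combination hD
      have e2 : cub b ((-g) • z₀ + (2 * h) • w) = 0 := by
        rw [hb.comb, ← hfd, ← hgd, ← hhd, hw1]
        linear_combination -g * hD
      refine adm_sing hb C hz₀ (V.add_mem (V.smul_mem _ hz₀) (V.smul_mem _ hw.1))
        (fun x hx => ?_) e1 e2 hf
      obtain ⟨α, β, rfl⟩ := hspan x hx
      refine ⟨α + β * g / (2 * h), β / (2 * h), ?_⟩
      rw [smul_add, smul_smul, smul_smul, ← add_assoc, ← add_smul]
      congr 2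
      · field_simp
        ring
      · field_simp
  · -- the polynomial
    set PH : Polynomial ℚ := Polynomial.C (f * h) * Polynomial.X ^ 2 +
      Polynomial.C (f * g) * Polynomial.X - Polynomial.C (h ^ 2) with hPH
    set PG : Polynomial ℚ := Polynomial.C (f * g ^ 2 + 2 * h ^ 3) +
      Polynomial.C (3 * f * g * h) * Polynomial.X + Polynomial.C (6 * f * h ^ 2) *
      Polynomial.X ^ 2 - Polynomial.C (f ^ 2 * g) * Polynomial.X ^ 3 with hPG
    have ePH : ∀ t, PH.eval t = pH f g h t := by
      intro t
      simp only [hPH, pH, Polynomial.eval_add, Polynomial.eval_sub, Polynomial.eval_mul,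
        Polynomial.eval_pow, Polynomial.eval_C, Polynomial.eval_X]
    have ePG : ∀ t, PG.eval t = pG f g h t := by
      intro t
      simp only [hPG, pG, Polynomial.eval_add, Polynomial.eval_sub, Polynomial.eval_mul,
        Polynomial.eval_pow, Polynomial.eval_C, Polynomial.eval_X]
    set δ : Polynomial ℚ := PG * ∏ r ∈ UU, (4 * PH ^ 3 + Polynomial.C r * PG ^ 2) with hδ
    have hδ0 : δ ≠ 0 := by
      refine mul_ne_zero ?_ (Finset.prod_ne_zero_iff.2 fun r _ h0 => ?_)
      · intro h0
        refine pG_ne hf' hD fun t => ?_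
        rw [← ePG, h0, Polynomial.eval_zero]
      · refine pHG_ne (r := r) hf' hD fun t => ?_
        have := congrArg (Polynomial.eval t) h0
        simp only [Polynomial.eval_add, Polynomial.eval_mul, Polynomial.eval_pow,
          Polynomial.eval_C, Polynomial.eval_zero, ePH, ePG, Polynomial.eval_ofNat] at this
        exact this
    have key : Nz b V = Nm b V ∪ (Nz b (Submodule.span ℚ {z₀}) ∪
        ⋃ τ : {τ // τ ∈ δ.roots.toFinset}, Nz b (Submodule.span ℚ {w + (τ : ℚ) • z₀})) := by
      ext z
      constructor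
      · rintro ⟨hz, hz0⟩
        by_cases hex : ∃ v ∈ V, dd b z v ≠ 0
        · exact Or.inl ⟨hz, hz0, hex⟩
        right
        push Not at hex
        obtain ⟨α, β, rfl⟩ := hspan z hz
        by_cases hβ : β = 0
        · left
          refine ⟨?_, hz0⟩
          rw [hβ, zero_smul, add_zero]
          exact Submodule.smul_mem _ _ (Submodule.mem_span_singleton_self z₀)
        · right
          rw [mem_iUnion]
          obtain ⟨τ, hτ⟩ : ∃ τ, τ = α / β := ⟨_, rfl⟩
          have hze : α • z₀ + β • w = β • (w + τ • z₀) := by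
            rw [smul_add, smul_smul, hτ, mul_div_cancel₀ _ hβ, add_comm]
          have e1 := hex z₀ hz₀
          rw [hze] at e1
          -- the covariants
          have c0 : cub b (β • (w + τ • z₀)) = β ^ 3 * (g + 3 * τ * h + τ ^ 3 * f) := by
            rw [cub_smul, hb.line, ← hgd, ← hfd]
            have k1 : tri b w w z₀ = h := by rw [hb.t23, hb.t12]; exact hhd.symm
            have k2 : tri b w z₀ z₀ = 0 := by rw [hb.t12, hb.t23]; exact hw1
            rw [k1, k2]
            unfold ev3
            ring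
          have c1 : tri b (β • (w + τ • z₀)) (β • (w + τ • z₀)) z₀ = β ^ 2 * (h + τ ^ 2 * f) := by
            simp only [tri_add1, tri_add2, tri_smul1, tri_smul2]
            have k1 : tri b w w z₀ = h := by rw [hb.t23, hb.t12]; exact hhd.symm
            have k2 : tri b w z₀ z₀ = 0 := by rw [hb.t12, hb.t23]; exact hw1
            have k3 : tri b z₀ w z₀ = 0 := by rw [hb.t23]; exact hw1
            have k4 : tri b z₀ z₀ z₀ = f := hfd.symm
            rw [k1, k2, k3, k4]
            ring
          have c2 : tri b (β • (w + τ • z₀)) z₀ z₀ = β * (τ * f) := by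
            simp only [tri_add1, tri_smul1]
            have k2 : tri b w z₀ z₀ = 0 := by rw [hb.t12, hb.t23]; exact hw1
            have k4 : tri b z₀ z₀ z₀ = f := hfd.symm
            rw [k2, k4]
            ring
          have eH : hh b (β • (w + τ • z₀)) z₀ = β ^ 4 * pH f g h τ := by
            unfold hh H0 pH
            rw [c0, c1, c2]
            ring
          have eG : gg b (β • (w + τ • z₀)) z₀ = β ^ 6 * pG f g h τ := by
            unfold gg G0 pG
            rw [c0, c1, c2, ← hfd]
            ring
          have hroot : τ ∈ δ.roots.toFinset := by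
            rw [Multiset.mem_toFinset, Polynomial.mem_roots hδ0, Polynomial.IsRoot.def, hδ,
              Polynomial.eval_mul, Polynomial.eval_prod]
            unfold dd at e1
            rcases mul_eq_zero.1 e1 with e2 | e2
            · rcases mul_eq_zero.1 e2 with e3 | e3
              · exact absurd e3 hf
              · rw [eG] at e3
                rw [ePG, (mul_eq_zero.1 e3).resolve_left (pow_ne_zero 6 hβ), zero_mul]
            · obtain ⟨r, hr, e3⟩ := Finset.prod_eq_zero_iff.1 e2
              refine mul_eq_zero_of_right _ (Finset.prod_eq_zero hr ?_)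
              simp only [Polynomial.eval_add, Polynomial.eval_mul, Polynomial.eval_pow,
                Polynomial.eval_C, ePH, ePG, Polynomial.eval_ofNat]
              rw [eH, eG] at e3
              have e4 : β ^ 12 * (4 * pH f g h τ ^ 3 + r * pG f g h τ ^ 2) = 0 := by
                have e5 : (algebraMap ℚ ℚ) r = r := rfl
                rw [e5] at e3
                linear_combination e3
              exact (mul_eq_zero.1 e4).resolve_left (pow_ne_zero 12 hβ)
          refine ⟨⟨τ, hroot⟩, ?_, hz0⟩
          rw [hze]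
          exact Submodule.smul_mem _ _ (Submodule.mem_span_singleton_self _)
      · rintro (⟨h1, h2, -⟩ | ⟨h1, h2⟩ | h1)
        · exact ⟨h1, h2⟩
        · exact ⟨(line_lt (by omega) hz₀).le h1, h2⟩
        · obtain ⟨τ, h2, h3⟩ := mem_iUnion.1 h1
          exact ⟨(line_lt (by omega) (V.add_mem hw.1 (V.smul_mem _ hz₀))).le h2, h3⟩
    rw [key]
    refine adm_union (adm_piece (piece_main hb C) (Nm_scl b V)) (adm_union (IH _ (line_lt (by omega) hz₀)) ?_)
    exact adm_iUnion fun τ => IH _ (line_lt (by omega) (V.add_mem hw.1 (V.smul_mem _ hz₀)))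

/-- **All subspaces.** -/
theorem adm_Nz (hb : Sy b) : ∀ (n : ℕ) (V : Submodule ℚ (κ → ℚ)), Module.finrank ℚ V = n →
    AdmF b (Nz b V) := by
  classical
  intro n
  induction n using Nat.strong_induction_on with
  | _ n ih =>
    intro V hV
    have IH : ∀ V' : Submodule ℚ (κ → ℚ), V' < V → AdmF b (Nz b V') := by
      intro V' hV'
      have := Submodule.finrank_lt_finrank_of_lt hV'
      exact ih _ (by omega) V' rfl
    by_cases hex : ∃ z₀ ∈ V, cub b z₀ ≠ 0
    · obtain ⟨z₀, hz₀, hf⟩ := hex
      obtain ⟨C⟩ := exists_crd V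
      rcases Nat.lt_or_ge n 2 with hn | hn
      · -- lines
        have h1 : Module.finrank ℚ V ≤ 1 := by omega
        have hz0 : z₀ ≠ 0 := by
          rintro rfl
          apply hf
          simp [cub, tri]
        have hle : Submodule.span ℚ {z₀} ≤ V := by
          rw [Submodule.span_singleton_le_iff_mem]
          exact hz₀
        have h2 : Submodule.span ℚ {z₀} = V := by
          refine Submodule.eq_of_le_of_finrank_le hle ?_
          rw [finrank_span_singleton hz0]
          exact h1
        refine adm_sing hb C hz₀ V.zero_mem (fun x hx => ?_) (by simp [tri]) (by simp [cub, tri]) hf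
        rw [← h2, Submodule.mem_span_singleton] at hx
        obtain ⟨a, rfl⟩ := hx
        exact ⟨a, 0, by simp⟩
      · rcases Nat.eq_or_lt_of_le hn with hn2 | hn3
        · exact adm_two hb (by omega) IH hz₀ hf
        · have hd : 2 < Module.finrank ℚ V := by omega
          by_cases hcone : ∃ v ∈ V, v ≠ 0 ∧ Vert b V v
          · obtain ⟨v, hv, hv0, hvert⟩ := hcone
            obtain ⟨i, hi⟩ : ∃ i, v i ≠ 0 := by
              by_contra hcon
              push Not at hcon
              exact hv0 (funext hcon)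
            have hV' : ∀ x, x ∈ V ⊓ LinearMap.ker (LinearMap.proj i : (κ → ℚ) →ₗ[ℚ] ℚ) ↔
                x ∈ V ∧ x i = 0 := by
              intro x
              rw [Submodule.mem_inf, LinearMap.mem_ker]
              rfl
            refine adm_cone hb C hv hi hV' hvert (IH _ ?_)
            refine lt_of_le_of_ne inf_le_left fun h0 => ?_
            rw [← h0] at hv
            exact hi ((hV' v).1 hv).2
          · have hnc : ∀ v ∈ V, Vert b V v → v = 0 := by
              intro v hv hv'
              by_contra h0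
              exact hcone ⟨v, hv, h0, hv'⟩
            obtain ⟨V', hV', hcov⟩ := exc_cover hb hd hnc
            have key : Nz b V = Nm b V ∪ ⋃ j, Nz b (V' j) := by
              ext z
              constructor
              · rintro ⟨hz, hz0⟩
                by_cases hex : ∃ w ∈ V, dd b z w ≠ 0
                · exact Or.inl ⟨hz, hz0, hex⟩
                · push Not at hex
                  obtain ⟨j, hj⟩ := hcov z hz hz0 hex
                  exact Or.inr (mem_iUnion.2 ⟨j, hj, hz0⟩)
              · rintro (⟨h1, h2, -⟩ | h1)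
                · exact ⟨h1, h2⟩
                · obtain ⟨j, h2, h3⟩ := mem_iUnion.1 h1
                  exact ⟨(hV' j).le h2, h3⟩
            rw [key]
            exact adm_union (adm_piece (piece_main hb C) (Nm_scl b V)) (adm_iUnion fun j => IH _ (hV' j))
    · have key : Nz b V = ∅ := by
        ext z
        simp only [mem_empty_iff_false, iff_false]
        rintro ⟨h1, h2⟩
        exact hex ⟨z, h1, h2⟩
      rw [key]
      exact adm_empty

end Pool.Agent.J4H71.CB
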