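import Pool.Agent.J4H71.PC.CubB

/-!
# The tangent process on diagonal plane cubics (helper71)

For coprime integers `X + Y + Z = 0` the tangent process maps `(X, Y, Z)` to
`(X (Y - Z)³, Y (Z - X)³, Z (X - Y)³)`, up to a factor `27`; the product `|X Y Z|` of the coprime
integers strictly increases.
-/

set_option autoImplicit false

namespace Pool.Agent.J4H71.CB

/-- the product `|n d (n + d)|` for a fraction `n / d` in lowest terms -/
def ht (r : ℚ) : ℕ := (r.num * r.den * (r.num + r.den)).natAbs

lemma ht_eq {n d : ℤ} (hd : d ≠ 0) (h : IsCoprime n d) :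
    ht ((n : ℚ) / d) = (n * d * (n + d)).natAbs := by
  have key : ∀ n d : ℤ, 0 < d → IsCoprime n d →
      ht ((n : ℚ) / d) = (n * d * (n + d)).natAbs := by
    intro n d hd h
    have h1 : ((n : ℚ) / d).num = n := by
      have := Rat.num_div_eq_of_coprime (a := n) (b := d) hd (Int.isCoprime_iff_gcd_eq_one.1 h)
      exact this
    have h2 : (((n : ℚ) / d).den : ℤ) = d := by
      have := Rat.den_div_eq_of_coprime (a := n) (b := d) hd (Int.isCoprime_iff_gcd_eq_one.1 h)
      exact this
    rw [ht, h1, h2]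
  rcases lt_or_gt_of_ne hd with h0 | h0
  · have h1 := key (-n) (-d) (by omega) h.neg_neg
    have h2 : (((-n : ℤ) : ℚ) / ((-d : ℤ) : ℚ)) = (n : ℚ) / d := by
      push_cast
      rw [neg_div_neg_eq]
    rw [h2] at h1
    have : (-n * -d * (-n + -d)) = -(n * d * (n + d)) := by ring
    rw [h1, this, Int.natAbs_neg]
  · exact key n d h0 h

/-- the tangent process -/
def lat (r : ℚ) : ℚ := -(r * (r + 2) ^ 3 / (2 * r + 1) ^ 3)

lemma natAbs_two_le {a : ℤ} (h0 : a ≠ 0) (h1 : a ≠ 1) (h2 : a ≠ -1) : 2 ≤ a.natAbs := by omega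

/-- the height strictly increases -/
theorem ht_lat {r : ℚ} (h : 2 < ht r) : ht r < ht (lat r) := by
  obtain ⟨n, d, hd, hc, rfl⟩ : ∃ n d : ℤ, d ≠ 0 ∧ IsCoprime n d ∧ r = (n : ℚ) / d := by
    refine ⟨r.num, r.den, by exact_mod_cast r.den_ne_zero, ?_, ?_⟩
    · rw [Int.isCoprime_iff_gcd_eq_one]
      have := r.reduced
      simpa [Int.gcd, Nat.Coprime] using this
    · push_cast
      exact (Rat.num_div_den r).symm
  rw [ht_eq hd hc] at h ⊢
  set p : ℤ := n * d * (n + d) with hp
  -- the differences do not vanish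
  have hn0 : n ≠ 0 := by
    rintro rfl
    simp [hp] at h
  have hnd0 : n + d ≠ 0 := by
    intro h0
    rw [hp, h0] at h
    simp at h
  have hu : ∀ k : ℤ, IsUnit k → k = 1 ∨ k = -1 := fun k hk => Int.isUnit_iff.1 hk
  have e1 : n + 2 * d ≠ 0 := by
    intro h0
    have hn : n = -2 * d := by linear_combination h0
    have hdu : IsUnit d := by
      have : IsCoprime (-2 * d) d := hn ▸ hc
      exact (IsCoprime.of_mul_left_right this).isUnit_of_dvd' (dvd_refl _) (dvd_refl _)
    rcases hu d hdu with h1 | h1 <;> · rw [hp, hn, h1] at h; norm_num at h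
  have e2 : 2 * n + d ≠ 0 := by
    intro h0
    have hd' : d = -2 * n := by linear_combination h0
    have hnu : IsUnit n := by
      have : IsCoprime n (-2 * n) := hd' ▸ hc
      exact (IsCoprime.of_mul_right_right this).isUnit_of_dvd' (dvd_refl _) (dvd_refl _)
    rcases hu n hnu with h1 | h1 <;> · rw [hp, hd', h1] at h; norm_num at h
  have e3 : n - d ≠ 0 := by
    intro h0
    have hn : n = d := by linear_combination h0
    have hdu : IsUnit d := by
      have : IsCoprime d d := hn ▸ hc
      exact this.isUnit_of_dvd' (dvd_refl _) (dvd_refl _)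
    rcases hu d hdu with h1 | h1 <;> · rw [hp, hn, h1] at h; norm_num at h
  have hdQ : (d : ℚ) ≠ 0 := by exact_mod_cast hd
  have e2Q : (2 * n + d : ℚ) ≠ 0 := by exact_mod_cast e2
  have hlat : lat ((n : ℚ) / d) = -(n * (n + 2 * d) ^ 3 : ℚ) / (d * (2 * n + d) ^ 3 : ℚ) := by
    rw [lat]
    have h1 : (2 * ((n : ℚ) / d) + 1) = (2 * n + d) / d := by field_simp
    have h2 : ((n : ℚ) / d + 2) = (n + 2 * d) / d := by field_simp
    rw [h1, h2]
    field_simp
  -- a prime divisor argument
  have hcop : ∀ a b : ℤ, (∀ q : ℤ, Prime q → q ∣ a → q ∣ b → False) → a ≠ 0 → IsCoprime a b := by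
    intro a b hab ha
    rw [Int.isCoprime_iff_gcd_eq_one]
    by_contra hne
    obtain ⟨q, hq, hq'⟩ := Nat.exists_prime_and_dvd hne
    refine hab (q : ℤ) (Nat.prime_iff_prime_int.1 hq) ?_ ?_
    · exact (Int.natCast_dvd_natCast.2 hq').trans (Int.gcd_dvd_left _ _)
    · exact (Int.natCast_dvd_natCast.2 hq').trans (Int.gcd_dvd_right _ _)
  have hnq : ∀ q : ℤ, Prime q → q ∣ n → q ∣ d → False := fun q hq h1 h2 =>
    hq.not_unit (hc.isUnit_of_dvd' h1 h2)
  by_cases h3 : (3 : ℤ) ∣ n - d
  · -- the factor 27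
    obtain ⟨γ, hγ⟩ := h3
    have hα : n + 2 * d = 3 * (d + γ) := by linear_combination hγ
    have hβ : 2 * n + d = 3 * (d + 2 * γ) := by linear_combination 2 * hγ
    set α : ℤ := d + γ with hαd
    set β : ℤ := d + 2 * γ with hβd
    have hα0 : α ≠ 0 := by rintro h0; apply e1; rw [hα, h0]; ring
    have hβ0 : β ≠ 0 := by rintro h0; apply e2; rw [hβ, h0]; ring
    have hγ0 : γ ≠ 0 := by rintro h0; apply e3; rw [hγ, h0]; ring
    have hn' : n = d + 3 * γ := by linear_combination hγ
    have hco : IsCoprime (-(n * α ^ 3)) (d * β ^ 3) := by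
      refine hcop _ _ ?_ (neg_ne_zero.2 (mul_ne_zero hn0 (pow_ne_zero 3 hα0)))
      intro q hq h1 h2
      rw [dvd_neg] at h1
      have hqα : ∀ {x : ℤ}, q ∣ x ^ 3 → q ∣ x := fun h => hq.dvd_of_dvd_pow h
      rcases hq.dvd_or_dvd h1 with h1 | h1
      · rcases hq.dvd_or_dvd h2 with h2 | h2
        · exact hnq q hq h1 h2
        · have h4 := hqα h2
          refine hnq q hq h1 ?_
          have : d = 3 * β - 2 * n := by rw [hβd, hn']; ring
          rw [this]
          exact dvd_sub (h4.mul_left _) (h1.mul_left _)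
      · have h1 := hqα h1
        rcases hq.dvd_or_dvd h2 with h2 | h2
        · refine hnq q hq ?_ h2
          have : n = 3 * α - 2 * d := by rw [hαd, hn']; ring
          rw [this]
          exact dvd_sub (h1.mul_left _) (h2.mul_left _)
        · have h2 := hqα h2
          refine hnq q hq ?_ ?_
          · have : n = 2 * β - α := by rw [hαd, hβd, hn']; ring
            rw [this]
            exact dvd_sub (h2.mul_left _) h1
          · have : d = 2 * α - β := by rw [hαd, hβd]; ring
            rw [this]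
            exact dvd_sub (h1.mul_left _) h2
    have hval : lat ((n : ℚ) / d) = ((-(n * α ^ 3) : ℤ) : ℚ) / ((d * β ^ 3 : ℤ) : ℚ) := by
      rw [hlat]
      have g1 : (n + 2 * d : ℚ) = 3 * α := by exact_mod_cast hα
      have g2 : (2 * n + d : ℚ) = 3 * β := by exact_mod_cast hβ
      have g3 : (β : ℚ) ≠ 0 := by exact_mod_cast hβ0
      rw [g1, g2]
      push_cast
      field_simp
    rw [hval, ht_eq (mul_ne_zero hd (pow_ne_zero 3 hβ0)) hco]
    have hprod : -(n * α ^ 3) * (d * β ^ 3) * (-(n * α ^ 3) + d * β ^ 3) =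
        p * (α * β * γ) ^ 3 := by
      rw [hp, hαd, hβd, hn']
      ring
    change p.natAbs < _
    rw [hprod, Int.natAbs_mul p, Int.natAbs_pow]
    have h2 : 2 ≤ (α * β * γ).natAbs := by
      refine natAbs_two_le (mul_ne_zero (mul_ne_zero hα0 hβ0) hγ0) ?_ ?_
      · intro h1
        have ha := hu α (IsUnit.of_mul_eq_one (β * γ) (by rw [← mul_assoc]; exact h1))
        have hb := hu β (IsUnit.of_mul_eq_one (α * γ) (by
          rw [← h1]; ring))
        have hg := hu γ (IsUnit.of_mul_eq_one (α * β) (by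
          rw [← h1]; ring))
        have : β = α + γ := by rw [hαd, hβd]; ring
        omega
      · intro h1
        have ha := hu α (IsUnit.of_mul_eq_one (-(β * γ)) (by linear_combination -h1))
        have hb := hu β (IsUnit.of_mul_eq_one (-(α * γ)) (by linear_combination -h1))
        have hg := hu γ (IsUnit.of_mul_eq_one (-(α * β)) (by linear_combination -h1))
        have : β = α + γ := by rw [hαd, hβd]; ring
        omega
    have h4 : 8 ≤ (α * β * γ).natAbs ^ 3 := by
      calc 8 = 2 ^ 3 := by norm_num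
        _ ≤ _ := Nat.pow_le_pow_left h2 3
    nlinarith
  · have hco : IsCoprime (-(n * (n + 2 * d) ^ 3)) (d * (2 * n + d) ^ 3) := by
      refine hcop _ _ ?_ (neg_ne_zero.2 (mul_ne_zero hn0 (pow_ne_zero 3 e1)))
      intro q hq h1 h2
      rw [dvd_neg] at h1
      have hqα : ∀ {x : ℤ}, q ∣ x ^ 3 → q ∣ x := fun h => hq.dvd_of_dvd_pow h
      rcases hq.dvd_or_dvd h1 with h1 | h1
      · rcases hq.dvd_or_dvd h2 with h2 | h2
        · exact hnq q hq h1 h2
        · have h4 := hqα h2
          refine hnq q hq h1 ?_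
          have : d = (2 * n + d) - 2 * n := by ring
          rw [this]
          exact dvd_sub h4 (h1.mul_left _)
      · have h1 := hqα h1
        rcases hq.dvd_or_dvd h2 with h2 | h2
        · refine hnq q hq ?_ h2
          have : n = (n + 2 * d) - 2 * d := by ring
          rw [this]
          exact dvd_sub h1 (h2.mul_left _)
        · have h2 := hqα h2
          have h5 : q ∣ 3 * n := by
            have : 3 * n = 2 * (2 * n + d) - (n + 2 * d) := by ring
            rw [this]
            exact dvd_sub (h2.mul_left _) h1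
          have h6 : q ∣ 3 * d := by
            have : 3 * d = 2 * (n + 2 * d) - (2 * n + d) := by ring
            rw [this]
            exact dvd_sub (h1.mul_left _) h2
          have h7 : q ∣ 3 := by
            rcases hq.dvd_or_dvd h5 with h | h
            · exact h
            · rcases hq.dvd_or_dvd h6 with h' | h'
              · exact h'
              · exact (hnq q hq h h').elim
          apply h3
          have h8 : (3 : ℤ) ∣ q := by
            have h9 : Prime (3 : ℤ) := Int.prime_three
            exact (hq.associated_of_dvd h9 h7).symm.dvd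
          have : n - d = (n + 2 * d) - 3 * d := by ring
          rw [this]
          exact dvd_sub (h8.trans h1) (dvd_mul_right _ _)
    have hval : lat ((n : ℚ) / d) =
        ((-(n * (n + 2 * d) ^ 3) : ℤ) : ℚ) / ((d * (2 * n + d) ^ 3 : ℤ) : ℚ) := by
      rw [hlat]
      push_cast
      ring
    rw [hval, ht_eq (mul_ne_zero hd (pow_ne_zero 3 e2)) hco]
    have hprod : -(n * (n + 2 * d) ^ 3) * (d * (2 * n + d) ^ 3) *
        (-(n * (n + 2 * d) ^ 3) + d * (2 * n + d) ^ 3) =
        p * ((n + 2 * d) * (2 * n + d) * (n - d)) ^ 3 := by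
      rw [hp]
      ring
    change p.natAbs < _
    rw [hprod, Int.natAbs_mul p, Int.natAbs_pow]
    have h2 : 2 ≤ ((n + 2 * d) * (2 * n + d) * (n - d)).natAbs := by
      refine natAbs_two_le (mul_ne_zero (mul_ne_zero e1 e2) e3) ?_ ?_
      · intro h1
        have ha := hu (n + 2 * d) (IsUnit.of_mul_eq_one ((2 * n + d) * (n - d)) (by
          linear_combination h1))
        have hg := hu (n - d) (IsUnit.of_mul_eq_one ((n + 2 * d) * (2 * n + d)) (by
          linear_combination h1))
        omega
      · intro h1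
        have ha := hu (n + 2 * d) (IsUnit.of_mul_eq_one (-((2 * n + d) * (n - d))) (by
          linear_combination -h1))
        have hg := hu (n - d) (IsUnit.of_mul_eq_one (-((n + 2 * d) * (2 * n + d))) (by
          linear_combination -h1))
        omega
    have h4 : 8 ≤ ((n + 2 * d) * (2 * n + d) * (n - d)).natAbs ^ 3 := by
      calc 8 = 2 ^ 3 := by norm_num
        _ ≤ _ := Nat.pow_le_pow_left h2 3
    nlinarith

/-- small heights -/
theorem ht_special {r : ℚ} (h : ht r ≤ 2) : r = 0 ∨ r = -1 ∨ r = 1 ∨ r = -2 ∨ 2 * r = -1 := by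
  have hr : r = (r.num : ℚ) / r.den := (Rat.num_div_den r).symm
  have hd : (0 : ℤ) < r.den := by exact_mod_cast r.den_pos
  set n := r.num
  set d : ℤ := (r.den : ℤ) with hdd
  have h' : (n * d * (n + d)).natAbs ≤ 2 := h
  have hdQ : ((d : ℤ) : ℚ) = (r.den : ℚ) := by rw [hdd]; push_cast; rfl
  by_cases hn : n = 0
  · left; rw [hr, hn]; simp
  by_cases hnd : n + d = 0
  · right; left
    rw [hr, ← hdQ, show n = -d by omega]
    push_cast
    have : (d : ℚ) ≠ 0 := by exact_mod_cast hd.ne'
    field_simp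
  have h1 : n.natAbs ≤ 2 := by
    rw [Int.natAbs_mul, Int.natAbs_mul] at h'
    have g1 : 1 ≤ d.natAbs := by omega
    have g2 : 1 ≤ (n + d).natAbs := by omega
    calc n.natAbs = n.natAbs * 1 * 1 := by ring
      _ ≤ n.natAbs * d.natAbs * (n + d).natAbs := by gcongr
      _ ≤ 2 := h'
  have h2 : d.natAbs ≤ 2 := by
    rw [Int.natAbs_mul, Int.natAbs_mul] at h'
    have g1 : 1 ≤ n.natAbs := by omega
    have g2 : 1 ≤ (n + d).natAbs := by omega
    calc d.natAbs = 1 * d.natAbs * 1 := by ring
      _ ≤ n.natAbs * d.natAbs * (n + d).natAbs := by gcongr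
      _ ≤ 2 := h'
  have h3 : d = 1 ∨ d = 2 := by omega
  have h4 : n = 1 ∨ n = -1 ∨ n = 2 ∨ n = -2 := by omega
  rw [hr, ← hdQ]
  rcases h3 with h3 | h3 <;> rcases h4 with h4 | h4 | h4 | h4 <;>
    rw [h3, h4] at h' ⊢ <;> revert h' <;> norm_num

end Pool.Agent.J4H71.CB
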