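import Pool.Agent.J4H71.PC.TypC

/-!
# The tangent map for binary cubic forms, uniformly (helper71)
-/

set_option autoImplicit false

namespace Pool.Agent.J4H71.CB

open Set Filter Topology Height Pool.Agent.J4H71.PC

section tau

/-- the form in normal form -/
def fF (p q x z : ℚ) : ℚ := x ^ 3 + p * x * z ^ 2 + q * z ^ 3

/-- the Hessian -/
def fH (p q x z : ℚ) : ℚ := 3 * p * x ^ 2 + 9 * q * x * z - p ^ 2 * z ^ 2

/-- the cubic covariant -/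
def fG (p q x z : ℚ) : ℚ :=
  27 * q * x ^ 3 - 18 * p ^ 2 * x ^ 2 * z - 27 * p * q * x * z ^ 2 - (2 * p ^ 3 + 27 * q ^ 2) * z ^ 3

/-- the tangent map -/
def tP (p q x z : ℚ) : ℚ := 27 * q * x ^ 4 + 54 * p * q * x ^ 2 * z ^ 2 +
  (54 * q ^ 2 - 8 * p ^ 3) * x * z ^ 3 - 9 * p ^ 2 * q * z ^ 4

/-- the tangent map -/
def tQ (p q x z : ℚ) : ℚ := -27 * p * x ^ 4 - 54 * q * x ^ 3 * z - 18 * p ^ 2 * x ^ 2 * z ^ 2 -
  54 * p * q * x * z ^ 3 + (p ^ 3 - 27 * q ^ 2) * z ^ 4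

variable (p q x z : ℚ)

lemma tau_F : fF p q (tP p q x z) (tQ p q x z) = fF p q x z * fG p q x z ^ 3 := by
  unfold fF tP tQ fG
  ring

lemma tau_H : fH p q (tP p q x z) (tQ p q x z) =
    -fH p q x z * (9 * fH p q x z ^ 3 + 2 * fG p q x z ^ 2) := by
  unfold fH tP tQ fG
  ring

lemma tau_G : fG p q (tP p q x z) (tQ p q x z) =
    fG p q x z ^ 4 + 18 * fG p q x z ^ 2 * fH p q x z ^ 3 + 54 * fH p q x z ^ 6 := by
  unfold fH tP tQ fG
  ring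

lemma syz : fG p q x z ^ 2 = 27 * (4 * p ^ 3 + 27 * q ^ 2) * fF p q x z ^ 2 - 4 * fH p q x z ^ 3 := by
  unfold fH fF fG
  ring

end tau

/-- **The cube classes are infinite, uniformly.** -/
theorem inf3u : ∃ B : ℝ, 0 ≤ B ∧ ∀ p q t₀ : ℚ, fG p q t₀ 1 ≠ 0 →
    B < logHeight₁ (-4 * fH p q t₀ 1 ^ 3 / fG p q t₀ 1 ^ 2) →
    4 * p ^ 3 + 27 * q ^ 2 ≠ 0 ∧ fF p q t₀ 1 ≠ 0 ∧ (S3 p q (fF p q t₀ 1)).Infinite := by
  have hdeg : (Polynomial.X * (Polynomial.C 9 * Polynomial.X - Polynomial.C 8) ^ 3 :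
      Polynomial ℚ).natDegree = 4 := by
    compute_degree!
  obtain ⟨B, hB, hgrow⟩ := ht_grow cop6 (by rw [hdeg]; omega)
  refine ⟨B, hB, ?_⟩
  intro p q t₀ hG hht
  set v₀ : ℚ := -4 * fH p q t₀ 1 ^ 3 / fG p q t₀ 1 ^ 2 with hv₀
  -- the value is different from one
  have hne : 27 * (4 * p ^ 3 + 27 * q ^ 2) * fF p q t₀ 1 ^ 2 ≠ 0 := by
    intro h0
    have h1 : fG p q t₀ 1 ^ 2 = -4 * fH p q t₀ 1 ^ 3 := by rw [syz, h0]; ring
    have h2 : v₀ = 1 := by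
      rw [hv₀, ← h1, div_self (pow_ne_zero 2 hG)]
    rw [h2, logHeight₁_one] at hht
    linarith
  have hF0 : fF p q t₀ 1 ≠ 0 := by
    intro h0
    apply hne
    rw [h0]; ring
  have hD : 4 * p ^ 3 + 27 * q ^ 2 ≠ 0 := by
    intro h0
    apply hne
    rw [h0]; ring
  refine ⟨hD, hF0, ?_⟩
  set c := fF p q t₀ 1 with hc
  set Vs : Set ℚ := {v | ∃ x z : ℚ, v = -4 * fH p q x z ^ 3 / fG p q x z ^ 2 ∧ fG p q x z ≠ 0 ∧
    B < logHeight₁ v ∧ ∃ r : ℚ, r ≠ 0 ∧ fF p q x z = r ^ 3 * c} with hVs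
  have hinf : Vs.Infinite := by
    apply infinite_of_ht
    · exact ⟨v₀, t₀, 1, rfl, hG, hht, 1, one_ne_zero, by rw [one_pow, one_mul]⟩
    · rintro v ⟨x, z, hv, hg, hB', r, hr, hf⟩
      obtain ⟨h1, h2⟩ := hgrow v hB'
      simp only [Polynomial.eval_pow, Polynomial.eval_mul, Polynomial.eval_sub,
        Polynomial.eval_add, Polynomial.eval_X, Polynomial.eval_C] at h1 h2
      have hg' : fG p q (tP p q x z) (tQ p q x z) ≠ 0 := by
        intro h0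
        apply h1
        rw [tau_G] at h0
        have h3 : 27 * v ^ 2 - 36 * v + 8 = 8 * (fG p q x z ^ 4 + 18 * fG p q x z ^ 2 *
            fH p q x z ^ 3 + 54 * fH p q x z ^ 6) / fG p q x z ^ 4 := by
          rw [hv]
          field_simp
          ring
        rw [h3, h0]
        simp
      have he : v * (9 * v - 8) ^ 3 / (27 * v ^ 2 - 36 * v + 8) ^ 2 =
          -4 * fH p q (tP p q x z) (tQ p q x z) ^ 3 / fG p q (tP p q x z) (tQ p q x z) ^ 2 := by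
        rw [div_eq_div_iff h1 (pow_ne_zero 2 hg'), tau_H, tau_G, hv]
        field_simp
        ring
      refine ⟨_, ⟨tP p q x z, tQ p q x z, he, hg', hB'.trans h2, r * fG p q x z,
        mul_ne_zero hr hg, ?_⟩, h2⟩
      rw [tau_F, hf]
      ring
  intro hfin
  apply hinf
  refine ((hfin.image fun t => -4 * fH p q t 1 ^ 3 / fG p q t 1 ^ 2).union
    (Set.finite_singleton (-4 * fH p q 1 0 ^ 3 / fG p q 1 0 ^ 2))).subset ?_
  rintro v ⟨x, z, hv, hg, -, r, hr, hf⟩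
  by_cases hz : z = 0
  · right
    have hx : x ≠ 0 := by
      rintro rfl
      apply hg
      rw [hz]
      simp [fG]
    have hg1 : fG p q 1 0 ≠ 0 := by
      intro h0
      apply hg
      have : fG p q x z = x ^ 3 * fG p q 1 0 := by
        rw [hz]; unfold fG; ring
      rw [this, h0, mul_zero]
    rw [Set.mem_singleton_iff, hv, div_eq_div_iff (pow_ne_zero 2 hg) (pow_ne_zero 2 hg1), hz]
    unfold fH fG
    ring
  · left
    have hg1 : fG p q (x / z) 1 ≠ 0 := by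
      intro h0
      apply hg
      have : fG p q x z = z ^ 3 * fG p q (x / z) 1 := by
        unfold fG
        field_simp
      rw [this, h0, mul_zero]
    refine ⟨x / z, ⟨r / z, ?_⟩, ?_⟩
    · have : fF p q x z = z ^ 3 * ((x / z) ^ 3 + p * (x / z) + q) := by
        unfold fF
        field_simp
      rw [this] at hf
      field_simp at hf ⊢
      linear_combination hf
    · rw [hv]
      change -4 * fH p q (x / z) 1 ^ 3 / fG p q (x / z) 1 ^ 2 = _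
      rw [div_eq_div_iff (pow_ne_zero 2 hg1) (pow_ne_zero 2 hg)]
      have h1 : fG p q x z = z ^ 3 * fG p q (x / z) 1 := by
        unfold fG
        field_simp
      have h2 : fH p q x z = z ^ 2 * fH p q (x / z) 1 := by
        unfold fH
        field_simp
      rw [h1, h2]
      ring

section move

variable {R : Type} [CommRing R]

/-- the Hessian at zero -/
def H0 (c₀ c₁ c₂ : R) : R := c₀ * c₂ - c₁ ^ 2

/-- the cubic covariant at zero -/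
def G0 (c₀ c₁ c₂ c₃ : R) : R := c₀ ^ 2 * c₃ - 3 * c₀ * c₁ * c₂ + 2 * c₁ ^ 3

/-- the value of the cubic polynomial -/
def ev3 (c₀ c₁ c₂ c₃ t : R) : R := c₀ + 3 * t * c₁ + 3 * t ^ 2 * c₂ + t ^ 3 * c₃

end move

/-- **The moves along lines.** -/
theorem move3 : ∃ U : Finset ℚ, ∀ c₀ c₁ c₂ c₃ : ℚ, c₃ ≠ 0 → G0 c₀ c₁ c₂ c₃ ≠ 0 →
    (∀ r ∈ U, 4 * H0 c₀ c₁ c₂ ^ 3 + r * G0 c₀ c₁ c₂ c₃ ^ 2 ≠ 0) → ∀ s : ℝ,
    (∀ v : ℝ, 0 ≤ v → v ≤ 1 → ev3 (c₀ : ℝ) c₁ c₂ c₃ (v * s) ≠ 0) → ∀ ε : ℝ, 0 < ε →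
    ∃ t : ℚ, |(t : ℝ) - s| < ε ∧ PS 3 c₀ (ev3 c₀ c₁ c₂ c₃ t) := by
  obtain ⟨B, -, hB⟩ := inf3u
  refine ⟨(ht_finite B).toFinset, ?_⟩
  intro c₀ c₁ c₂ c₃ h3 hG hU s hs ε hε
  obtain ⟨h, hh⟩ : ∃ h, h = c₂ / c₃ := ⟨_, rfl⟩
  obtain ⟨p, hp⟩ : ∃ p, p = 3 * (c₁ / c₃) - 3 * h ^ 2 := ⟨_, rfl⟩
  obtain ⟨q, hq⟩ : ∃ q, q = c₀ / c₃ - h ^ 3 - p * h := ⟨_, rfl⟩
  have e2 : c₂ = c₃ * h := by rw [hh]; field_simp
  have e1 : c₁ = c₃ * (p + 3 * h ^ 2) / 3 := by rw [hp]; field_simp; ring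
  have e0 : c₀ = c₃ * (h ^ 3 + p * h + q) := by rw [hq]; field_simp; ring
  have eG : G0 c₀ c₁ c₂ c₃ = -(c₃ ^ 3 * fG p q h 1 / 27) := by
    rw [e2, e1, e0]
    unfold G0 fG
    ring
  have eH : H0 c₀ c₁ c₂ = c₃ ^ 2 * fH p q h 1 / 9 := by
    rw [e2, e1, e0]
    unfold H0 fH
    ring
  have hG' : fG p q h 1 ≠ 0 := by
    intro h0
    apply hG
    rw [eG, h0]; ring
  have hht : B < logHeight₁ (-4 * fH p q h 1 ^ 3 / fG p q h 1 ^ 2) := by
    by_contra hcon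
    push Not at hcon
    apply hU (-4 * fH p q h 1 ^ 3 / fG p q h 1 ^ 2) (by simpa using hcon)
    rw [eH, eG]
    field_simp
    ring
  obtain ⟨hD, hc, hinf⟩ := hB p q h hG' hht
  have hF : fF p q h 1 = h ^ 3 + p * h + q := by unfold fF; ring
  rw [hF] at hc hinf
  have hev : ∀ x : ℝ, ev3 (c₀ : ℝ) c₁ c₂ c₃ x = c₃ * (((h : ℝ) + x) ^ 3 + p * (h + x) + q) := by
    intro x
    have r2 : (c₂ : ℝ) = c₃ * h := by exact_mod_cast e2
    have r1 : (c₁ : ℝ) = c₃ * (p + 3 * h ^ 2) / 3 := by exact_mod_cast e1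
    have r0 : (c₀ : ℝ) = c₃ * (h ^ 3 + p * h + q) := by exact_mod_cast e0
    rw [r2, r1, r0]
    unfold ev3
    ring
  have h3R : (c₃ : ℝ) ≠ 0 := by exact_mod_cast h3
  have hcl := S3_comp hD hc hinf (t₀ := h) ⟨1, by ring⟩ (s := (h : ℝ) + s) (by
    intro u hu0 hu1 h0
    apply hs u hu0 hu1
    rw [hev]
    have : (h : ℝ) + u * (h + s - h) = h + u * s := by ring
    rw [this] at h0
    rw [h0, mul_zero])
  -- continuity
  have hs1 : ev3 (c₀ : ℝ) c₁ c₂ c₃ s ≠ 0 := by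
    have := hs 1 zero_le_one le_rfl
    rwa [one_mul] at this
  have hcont : Continuous fun x : ℝ => ev3 (c₀ : ℝ) c₁ c₂ c₃ x := by
    unfold ev3
    fun_prop
  have hev0 : ∀ᶠ x in 𝓝 s, ev3 (c₀ : ℝ) c₁ c₂ c₃ x ≠ 0 :=
    hcont.continuousAt.eventually_ne hs1
  obtain ⟨δ, hδ, hδ'⟩ := Metric.eventually_nhds_iff.1 hev0
  obtain ⟨_, ⟨t', ⟨y, hy⟩, rfl⟩, ht'⟩ := Metric.mem_closure_iff.1 hcl (min ε δ) (lt_min hε hδ)
  rw [Real.dist_eq, abs_sub_comm] at ht'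
  have hab : |((t' - h : ℚ) : ℝ) - s| < min ε δ := by
    push_cast
    rwa [show (t' : ℝ) - h - s = t' - (h + s) by ring]
  refine ⟨t' - h, hab.trans_le (min_le_left _ _), y, ?_, ?_⟩
  · rintro rfl
    have h1 := hδ' (y := ((t' - h : ℚ) : ℝ)) (by
      rw [Real.dist_eq]
      exact hab.trans_le (min_le_right _ _))
    apply h1
    rw [hev]
    have h2 : ((t' : ℝ)) ^ 3 + p * t' + q = 0 := by
      have : (t' ^ 3 + p * t' + q : ℚ) = 0 := by rw [hy]; ring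
      exact_mod_cast this
    have h4 : (h : ℝ) + ((t' - h : ℚ) : ℝ) = t' := by push_cast; ring
    rw [h4, h2, mul_zero]
  · rw [e2, e1, e0]
    unfold ev3
    linear_combination c₃ * hy

end Pool.Agent.J4H71.CB
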