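import Pool.Agent.J4H71.CB.Lat

/-!
# Rational zeros of diagonal cubic forms are not covered by finitely many hyperplanes (helper71)
-/

set_option autoImplicit false
set_option linter.unusedSectionVars false

namespace Pool.Agent.J4H71.CB

open Finset

/-- the rational zeros of `∑ c_j q_j³` -/
def ZQ {ι : Type} [Fintype ι] (c q : ι → ℚ) : Prop := ∑ j, c j * q j ^ 3 = 0

/-- the rational zeros are not covered by finitely many rational hyperplanes -/
def NC {ι : Type} [Fintype ι] (c : ι → ℚ) : Prop :=
  ∀ L : Finset (ι → ℚ), (∀ l ∈ L, l ≠ 0) → ∃ q, ZQ c q ∧ ∀ l ∈ L, ∑ j, l j * q j ≠ 0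

variable {ι κ : Type} [Fintype ι] [Fintype κ]

/-- scaling -/
lemma NC.scale {c w : ι → ℚ} (hw : ∀ j, w j ≠ 0) (h : NC fun j => c j * w j ^ 3) : NC c := by
  classical
  intro L hL
  obtain ⟨q, hq, hq'⟩ := h (L.image fun l j => l j * w j) (by
    intro l' hl'
    obtain ⟨l, hl, rfl⟩ := Finset.mem_image.1 hl'
    intro h0
    apply hL l hl
    funext j
    have := congrFun h0 j
    simp only [Pi.zero_apply, mul_eq_zero, hw j, or_false] at this
    exact this)
  refine ⟨fun j => w j * q j, ?_, fun l hl => ?_⟩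
  · unfold ZQ at hq ⊢
    rw [← hq]
    exact Finset.sum_congr rfl fun j _ => by ring
  · have := hq' _ (Finset.mem_image_of_mem _ hl)
    intro h0
    apply this
    rw [← h0]
    exact Finset.sum_congr rfl fun j _ => by ring

/-- equivalences -/
lemma NC.equiv (e : ι ≃ κ) {c : κ → ℚ} (h : NC fun j => c (e j)) : NC c := by
  classical
  intro L hL
  obtain ⟨q, hq, hq'⟩ := h (L.image fun l j => l (e j)) (by
    intro l' hl'
    obtain ⟨l, hl, rfl⟩ := Finset.mem_image.1 hl'
    intro h0
    apply hL l hl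
    funext j
    have := congrFun h0 (e.symm j)
    simpa using this)
  refine ⟨fun j => q (e.symm j), ?_, fun l hl => ?_⟩
  · unfold ZQ at hq ⊢
    rw [← hq, ← e.sum_comp]
    simp
  · have := hq' _ (Finset.mem_image_of_mem _ hl)
    intro h0
    apply this
    rw [← h0, ← e.sum_comp]
    simp

/-- if the zeros are covered then one of the linear forms vanishes on all the groups of a partition
for which the merged form is not covered -/
lemma pull {π : ι → κ} [DecidableEq κ] {c : ι → ℚ}
    (h : NC fun a => ∑ j, if π j = a then c j else 0) {L : Finset (ι → ℚ)}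
    (hcov : ∀ q, ZQ c q → ∃ l ∈ L, ∑ j, l j * q j = 0) :
    ∃ l ∈ L, ∀ a, ∑ j, (if π j = a then l j else 0) = 0 := by
  classical
  by_contra hcon
  push Not at hcon
  obtain ⟨s, hs, hs'⟩ := h (L.image fun l a => ∑ j, if π j = a then l j else 0) (by
    intro l' hl'
    obtain ⟨l, hl, rfl⟩ := Finset.mem_image.1 hl'
    obtain ⟨a, ha⟩ := hcon l hl
    intro h0
    exact ha (congrFun h0 a))
  have key : ∀ (f : ι → ℚ) (g : κ → ℚ), ∑ a, (∑ j, if π j = a then f j else 0) * g a =
      ∑ j, f j * g (π j) := by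
    intro f g
    simp only [Finset.sum_mul, ite_mul, zero_mul]
    rw [Finset.sum_comm]
    exact Finset.sum_congr rfl fun j _ => by simp
  obtain ⟨l, hl, hl0⟩ := hcov (fun j => s (π j)) (by
    unfold ZQ at hs ⊢
    rw [← hs, key c fun a => s a ^ 3])
  exact hs' _ (Finset.mem_image_of_mem _ hl) ((key l s).trans hl0)

/-- the merging of `l` with `k` -/
def mg [DecidableEq ι] (k l : ι) (h : k ≠ l) (j : ι) : {m : ι // m ≠ l} :=
  if hj : j = l then ⟨k, h⟩ else ⟨j, hj⟩

lemma mg_sum [DecidableEq ι] {k l : ι} (h : k ≠ l) (c : ι → ℚ) (a : {m : ι // m ≠ l}) :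
    (∑ j, if mg k l h j = a then c j else 0) = if a.1 = k then c k + c l else c a.1 := by
  have h1 : ∀ j, (mg k l h j = a) ↔ (j = a.1 ∨ (j = l ∧ a.1 = k)) := by
    intro j
    unfold mg
    split_ifs with hj
    · subst hj
      rw [Subtype.ext_iff]
      constructor
      · intro h2; exact Or.inr ⟨rfl, h2.symm⟩
      · rintro (h2 | ⟨-, h2⟩)
        · exact absurd h2.symm a.2
        · exact h2.symm
    · rw [Subtype.ext_iff]
      constructor
      · intro h2; exact Or.inl h2
      · rintro (h2 | ⟨h2, -⟩)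
        · exact h2
        · exact absurd h2 hj
  simp only [h1]
  split_ifs with hk
  · have h2 : ∀ j, (if j = a.1 ∨ (j = l ∧ a.1 = k) then c j else 0) =
        (if j = k then c j else 0) + (if j = l then c j else 0) := by
      intro j
      by_cases hjk : j = k
      · have : j ≠ l := by rw [hjk]; exact h
        simp [hk, hjk, h]
      · by_cases hjl : j = l
        · simp [hk, hjl, h.symm]
        · simp [hk, hjk, hjl]
    simp only [h2, Finset.sum_add_distrib]
    simp
  · have h2 : ∀ j, (if j = a.1 ∨ (j = l ∧ a.1 = k) then c j else 0) =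
        (if j = a.1 then c j else 0) := by
      intro j
      simp [hk]
    simp only [h2]
    simp

/-- the consequence for the ratio of two coordinates -/
lemma ratio [DecidableEq ι] {k l : ι} (h : k ≠ l) {c w : ι → ℚ} (hw : ∀ j, w j ≠ 0)
    (hN : NC fun a : {m : ι // m ≠ l} => if a.1 = k then c k * w k ^ 3 + c l * w l ^ 3 else
      c a.1 * w a.1 ^ 3) {L : Finset (ι → ℚ)} (hL : ∀ l ∈ L, l ≠ 0)
    (hcov : ∀ q, ZQ c q → ∃ l ∈ L, ∑ j, l j * q j = 0) :
    ∃ f ∈ L, w k = -f l / f k * w l := by
  classical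
  have hcov' : ∀ q, ZQ (fun j => c j * w j ^ 3) q →
      ∃ f ∈ L.image (fun (l : ι → ℚ) j => l j * w j), ∑ j, f j * q j = 0 := by
    intro q hq
    obtain ⟨f, hf, hf0⟩ := hcov (fun j => w j * q j) (by
      unfold ZQ at hq ⊢
      rw [← hq]
      exact Finset.sum_congr rfl fun j _ => by ring)
    refine ⟨_, Finset.mem_image_of_mem _ hf, ?_⟩
    rw [← hf0]
    exact Finset.sum_congr rfl fun j _ => by ring
  obtain ⟨f', hf', hf0⟩ := pull (π := mg k l h) (c := fun j => c j * w j ^ 3) (by
    simp only [mg_sum h (fun j => c j * w j ^ 3)]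
    exact hN) hcov'
  obtain ⟨f, hf, rfl⟩ := Finset.mem_image.1 hf'
  simp only [mg_sum h (fun j => f j * w j)] at hf0
  have h1 : f k * w k + f l * w l = 0 := by
    have := hf0 ⟨k, h⟩
    simpa using this
  have h2 : ∀ j, j ≠ l → j ≠ k → f j = 0 := by
    intro j hjl hjk
    have := hf0 ⟨j, hjl⟩
    simp only [hjk, if_false] at this
    exact (mul_eq_zero.1 this).resolve_right (hw j)
  have h3 : f k ≠ 0 := by
    intro h0
    apply hL f hf
    funext j
    by_cases hjl : j = l
    · rw [h0, zero_mul, zero_add] at h1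
      rw [hjl]
      exact (mul_eq_zero.1 h1).resolve_right (hw l)
    · by_cases hjk : j = k
      · rw [hjk]; exact h0
      · exact h2 j hjl hjk
  refine ⟨f, hf, ?_⟩
  field_simp
  linear_combination h1

end Pool.Agent.J4H71.CB
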