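import Pool.Agent.J4H71.CB.Sub

/-!
# The classes are open (helper71)
-/

set_option autoImplicit false
set_option linter.unusedSectionVars false

namespace Pool.Agent.J4H71.CB

open Set Filter Topology Pool.Agent.J4H71.PC Pool.Agent.H581R2 Pool.Agent.TH729.SQ

variable {κ : Type} [Fintype κ]

lemma rv_inj {x y : κ → ℚ} (h : rv x = rv y) : x = y := by
  funext k
  have := congrFun h k
  change ((x k : ℚ) : ℝ) = y k at this
  exact_mod_cast this

/-- one move in the ball -/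
lemma ball_move {b : κ → κ → κ → ℚ} (hb : Sy b) {V : Submodule ℚ (κ → ℚ)} {K : Set (κ → ℚ)}
    (hKV : K ⊆ V)
    (hK : ∀ z ∈ K, ∀ z' ∈ V, PS 3 (cub b z) (cub b z') → (∃ w ∈ V, dd b z' w ≠ 0) → z' ∈ K)
    {B : Set (κ → ℝ)} (hBo : IsOpen B) (hBc : Convex ℝ B) (hB : ∀ y ∈ B, cub b y ≠ 0)
    {w : κ → ℚ} (hw : w ∈ V) (hBw : ∀ y ∈ B, dd b y (rv w) ≠ 0) {a : κ → ℝ} {s : ℝ}
    (ha : a ∈ closure (rl (K ∩ {z | rv z ∈ B}))) (haB : a ∈ B) (has : a + s • rv w ∈ B) :
    a + s • rv w ∈ closure (rl (K ∩ {z | rv z ∈ B})) := by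
  rw [mem_closure_iff_nhds]
  intro O hO
  -- a neighbourhood of the target
  have hOB : O ∩ B ∈ 𝓝 (a + s • rv w) := Filter.inter_mem hO (hBo.mem_nhds has)
  have hcont : Continuous fun p : (κ → ℝ) × ℝ => p.1 + p.2 • rv w := by fun_prop
  have h1 : ∀ᶠ p : (κ → ℝ) × ℝ in 𝓝 (a, s), p.1 + p.2 • rv w ∈ O ∩ B :=
    hcont.continuousAt.preimage_mem_nhds hOB
  rw [nhds_prod_eq] at h1
  obtain ⟨P, hP, Q, hQ, hPQ⟩ := Filter.eventually_prod_iff.1 h1
  -- the rational point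
  have h2 : ∀ᶠ u in 𝓝 a, P u ∧ u ∈ B := hP.and (hBo.mem_nhds haB)
  obtain ⟨_, ⟨hu1, hu2⟩, ⟨u, ⟨huK, huB⟩, rfl⟩⟩ := mem_closure_iff_nhds.1 ha _ h2
  obtain ⟨ε, hε, hε'⟩ := Metric.eventually_nhds_iff.1 hQ
  have huB' : rv u ∈ B := huB
  have hsB : rv u + s • rv w ∈ B := (hPQ hu1 (hε' (by rw [dist_self]; exact hε))).2
  have hdd : dd b u w ≠ 0 := by
    intro h0
    apply hBw _ huB'
    rw [← dd_cast, h0, Rat.cast_zero]
  obtain ⟨t, ht, htP⟩ := mv hb hdd (s := s) (by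
    intro v hv0 hv1
    apply hB
    have : rv u + (v * s) • rv w = (1 - v) • rv u + v • (rv u + s • rv w) := by
      rw [smul_add, ← add_assoc, ← add_smul, sub_add_cancel, one_smul, smul_smul]
    rw [this]
    exact hBc huB' hsB (by linarith) hv0 (by ring)) hε
  have h3 := hPQ hu1 (hε' (y := (t : ℝ)) (by rwa [Real.dist_eq]))
  have h4 : rv (u + t • w) = rv u + (t : ℝ) • rv w := by rw [rv_add, rv_smul]
  have h5 : u + t • w ∈ V := V.add_mem (hKV huK) (V.smul_mem _ hw)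
  have h6 : rv (u + t • w) ∈ B := by
    rw [h4]
    exact h3.2
  refine ⟨rv u + (t : ℝ) • rv w, h3.1, mem_rl_iff.2 ⟨u + t • w, ⟨hK u huK _ h5 htP ⟨w, hw, ?_⟩, h6⟩, h4⟩⟩
  intro h0
  apply hBw _ h6
  rw [← dd_cast, h0, Rat.cast_zero]

/-- **The closures of the classes are open.** -/
theorem open_main {b : κ → κ → κ → ℚ} (hb : Sy b) {V : Submodule ℚ (κ → ℚ)} (C : Crd V)
    {K : Set (κ → ℚ)} (hKV : K ⊆ V)
    (hK : ∀ z ∈ K, ∀ z' ∈ V, PS 3 (cub b z) (cub b z') → (∃ w ∈ V, dd b z' w ≠ 0) → z' ∈ K)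
    {x : κ → ℝ} (hx : x ∈ closure (rl K)) (hxF : cub b x ≠ 0)
    (hw : ∃ w ∈ C.sp, dd b x w ≠ 0) : ∀ᶠ y in 𝓝 x, y ∈ C.sp → y ∈ closure (rl K) := by
  classical
  have hxs : x ∈ C.sp := C.closure_sub hKV hx
  -- the first direction
  obtain ⟨w₁, hw₁, hw₁'⟩ := hw
  have h1 : ∀ᶠ w in 𝓝 w₁, dd b x w ≠ 0 :=
    (dd_cont b (f := fun _ => x) (g := fun w => w) continuous_const
      continuous_id).continuousAt.eventually_ne hw₁'
  obtain ⟨_, hw0, ⟨w₀, hw₀V, rfl⟩⟩ := mem_closure_iff_nhds.1 (C.dense hw₁) _ h1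
  have hw0' : dd b x (rv w₀) ≠ 0 := hw0
  -- the other directions
  have h2 : ∀ᶠ δ : ℝ in 𝓝 0, ∀ i, dd b x (rv w₀ + δ • rv (C.e i)) ≠ 0 := by
    rw [Filter.eventually_all]
    intro i
    have hc : Continuous fun δ : ℝ => dd b x (rv w₀ + δ • rv (C.e i)) :=
      dd_cont b continuous_const (by fun_prop)
    refine hc.continuousAt.eventually_ne ?_
    rw [zero_smul, add_zero]
    exact hw0'
  obtain ⟨η, hη, hη'⟩ := Metric.eventually_nhds_iff.1 h2
  obtain ⟨δ, hδ0, hδη⟩ := exists_rat_btwn hη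
  have hδ0' : δ ≠ 0 := by
    rintro rfl
    simp at hδ0
  have h3 : ∀ i, dd b x (rv (w₀ + δ • C.e i)) ≠ 0 := by
    intro i
    rw [rv_add, rv_smul]
    refine hη' ?_ i
    rw [Real.dist_eq, sub_zero, abs_of_pos hδ0]
    exact hδη
  -- the ball
  have h4 : ∀ᶠ y in 𝓝 x, cub b y ≠ 0 ∧ dd b y (rv w₀) ≠ 0 ∧ ∀ i, dd b y (rv (w₀ + δ • C.e i)) ≠ 0 := by
    refine ((cub_cont b continuous_id).continuousAt.eventually_ne hxF).and
      (((dd_cont b continuous_id continuous_const).continuousAt.eventually_ne hw0').and ?_)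
    rw [Filter.eventually_all]
    intro i
    exact (dd_cont b continuous_id continuous_const).continuousAt.eventually_ne (h3 i)
  obtain ⟨ρ, hρ, hρ'⟩ := Metric.eventually_nhds_iff.1 h4
  set B := Metric.ball x ρ with hB
  have hBo : IsOpen B := Metric.isOpen_ball
  have hBc : Convex ℝ B := convex_ball x ρ
  set A := closure (rl (K ∩ {z | rv z ∈ B})) with hA
  have hxA : x ∈ A := by
    rw [hA, mem_closure_iff_nhds]
    intro O hO
    obtain ⟨_, ⟨hu1, hu2⟩, ⟨u, hu, rfl⟩⟩ := mem_closure_iff_nhds.1 hx (O ∩ B)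
      (Filter.inter_mem hO (Metric.ball_mem_nhds x hρ))
    exact ⟨_, hu1, ⟨u, ⟨hu, hu2⟩, rfl⟩⟩
  -- the path
  let cS : Finset (Fin C.m) → (κ → ℝ) → κ → ℝ := fun S y => x + ∑ i ∈ S, C.lr i (y - x) • rv (C.e i)
  let dS : Finset (Fin C.m) → Fin C.m → (κ → ℝ) → κ → ℝ := fun S i y =>
    cS S y + (C.lr i (y - x) / δ) • rv (w₀ + δ • C.e i)
  have hlc : ∀ i, Continuous fun y : κ → ℝ => C.lr i (y - x) := fun i =>
    (C.lr_cont i).comp (by fun_prop)
  have hcc : ∀ S, Continuous (cS S) := fun S => continuous_const.add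
    (continuous_finsetSum _ fun i _ => (hlc i).smul continuous_const)
  have hdc : ∀ S i, Continuous (dS S i) := fun S i =>
    (hcc S).add (((hlc i).div_const _).smul continuous_const)
  have hl0 : ∀ i, C.lr i (x - x) = 0 := by
    intro i
    rw [C.lr_sub, sub_self]
  have hcx : ∀ S, cS S x = x := by
    intro S
    simp only [cS, hl0, zero_smul, Finset.sum_const_zero, add_zero]
  have hdx : ∀ S i, dS S i x = x := by
    intro S i
    simp only [dS, hcx, hl0, zero_div, zero_smul, add_zero]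
  have h5 : ∀ᶠ y in 𝓝 x, ∀ S, cS S y ∈ B ∧ ∀ i, dS S i y ∈ B := by
    rw [Filter.eventually_all]
    intro S
    refine ((hcc S).continuousAt.eventually_mem (by
      rw [hcx]
      exact Metric.ball_mem_nhds x hρ)).and ?_
    rw [Filter.eventually_all]
    intro i
    refine (hdc S i).continuousAt.eventually_mem ?_
    rw [hdx]
    exact Metric.ball_mem_nhds x hρ
  filter_upwards [h5] with y hy hys
  have h6 : ∀ S, cS S y ∈ A := by
    intro S
    induction S using Finset.induction_on with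
    | empty => simpa [cS] using hxA
    | insert i S hi ih =>
      have k1 : dS S i y ∈ A :=
        ball_move hb hKV hK hBo hBc (fun y hy => (hρ' hy).1)
          (V.add_mem hw₀V (V.smul_mem _ (C.mem i))) (fun y hy => (hρ' hy).2.2 i) ih (hy S).1
          ((hy S).2 i)
      have e1 : cS (insert i S) y = dS S i y + (-(C.lr i (y - x) / δ)) • rv w₀ := by
        simp only [cS, dS, Finset.sum_insert hi, rv_add, rv_smul, smul_add, smul_smul]
        have : (C.lr i (y - x) / δ) * (δ : ℝ) = C.lr i (y - x) := by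
          have : (δ : ℝ) ≠ 0 := by exact_mod_cast hδ0'
          field_simp
        rw [this, neg_smul]
        abel
      rw [e1]
      refine ball_move hb hKV hK hBo hBc (fun y hy => (hρ' hy).1) hw₀V
        (fun y hy => (hρ' hy).2.1) k1 ((hy S).2 i) ?_
      rw [← e1]
      exact (hy _).1
  have h7 : cS Finset.univ y = y := by
    have h8 : y - x ∈ C.sp := by
      rw [sub_eq_add_neg, ← neg_one_smul ℝ x]
      exact C.add_mem hys (C.smul_mem _ hxs)
    simp only [cS]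
    rw [← C.sp_eq h8, add_sub_cancel]
  have h8 := h6 Finset.univ
  rw [h7] at h8
  refine closure_mono ?_ h8
  rintro _ ⟨z, ⟨hz, -⟩, rfl⟩
  exact ⟨z, hz, rfl⟩

end Pool.Agent.J4H71.CB
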