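import Pool.Agent.J4H71.CB.NC

/-!
# Three terms (helper71)
-/

set_option autoImplicit false
set_option linter.unusedSectionVars false

namespace Pool.Agent.J4H71.CB

open Finset Pool.Agent.Y718

/-- the heights are unbounded along the tangent process -/
lemma iter_ht {r : ℚ} (h : 2 < ht r) (n : ℕ) : n + 2 < ht (lat^[n] r) := by
  induction n with
  | zero => simpa using h
  | succ n ih =>
    rw [Function.iterate_succ_apply']
    have := ht_lat (r := lat^[n] r) (by omega)
    omega

lemma lat_infinite {r : ℚ} (h : 2 < ht r) {R : Set ℚ} (hr : r ∈ R)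
    (hR : ∀ x ∈ R, 2 < ht x → lat x ∈ R) : R.Infinite := by
  have hmem : ∀ n, lat^[n] r ∈ R := by
    intro n
    induction n with
    | zero => simpa using hr
    | succ n ih =>
      rw [Function.iterate_succ_apply']
      exact hR _ ih (by have := iter_ht h n; omega)
  intro hfin
  have hfin' : (ht '' R).Finite := hfin.image ht
  obtain ⟨B, hB⟩ := hfin'.bddAbove
  have h1 : ht (lat^[B] r) ≤ B := hB ⟨_, hmem B, rfl⟩
  have h2 := iter_ht h B
  omega

/-- infinitely many abscissas -/
lemma inf3 {a b c : ℚ} (ha : a ≠ 0) (hb : b ≠ 0) (hc : c ≠ 0) (hs : a + b + c = 0) (hab : a ≠ b)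
    (hbc : b ≠ c) (hac : a ≠ c) : {t : ℚ | ∃ y, a * t ^ 3 + b * y ^ 3 + c = 0}.Infinite := by
  set T : Set ℚ := {t : ℚ | ∃ y, a * t ^ 3 + b * y ^ 3 + c = 0} with hT
  have hinf : ((fun t : ℚ => a / c * t ^ 3) '' T).Infinite := by
    refine lat_infinite (r := a / c) ?_ ⟨1, ⟨1, by linear_combination hs⟩, by norm_num⟩ ?_
    · by_contra hcon
      have hac' : a = a / c * c := by field_simp
      rcases ht_special (r := a / c) (by omega) with h | h | h | h | h
      · rw [h, zero_mul] at hac'; exact ha hac'
      · rw [h] at hac'; apply hb; linear_combination hs - hac'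
      · rw [h] at hac'; apply hac; linear_combination hac'
      · rw [h] at hac'; apply hbc; linear_combination hs - hac'
      · apply hab
        have : 2 * a = -c := by linear_combination 2 * hac' + c * h
        linear_combination this - hs
    · rintro _ ⟨t, ⟨y, hty⟩, rfl⟩ h2
      -- the tangent process
      have hz : a * t ^ 3 - b * y ^ 3 ≠ 0 := by
        intro h0
        have h1 : 2 * (a / c * t ^ 3) = -1 := by
          field_simp
          linear_combination hty + h0
        have h3 : a / c * t ^ 3 = -1 / 2 := by linear_combination h1 / 2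
        simp only at h2
        rw [h3] at h2
        revert h2
        norm_num [ht]
      refine ⟨t * (b * y ^ 3 - c) / (a * t ^ 3 - b * y ^ 3),
        ⟨y * (c - a * t ^ 3) / (a * t ^ 3 - b * y ^ 3), ?_⟩, ?_⟩
      · rw [div_pow, div_pow]
        field_simp
        linear_combination ((a * t ^ 3 - b * y ^ 3) * (b * y ^ 3 - c) * (c - a * t ^ 3)) * hty
      · simp only [lat]
        have h4 : 2 * (a / c * t ^ 3) + 1 = (a * t ^ 3 - b * y ^ 3) / c := by
          field_simp
          linear_combination hty
        have h5 : a / c * t ^ 3 + 2 = -(b * y ^ 3 - c) / c := by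
          field_simp
          linear_combination hty
        rw [h4, h5]
        field_simp
  exact hinf.of_image _

/-- **Three terms.** -/
theorem NC_three {c : Fin 3 → ℚ} (h0 : ∀ j, c j ≠ 0) (hs : ∑ j, c j = 0)
    (hinj : Function.Injective c) : NC c := by
  classical
  intro L hL
  by_contra hcon
  push Not at hcon
  rw [Fin.sum_univ_three] at hs
  set a := c 0 with ha
  set b := c 1 with hb
  set d := c 2 with hd
  have hab : a ≠ b := fun h => by have := hinj h; simp at this
  have hbd : b ≠ d := fun h => by have := hinj h; simp at this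
  have had : a ≠ d := fun h => by have := hinj h; simp at this
  have hinf := inf3 (h0 0) (h0 1) (h0 2) hs hab hbd had
  set T : Set ℚ := {t : ℚ | ∃ y, a * t ^ 3 + b * y ^ 3 + d = 0} with hT
  have hch : ∀ t : ℚ, ∃ l : Fin 3 → ℚ, t ∈ T → l ∈ L ∧ ∃ y, a * t ^ 3 + b * y ^ 3 + d = 0 ∧
      l 0 * t + l 1 * y + l 2 = 0 := by
    intro t
    by_cases ht : t ∈ T
    · obtain ⟨y, hy⟩ := ht
      obtain ⟨l, hl, hl0⟩ := hcon ![t, y, 1] (by
        unfold ZQ
        rw [Fin.sum_univ_three]
        simp only [Matrix.cons_val_zero, Matrix.cons_val_one, Matrix.cons_val, one_pow, mul_one]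
        exact hy)
      rw [Fin.sum_univ_three] at hl0
      simp only [Matrix.cons_val_zero, Matrix.cons_val_one, Matrix.cons_val, mul_one] at hl0
      exact ⟨l, fun _ => ⟨hl, y, hy, hl0⟩⟩
    · exact ⟨0, fun h => absurd h ht⟩
  choose f hf using hch
  obtain ⟨l, hl, hlinf⟩ : ∃ l ∈ L, ((T ∩ f ⁻¹' {l})).Infinite := by
    by_contra hcon'
    push Not at hcon'
    apply hinf
    refine (Set.Finite.biUnion L.finite_toSet (fun l hl => hcon' l hl)).subset ?_
    intro t ht
    simp only [Set.mem_iUnion]
    exact ⟨f t, (hf t ht).1, ht, rfl⟩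
  have hT' : ∀ t ∈ (T ∩ f ⁻¹' {l}), ∃ y : ℚ,
      a * t ^ 3 + b * y ^ 3 + d = 0 ∧ l 0 * t + l 1 * y + l 2 = 0 := by
    rintro t ⟨ht, hat⟩
    obtain ⟨-, y, h1, h2⟩ := hf t ht
    have hat' : f t = l := hat
    rw [hat'] at h2
    exact ⟨y, h1, h2⟩
  by_cases h1 : l 1 = 0
  · obtain ⟨h2, h3, -⟩ := poly4 (c0 := l 2) (c1 := l 0) (c2 := 0) (c3 := 0) (c4 := 0) hlinf (by
      intro t ht
      obtain ⟨y, -, h3⟩ := hT' t ht
      rw [h1] at h3
      linear_combination h3)
    apply hL l hl
    funext i
    fin_cases i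
    · exact h3
    · exact h1
    · exact h2
  · refine Pool.Agent.J4H71.PC.not_cube (p := 0) (q := d / a) ?_ (-b / a) (-l 0 / l 1) (-l 2 / l 1)
      hlinf ?_
    · have h2 : (d / a) ^ 2 ≠ 0 := pow_ne_zero 2 (div_ne_zero (h0 2) (h0 0))
      intro h3
      apply h2
      linear_combination h3 / 27
    · intro t ht
      obtain ⟨y, h2, h3⟩ := hT' t ht
      have h4 : y = (-l 0 / l 1) * t + (-l 2 / l 1) := by
        field_simp
        linear_combination h3
      rw [← h4]
      have ha0 : a ≠ 0 := h0 0
      field_simp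
      linear_combination h2

end Pool.Agent.J4H71.CB
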