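import Pool.Agent.J4H71.CB.P3

/-!
# Four and more terms (helper71)
-/

set_option autoImplicit false
set_option linter.unusedSectionVars false

namespace Pool.Agent.J4H71.CB

open Finset

/-- good pairs of contributions -/
def Gd (a b : ℚ) : Prop := a + b ≠ 0 ∧ a ≠ b ∧ 2 * a + b ≠ 0 ∧ a + 2 * b ≠ 0

lemma pre_fin {a : ℚ} (ha : a ≠ 0) {S : Set ℚ} (hS : S.Finite) : {x : ℚ | a * x ^ 3 ∈ S}.Finite := by
  refine hS.preimage ?_
  intro x _ y _ h
  have h1 : x ^ 3 = y ^ 3 := mul_left_cancel₀ ha h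
  exact Odd.pow_injective (by decide : Odd 3) h1

/-- finitely many bad ratios -/
lemma bad_fin {a b : ℚ} (ha : a ≠ 0) : ∃ B : Finset ℚ, ∀ x y : ℚ, y ≠ 0 →
    (∀ t ∈ B, x ≠ t * y) → Gd (a * x ^ 3) (b * y ^ 3) := by
  have hfin := pre_fin ha (S := ({-b, b, -b / 2, -2 * b} : Set ℚ)) (by simp)
  refine ⟨hfin.toFinset, fun x y hy h => ?_⟩
  have key : ∀ u : ℚ, u ∈ ({-b, b, -b / 2, -2 * b} : Set ℚ) → a * x ^ 3 ≠ u * y ^ 3 := by
    intro u hu h1
    refine h (x / y) ?_ (by field_simp)
    rw [Set.Finite.mem_toFinset]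
    have : a * (x / y) ^ 3 = u := by
      rw [div_pow]
      field_simp
      linear_combination h1
    change a * (x / y) ^ 3 ∈ ({-b, b, -b / 2, -2 * b} : Set ℚ)
    rw [this]
    exact hu
  refine ⟨fun h1 => key (-b) (by simp) ?_, fun h1 => key b (by simp) ?_,
    fun h1 => key (-b / 2) (by simp) ?_, fun h1 => key (-2 * b) (by simp) ?_⟩
  · linear_combination h1
  · exact h1
  · linear_combination h1 / 2
  · linear_combination h1

/-- a good matching -/
theorem NC_match {c : Fin 4 → ℚ} (h0 : ∀ j, c j ≠ 0) (hs : ∑ j, c j = 0)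
    (h01 : Gd (c 0) (c 1)) (h23 : Gd (c 2) (c 3)) : NC c := by
  classical
  intro L hL
  by_contra hcon
  push Not at hcon
  rw [Fin.sum_univ_four] at hs
  have hN : NC ![c 0 + c 1, c 2, c 3] := by
    refine NC_three ?_ ?_ ?_
    · intro j
      fin_cases j
      · exact h01.1
      · exact h0 2
      · exact h0 3
    · rw [Fin.sum_univ_three]
      simpa using hs
    · have g1 : c 0 + c 1 ≠ c 2 := fun h => h23.2.2.1 (by linear_combination hs - h)
      have g2 : c 0 + c 1 ≠ c 3 := fun h => h23.2.2.2 (by linear_combination hs - h)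
      have g3 := h23.2.1
      intro i j hij
      fin_cases i <;> fin_cases j <;> first
        | rfl
        | exact absurd hij g1
        | exact absurd hij g2
        | exact absurd hij g3
        | exact absurd hij.symm g1
        | exact absurd hij.symm g2
        | exact absurd hij.symm g3
  obtain ⟨s, hs0, hs'⟩ := hN ({![1, 0, 0], ![0, 1, 0], ![0, 0, 1]} ∪
    L.image fun f => ![0, 1, f 3 / f 2]) (by
    intro l hl
    simp only [Finset.mem_union, Finset.mem_insert, Finset.mem_singleton, Finset.mem_image] at hl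
    rcases hl with (rfl | rfl | rfl) | ⟨f, -, rfl⟩
    · intro h; have := congrFun h 0; simp at this
    · intro h; have := congrFun h 1; simp at this
    · intro h; have := congrFun h 2; simp at this
    · intro h; have := congrFun h 1; simp at this)
  have e0 : s 0 ≠ 0 := by
    have := hs' ![1, 0, 0] (by simp)
    simpa [Fin.sum_univ_three] using this
  have e1 : s 1 ≠ 0 := by
    have := hs' ![0, 1, 0] (by simp)
    simpa [Fin.sum_univ_three] using this
  have e2 : s 2 ≠ 0 := by
    have := hs' ![0, 0, 1] (by simp)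
    simpa [Fin.sum_univ_three] using this
  have e3 : ∀ f ∈ L, s 1 ≠ -f 3 / f 2 * s 2 := by
    intro f hf h
    have := hs' ![0, 1, f 3 / f 2] (Finset.mem_union_right _ (Finset.mem_image_of_mem _ hf))
    apply this
    simp only [Fin.sum_univ_three, Matrix.cons_val_zero, Matrix.cons_val_one, Matrix.cons_val,
      zero_mul, one_mul, zero_add]
    rw [h]
    ring
  unfold ZQ at hs0
  simp only [Fin.sum_univ_three, Matrix.cons_val_zero, Matrix.cons_val_one, Matrix.cons_val] at hs0
  set w : Fin 4 → ℚ := ![s 0, s 0, s 1, s 2] with hw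
  have w0 : w 0 = s 0 := rfl
  have w1 : w 1 = s 0 := rfl
  have w2 : w 2 = s 1 := rfl
  have w3 : w 3 = s 2 := rfl
  have hwne : ∀ j, w j ≠ 0 := by
    intro j
    fin_cases j
    · exact e0
    · exact e0
    · exact e1
    · exact e2
  have hsp : s 0 ^ 3 ≠ 0 := pow_ne_zero 3 e0
  have hN' : NC ![c 0 * s 0 ^ 3, c 1 * s 0 ^ 3, c 2 * s 1 ^ 3 + c 3 * s 2 ^ 3] := by
    have k0 : c 2 * s 1 ^ 3 + c 3 * s 2 ^ 3 = -(c 0 + c 1) * s 0 ^ 3 := by
      linear_combination hs0
    rw [k0]
    refine NC_three ?_ ?_ ?_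
    · intro j
      fin_cases j
      · exact mul_ne_zero (h0 0) hsp
      · exact mul_ne_zero (h0 1) hsp
      · exact mul_ne_zero (neg_ne_zero.2 h01.1) hsp
    · rw [Fin.sum_univ_three]
      simp only [Matrix.cons_val_zero, Matrix.cons_val_one, Matrix.cons_val]
      ring
    · have g1 : c 0 * s 0 ^ 3 ≠ c 1 * s 0 ^ 3 := fun h => h01.2.1 (mul_right_cancel₀ hsp h)
      have g2 : c 0 * s 0 ^ 3 ≠ -(c 0 + c 1) * s 0 ^ 3 := fun h =>
        h01.2.2.1 (by linear_combination mul_right_cancel₀ hsp h)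
      have g3 : c 1 * s 0 ^ 3 ≠ -(c 0 + c 1) * s 0 ^ 3 := fun h =>
        h01.2.2.2 (by linear_combination mul_right_cancel₀ hsp h)
      intro i j hij
      fin_cases i <;> fin_cases j <;> first
        | rfl
        | exact absurd hij g1
        | exact absurd hij g2
        | exact absurd hij g3
        | exact absurd hij.symm g1
        | exact absurd hij.symm g2
        | exact absurd hij.symm g3
  obtain ⟨f, hf, hf'⟩ := ratio (c := c) (w := w) (k := 2) (l := 3) (by decide) hwne (by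
    refine NC.equiv (finSuccAboveEquiv (3 : Fin 4)) ?_
    convert hN' using 1
    funext i
    fin_cases i <;> rfl) hL hcon
  rw [w2, w3] at hf'
  exact e3 f hf hf'

/-- a scaled good matching `(0, 2)`, `(1, 3)` -/
lemma NC_match' {c w : Fin 4 → ℚ} (h0 : ∀ j, c j ≠ 0) (hw : ∀ j, w j ≠ 0) (hz : ZQ c w)
    (h02 : Gd (c 0 * w 0 ^ 3) (c 2 * w 2 ^ 3)) (h13 : Gd (c 1 * w 1 ^ 3) (c 3 * w 3 ^ 3)) :
    NC c := by
  refine NC.scale hw (NC.equiv (Equiv.swap 1 2) (NC_match (c := fun j =>
    c (Equiv.swap 1 2 j) * w (Equiv.swap 1 2 j) ^ 3) ?_ ?_ ?_ ?_))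
  · exact fun j => mul_ne_zero (h0 _) (pow_ne_zero 3 (hw _))
  · rw [← hz]
    exact Equiv.sum_comp (Equiv.swap 1 2) fun j => c j * w j ^ 3
  · exact h02
  · exact h13

/-- a good pair -/
lemma NC_good {c : Fin 4 → ℚ} (h0 : ∀ j, c j ≠ 0) (hs : ∑ j, c j = 0)
    (h01 : Gd (c 0) (c 1)) : NC c := by
  classical
  rw [Fin.sum_univ_four] at hs
  have h23 : c 2 + c 3 = -(c 0 + c 1) := by linear_combination hs
  have hN' : NC ![c 0, c 1, c 2 + c 3] := by
    rw [h23]
    refine NC_three ?_ ?_ ?_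
    · intro j
      fin_cases j
      · exact h0 0
      · exact h0 1
      · exact neg_ne_zero.2 h01.1
    · rw [Fin.sum_univ_three]
      simp only [Matrix.cons_val_zero, Matrix.cons_val_one, Matrix.cons_val]
      ring
    · have g1 : c 0 ≠ c 1 := h01.2.1
      have g2 : c 0 ≠ -(c 0 + c 1) := fun h => h01.2.2.1 (by linear_combination h)
      have g3 : c 1 ≠ -(c 0 + c 1) := fun h => h01.2.2.2 (by linear_combination h)
      intro i j hij
      fin_cases i <;> fin_cases j <;> first
        | rfl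
        | exact absurd hij g1
        | exact absurd hij g2
        | exact absurd hij g3
        | exact absurd hij.symm g1
        | exact absurd hij.symm g2
        | exact absurd hij.symm g3
  obtain ⟨B0, hB0⟩ := bad_fin (b := c 2) (h0 0)
  obtain ⟨B1, hB1⟩ := bad_fin (b := c 3) (h0 1)
  obtain ⟨s, hs0, hs'⟩ := hN' ({![1, 0, 0], ![0, 1, 0], ![0, 0, 1]} ∪
    (B0.image fun t => ![1, 0, -t]) ∪ B1.image fun t => ![0, 1, -t]) (by
    intro l hl
    simp only [Finset.mem_union, Finset.mem_insert, Finset.mem_singleton, Finset.mem_image] at hl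
    rcases hl with ((rfl | rfl | rfl) | ⟨f, -, rfl⟩) | ⟨f, -, rfl⟩
    · intro h; have := congrFun h 0; simp at this
    · intro h; have := congrFun h 1; simp at this
    · intro h; have := congrFun h 2; simp at this
    · intro h; have := congrFun h 0; simp at this
    · intro h; have := congrFun h 1; simp at this)
  have e0 : s 0 ≠ 0 := by
    have := hs' ![1, 0, 0] (by simp)
    simpa [Fin.sum_univ_three] using this
  have e1 : s 1 ≠ 0 := by
    have := hs' ![0, 1, 0] (by simp)
    simpa [Fin.sum_univ_three] using this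
  have e2 : s 2 ≠ 0 := by
    have := hs' ![0, 0, 1] (by simp)
    simpa [Fin.sum_univ_three] using this
  have e3 : ∀ t ∈ B0, s 0 ≠ t * s 2 := by
    intro t ht h
    have := hs' ![1, 0, -t] (Finset.mem_union_left _ (Finset.mem_union_right _
      (Finset.mem_image_of_mem _ ht)))
    apply this
    simp only [Fin.sum_univ_three, Matrix.cons_val_zero, Matrix.cons_val_one, Matrix.cons_val,
      zero_mul, one_mul]
    rw [h]
    ring
  have e4 : ∀ t ∈ B1, s 1 ≠ t * s 2 := by
    intro t ht h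
    have := hs' ![0, 1, -t] (Finset.mem_union_right _ (Finset.mem_image_of_mem _ ht))
    apply this
    simp only [Fin.sum_univ_three, Matrix.cons_val_zero, Matrix.cons_val_one, Matrix.cons_val,
      zero_mul, one_mul]
    rw [h]
    ring
  unfold ZQ at hs0
  simp only [Fin.sum_univ_three, Matrix.cons_val_zero, Matrix.cons_val_one, Matrix.cons_val] at hs0
  refine NC_match' (w := ![s 0, s 1, s 2, s 2]) h0 ?_ ?_ ?_ ?_
  · intro j
    fin_cases j
    · exact e0
    · exact e1
    · exact e2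
    · exact e2
  · unfold ZQ
    rw [Fin.sum_univ_four]
    simp only [Matrix.cons_val_zero, Matrix.cons_val_one, Matrix.cons_val]
    linear_combination hs0
  · exact hB0 _ _ e2 e3
  · exact hB1 _ _ e2 e4

/-- a vanishing sum of two terms -/
lemma NC_van {c : Fin 4 → ℚ} (h0 : ∀ j, c j ≠ 0) (hs : ∑ j, c j = 0)
    (h01 : c 0 + c 1 = 0) : NC c := by
  rw [Fin.sum_univ_four] at hs
  have h23 : c 2 + c 3 = 0 := by linear_combination hs - h01
  obtain ⟨B0, hB0⟩ := bad_fin (b := c 2) (h0 0)
  obtain ⟨B1, hB1⟩ := bad_fin (b := c 3) (h0 1)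
  obtain ⟨s, hs'⟩ := Infinite.exists_notMem_finset (({0} : Finset ℚ) ∪ B0 ∪ B1)
  simp only [Finset.mem_union, Finset.mem_singleton, not_or] at hs'
  obtain ⟨⟨g0, g1⟩, g2⟩ := hs'
  refine NC_match' (w := ![s, s, 1, 1]) h0 ?_ ?_ ?_ ?_
  · intro j
    fin_cases j
    · exact g0
    · exact g0
    · exact one_ne_zero
    · exact one_ne_zero
  · unfold ZQ
    rw [Fin.sum_univ_four]
    simp only [Matrix.cons_val_zero, Matrix.cons_val_one, Matrix.cons_val]
    linear_combination s ^ 3 * h01 + h23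
  · refine hB0 s 1 one_ne_zero ?_
    rintro t ht h
    rw [mul_one] at h
    exact g1 (by rw [h]; exact ht)
  · refine hB1 s 1 one_ne_zero ?_
    rintro t ht h
    rw [mul_one] at h
    exact g2 (by rw [h]; exact ht)

lemma not_gd {a b : ℚ} (h : ¬ Gd a b) : b = -a ∨ b = a ∨ b = -2 * a ∨ b = -a / 2 := by
  by_contra hcon
  push Not at hcon
  obtain ⟨h1, h2, h3, h4⟩ := hcon
  exact h ⟨fun h => h1 (by linear_combination h), fun h => h2 h.symm,
    fun h => h3 (by linear_combination h), fun h => h4 (by linear_combination h / 2)⟩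

/-- **Four terms.** -/
theorem NC_four {c : Fin 4 → ℚ} (h0 : ∀ j, c j ≠ 0) (hs : ∑ j, c j = 0) : NC c := by
  have key : ∀ σ : Equiv.Perm (Fin 4), Gd (c (σ 0)) (c (σ 1)) ∨ c (σ 0) + c (σ 1) = 0 → NC c := by
    intro σ h
    have h1 : ∀ j, c (σ j) ≠ 0 := fun j => h0 _
    have h2 : ∑ j, c (σ j) = 0 := by rw [← hs]; exact Equiv.sum_comp σ c
    refine NC.equiv σ ?_
    rcases h with h | h
    · exact NC_good h1 h2 h
    · exact NC_van h1 h2 h
  rcases em (Gd (c 0) (c 1)) with h1 | h1
  · exact key 1 (Or.inl h1)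
  rcases em (Gd (c 0) (c 2)) with h2 | h2
  · exact key (Equiv.swap 1 2) (Or.inl h2)
  rcases em (Gd (c 0) (c 3)) with h3 | h3
  · exact key (Equiv.swap 1 3) (Or.inl h3)
  by_cases v1 : c 0 + c 1 = 0
  · exact key 1 (Or.inr v1)
  by_cases v2 : c 0 + c 2 = 0
  · exact key (Equiv.swap 1 2) (Or.inr v2)
  by_cases v3 : c 0 + c 3 = 0
  · exact key (Equiv.swap 1 3) (Or.inr v3)
  exfalso
  rw [Fin.sum_univ_four] at hs
  have hc0 := h0 0
  have key2 : ∀ {b : ℚ}, ¬ Gd (c 0) b → ¬ c 0 + b = 0 → b = c 0 ∨ b = -2 * c 0 ∨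
      b = -c 0 / 2 := by
    intro b h h'
    rcases not_gd h with g | g
    · exact absurd (by rw [g]; ring) h'
    · exact g
  rcases key2 h1 v1 with g1 | g1 | g1 <;> rcases key2 h2 v2 with g2 | g2 | g2 <;>
    rcases key2 h3 v3 with g3 | g3 | g3 <;>
    · rw [g1, g2, g3] at hs
      apply hc0
      linarith

end Pool.Agent.J4H71.CB
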