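import Pool.Agent.J4H71.CB.P4

/-!
# Any number of terms (helper71)
-/

set_option autoImplicit false
set_option linter.unusedSectionVars false

namespace Pool.Agent.J4H71.CB

open Finset

/-- two indices without cancellation -/
lemma exists_pair {ι : Type} [Fintype ι] [DecidableEq ι] {x : ι → ℚ} (S : Finset ι)
    (hS : 3 ≤ S.card) (hx : ∀ j ∈ S, x j ≠ 0) : ∃ i ∈ S, ∃ j ∈ S, i ≠ j ∧ x i + x j ≠ 0 := by
  obtain ⟨a, b, c, ha, hb, hc, hab, hac, hbc⟩ := Finset.two_lt_card_iff.1 (by omega : 2 < S.card)
  by_contra hcon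
  push Not at hcon
  have h1 := hcon a ha b hb hab
  have h2 := hcon a ha c hc hac
  have h3 := hcon b hb c hc hbc
  apply hx a ha
  linarith

/-- linear forms in two variables -/
def e2 {κ : Type} [DecidableEq κ] (k l : κ) (u v : ℚ) : κ → ℚ := fun m =>
  (if m = k then u else 0) + (if m = l then v else 0)

lemma e2_sum {κ : Type} [Fintype κ] [DecidableEq κ] (k l : κ) (u v : ℚ) (s : κ → ℚ) :
    ∑ m, e2 k l u v m * s m = u * s k + v * s l := by
  simp only [e2, add_mul, ite_mul, zero_mul, Finset.sum_add_distrib, Finset.sum_ite_eq',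
    Finset.mem_univ, if_true]

lemma e2_ne {κ : Type} [DecidableEq κ] {k l : κ} (h : k ≠ l) {u v : ℚ} (hu : u ≠ 0) :
    e2 k l u v ≠ 0 := by
  intro h0
  have := congrFun h0 k
  simp only [e2, if_true, h, if_false, add_zero, Pi.zero_apply] at this
  exact hu this

/-- **Four or more terms.** -/
theorem NC_all : ∀ (n : ℕ) (ι : Type) [Fintype ι] [DecidableEq ι] (c : ι → ℚ),
    Fintype.card ι = n → 4 ≤ n → (∀ j, c j ≠ 0) → ∑ j, c j = 0 → NC c := by
  intro n
  induction n with
  | zero => intro ι _ _ c _ h; omega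
  | succ n ih =>
    intro ι _ _ c hcard hn h0 hs
    rcases (show n + 1 = 4 ∨ 4 ≤ n by omega) with h4 | h4
    · have e : Fin 4 ≃ ι := (Fintype.equivFinOfCardEq (by omega)).symm
      refine NC.equiv e (NC_four (fun j => h0 _) ?_)
      rw [← hs]
      exact Equiv.sum_comp e c
    · intro L hL
      by_contra hcon
      push Not at hcon
      obtain ⟨i, -, j, -, hij, hij0⟩ := exists_pair (x := c) Finset.univ
        (by rw [Finset.card_univ]; omega) fun j _ => h0 j
      obtain ⟨k, hk, l, hl, hkl⟩ : ∃ k ∈ (Finset.univ.erase i).erase j,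
          ∃ l ∈ (Finset.univ.erase i).erase j, k ≠ l := by
        apply Finset.one_lt_card.1
        rw [Finset.card_erase_of_mem (by simp [hij.symm]), Finset.card_erase_of_mem (by simp),
          Finset.card_univ]
        omega
      simp only [Finset.mem_erase, Finset.mem_univ, and_true] at hk hl
      have hcardj : ∀ m : ι, Fintype.card {x : ι // x ≠ m} = n := by
        intro m
        rw [Fintype.card_subtype_compl]
        simp [hcard]
      -- the merged form is not covered, at all good zeros
      have hmer : ∀ (a b : ι) (hab : a ≠ b) (w : ι → ℚ), (∀ j, w j ≠ 0) → ZQ c w →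
          c a * w a ^ 3 + c b * w b ^ 3 ≠ 0 →
          NC fun x : {m : ι // m ≠ b} => if x.1 = a then c a * w a ^ 3 + c b * w b ^ 3 else
            c x.1 * w x.1 ^ 3 := by
        intro a b hab w hw hz hne
        refine ih _ _ (hcardj b) h4 ?_ ?_
        · intro x
          split_ifs
          · exact hne
          · exact mul_ne_zero (h0 _) (pow_ne_zero 3 (hw _))
        · rw [← hz]
          calc _ = ∑ x : {m : ι // m ≠ b}, ∑ j, if mg a b hab j = x then c j * w j ^ 3 else 0 :=
                Finset.sum_congr rfl fun x _ => (mg_sum hab (fun j => c j * w j ^ 3) x).symm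
            _ = _ := by
                rw [Finset.sum_comm]
                exact Finset.sum_congr rfl fun m _ => by simp
      have hz1 : ZQ c fun _ => 1 := by simpa [ZQ] using hs
      have hN := hmer i j hij (fun _ => 1) (fun _ => one_ne_zero) hz1 (by simpa using hij0)
      simp only [one_pow, mul_one] at hN
      -- bad ratios
      obtain ⟨B, hB⟩ : ∃ B : Finset ℚ, ∀ x y : ℚ, y ≠ 0 → (∀ t ∈ B, x ≠ t * y) →
          c k * x ^ 3 + c l * y ^ 3 ≠ 0 := by
        obtain ⟨B, hB⟩ := bad_fin (b := c l) (h0 k)
        exact ⟨B, fun x y hy h => (hB x y hy h).1⟩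
      let kk : {x : ι // x ≠ j} := ⟨k, hk.1⟩
      let ll : {x : ι // x ≠ j} := ⟨l, hl.1⟩
      have hkl' : kk ≠ ll := fun h => hkl (congrArg Subtype.val h)
      let L1 : Finset ({x : ι // x ≠ j} → ℚ) := Finset.univ.image fun m p => if p = m then 1 else 0
      let L2 : Finset ({x : ι // x ≠ j} → ℚ) := L.image fun f => e2 kk ll 1 (f l / f k)
      let L3 : Finset ({x : ι // x ≠ j} → ℚ) := B.image fun t => e2 kk ll 1 (-t)
      obtain ⟨s, hs0, hs'⟩ := hN (L1 ∪ L2 ∪ L3) (by
        intro f hf
        simp only [L1, L2, L3, Finset.mem_union, Finset.mem_image, Finset.mem_univ,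
          true_and] at hf
        rcases hf with (⟨m, rfl⟩ | ⟨f, -, rfl⟩) | ⟨f, -, rfl⟩
        · intro h; have := congrFun h m; simp at this
        · exact e2_ne hkl' one_ne_zero
        · exact e2_ne hkl' one_ne_zero)
      have e1 : ∀ m, s m ≠ 0 := by
        intro m
        have := hs' _ (Finset.mem_union_left _ (Finset.mem_union_left _
          (Finset.mem_image_of_mem _ (Finset.mem_univ m))))
        simpa using this
      have e2 : ∀ f ∈ L, s ⟨k, hk.1⟩ ≠ -f l / f k * s ⟨l, hl.1⟩ := by
        intro f hf h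
        refine hs' _ (Finset.mem_union_left _ (Finset.mem_union_right _
          (Finset.mem_image_of_mem _ hf))) ?_
        rw [e2_sum, h]
        ring
      have e3 : ∀ t ∈ B, s ⟨k, hk.1⟩ ≠ t * s ⟨l, hl.1⟩ := by
        intro t ht h
        refine hs' _ (Finset.mem_union_right _ (Finset.mem_image_of_mem _ ht)) ?_
        rw [e2_sum, h]
        ring
      -- the zero
      set w : ι → ℚ := fun m => s (mg i j hij m) with hw
      have hwk : w k = s ⟨k, hk.1⟩ := by simp only [hw, mg, hk.1, dif_neg, not_false_eq_true]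
      have hwl : w l = s ⟨l, hl.1⟩ := by simp only [hw, mg, hl.1, dif_neg, not_false_eq_true]
      have hwz : ZQ c w := by
        have h1 := fun x => mg_sum hij c x
        unfold ZQ at hs0 ⊢
        simp only [← h1] at hs0
        rw [← hs0]
        simp only [Finset.sum_mul, ite_mul, zero_mul]
        rw [Finset.sum_comm]
        refine Finset.sum_congr rfl fun m _ => ?_
        simp [hw]
      obtain ⟨f, hf, hf'⟩ := ratio hkl (c := c) (w := w) (fun m => e1 _)
        (hmer k l hkl w (fun m => e1 _) hwz (by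
          rw [hwk, hwl]
          exact hB _ _ (e1 _) e3)) hL hcon
      rw [hwk, hwl] at hf'
      exact e2 f hf hf'

/-- **Leaving the coordinate hyperplanes.** -/
theorem full_supp {ι : Type} [Fintype ι] [DecidableEq ι] {c : ι → ℚ} (h0 : ∀ j, c j ≠ 0) :
    ∀ (n : ℕ) (q : ι → ℚ), (Finset.univ.filter fun j => q j = 0).card = n → ZQ c q →
      3 ≤ (Finset.univ.filter fun j => q j ≠ 0).card → ∃ w, ZQ c w ∧ ∀ j, w j ≠ 0 := by
  intro n
  induction n with
  | zero =>
    intro q hn hz _
    refine ⟨q, hz, fun j hj => ?_⟩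
    have : j ∈ Finset.univ.filter fun j => q j = 0 := by simp [hj]
    rw [Finset.card_eq_zero.1 hn] at this
    simp at this
  | succ n ih =>
    intro q hn hz h3
    obtain ⟨j, hj⟩ : ∃ j, q j = 0 := by
      have : 0 < (Finset.univ.filter fun j => q j = 0).card := by omega
      obtain ⟨j, hj⟩ := Finset.card_pos.1 this
      exact ⟨j, by simpa using hj⟩
    obtain ⟨i, hi, k, hk, hik, hne⟩ := exists_pair (x := fun j => c j * q j ^ 3)
      (Finset.univ.filter fun j => q j ≠ 0) h3 (fun j hj => by
        simp only [Finset.mem_filter, Finset.mem_univ, true_and] at hj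
        exact mul_ne_zero (h0 j) (pow_ne_zero 3 hj))
    simp only [Finset.mem_filter, Finset.mem_univ, true_and] at hi hk
    have hji : j ≠ i := fun h => hi (h ▸ hj)
    have hjk : j ≠ k := fun h => hk (h ▸ hj)
    set S2 : ℚ := 1 / (c i * q i ^ 3) + 1 / (c k * q k ^ 3) with hS2
    set S3 : ℚ := 1 / (c i * q i ^ 3) ^ 2 - 1 / (c k * q k ^ 3) ^ 2 with hS3
    have hci := h0 i
    have hck := h0 k
    have hS2' : S2 ≠ 0 := by
      rw [hS2]
      have : 1 / (c i * q i ^ 3) + 1 / (c k * q k ^ 3) =
          (c i * q i ^ 3 + c k * q k ^ 3) / ((c i * q i ^ 3) * (c k * q k ^ 3)) := by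
        field_simp
        ring
      rw [this]
      exact div_ne_zero hne (mul_ne_zero (mul_ne_zero hci (pow_ne_zero 3 hi))
        (mul_ne_zero hck (pow_ne_zero 3 hk)))
    -- a good parameter
    obtain ⟨m, hm⟩ := Infinite.exists_notMem_finset (({0} : Finset ℚ) ∪
      (if hS : S3 ≠ 0 then (pre_fin hS (S := ({-c j} : Set ℚ)) (by simp)).toFinset else ∅) ∪
      (if hS : q i * S3 - 3 * S2 / (c i * q i ^ 2) ≠ 0 then
        (pre_fin hS (S := ({-(c j * q i)} : Set ℚ)) (by simp)).toFinset else ∅) ∪
      (if hS : q k * S3 + 3 * S2 / (c k * q k ^ 2) ≠ 0 then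
        (pre_fin hS (S := ({-(c j * q k)} : Set ℚ)) (by simp)).toFinset else ∅))
    simp only [Finset.mem_union, Finset.mem_singleton, not_or] at hm
    obtain ⟨⟨⟨m0, m1⟩, m2⟩, m3⟩ := hm
    have g1 : m ^ 3 * S3 + c j ≠ 0 := by
      intro h
      by_cases hS : S3 ≠ 0
      · rw [dif_pos hS, Set.Finite.mem_toFinset] at m1
        apply m1
        change S3 * m ^ 3 ∈ ({-c j} : Set ℚ)
        rw [Set.mem_singleton_iff]
        linear_combination h
      · push Not at hS
        rw [hS, mul_zero, zero_add] at h
        exact h0 j h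
    have g2 : q i * (m ^ 3 * S3 + c j) - 3 * m ^ 3 * S2 / (c i * q i ^ 2) ≠ 0 := by
      intro h
      by_cases hS : q i * S3 - 3 * S2 / (c i * q i ^ 2) ≠ 0
      · rw [dif_pos hS, Set.Finite.mem_toFinset] at m2
        apply m2
        change (q i * S3 - 3 * S2 / (c i * q i ^ 2)) * m ^ 3 ∈ ({-(c j * q i)} : Set ℚ)
        rw [Set.mem_singleton_iff]
        linear_combination h
      · push Not at hS
        have : c j * q i = 0 := by linear_combination h - m ^ 3 * hS
        rcases mul_eq_zero.1 this with h' | h'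
        · exact h0 j h'
        · exact hi h'
    have g3 : q k * (m ^ 3 * S3 + c j) + 3 * m ^ 3 * S2 / (c k * q k ^ 2) ≠ 0 := by
      intro h
      by_cases hS : q k * S3 + 3 * S2 / (c k * q k ^ 2) ≠ 0
      · rw [dif_pos hS, Set.Finite.mem_toFinset] at m3
        apply m3
        change (q k * S3 + 3 * S2 / (c k * q k ^ 2)) * m ^ 3 ∈ ({-(c j * q k)} : Set ℚ)
        rw [Set.mem_singleton_iff]
        linear_combination h
      · push Not at hS
        have : c j * q k = 0 := by linear_combination h - m ^ 3 * hS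
        rcases mul_eq_zero.1 this with h' | h'
        · exact h0 j h'
        · exact hk h'
    -- the new zero
    set A : ℚ := m ^ 3 * S3 + c j with hA
    set q' : ι → ℚ := fun x => if x = j then -3 * m ^ 2 * S2 else
      if x = i then q i * A - 3 * m ^ 3 * S2 / (c i * q i ^ 2) else
      if x = k then q k * A + 3 * m ^ 3 * S2 / (c k * q k ^ 2) else q x * A with hq'
    have hqj : q' j = -3 * m ^ 2 * S2 := by simp [hq']
    have hqi : q' i = q i * A - 3 * m ^ 3 * S2 / (c i * q i ^ 2) := by
      simp [hq', hji.symm]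
    have hqk : q' k = q k * A + 3 * m ^ 3 * S2 / (c k * q k ^ 2) := by
      simp [hq', hjk.symm, hik.symm]
    have hqx : ∀ x, x ≠ j → x ≠ i → x ≠ k → q' x = q x * A := by
      intro x h1 h2 h3
      simp [hq', h1, h2, h3]
    have hz' : ZQ c q' := by
      have hsplit : ∀ f : ι → ℚ, ∑ x, f x = f j + f i + f k +
          ∑ x ∈ ((Finset.univ.erase j).erase i).erase k, f x := by
        intro f
        rw [← Finset.add_sum_erase _ f (Finset.mem_univ j),
          ← Finset.add_sum_erase _ f (show i ∈ Finset.univ.erase j by simp [hji.symm]),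
          ← Finset.add_sum_erase _ f (show k ∈ (Finset.univ.erase j).erase i by
            simp [hjk.symm, hik.symm])]
        ring
      unfold ZQ at hz ⊢
      rw [hsplit] at hz ⊢
      have hrest : ∑ x ∈ ((Finset.univ.erase j).erase i).erase k, c x * q' x ^ 3 =
          A ^ 3 * ∑ x ∈ ((Finset.univ.erase j).erase i).erase k, c x * q x ^ 3 := by
        rw [Finset.mul_sum]
        refine Finset.sum_congr rfl fun x hx => ?_
        simp only [Finset.mem_erase, Finset.mem_univ, and_true] at hx
        rw [hqx x hx.2.2 hx.2.1 hx.1]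
        ring
      rw [hrest, hqj, hqi, hqk]
      set R := ∑ x ∈ ((Finset.univ.erase j).erase i).erase k, c x * q x ^ 3
      have hR : R = -(c i * q i ^ 3 + c k * q k ^ 3) := by
        rw [hj] at hz
        linear_combination hz
      rw [hR]
      have k1 : c i * (q i * A - 3 * m ^ 3 * S2 / (c i * q i ^ 2)) ^ 3 = c i * q i ^ 3 * A ^ 3 -
          9 * m ^ 3 * S2 * A ^ 2 + 27 * m ^ 6 * S2 ^ 2 * A / (c i * q i ^ 3) -
          27 * m ^ 9 * S2 ^ 3 / (c i * q i ^ 3) ^ 2 := by
        field_simp
        ring
      have k2 : c k * (q k * A + 3 * m ^ 3 * S2 / (c k * q k ^ 2)) ^ 3 = c k * q k ^ 3 * A ^ 3 +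
          9 * m ^ 3 * S2 * A ^ 2 + 27 * m ^ 6 * S2 ^ 2 * A / (c k * q k ^ 3) +
          27 * m ^ 9 * S2 ^ 3 / (c k * q k ^ 3) ^ 2 := by
        field_simp
        ring
      rw [k1, k2]
      have k3 : 1 / (c i * q i ^ 3) = S2 - 1 / (c k * q k ^ 3) := by rw [hS2]; ring
      have k4 : 1 / (c i * q i ^ 3) ^ 2 = S3 + 1 / (c k * q k ^ 3) ^ 2 := by rw [hS3]; ring
      have k5 : c j = A - m ^ 3 * S3 := by rw [hA]; ring
      linear_combination (27 * m ^ 6 * S2 ^ 2 * A) * k3 - (27 * m ^ 9 * S2 ^ 3) * k4 +
        (-3 * m ^ 2 * S2) ^ 3 * k5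
    have hzero : (Finset.univ.filter fun x => q' x = 0) =
        (Finset.univ.filter fun x => q x = 0).erase j := by
      ext x
      simp only [Finset.mem_filter, Finset.mem_univ, true_and, Finset.mem_erase]
      by_cases hxj : x = j
      · subst hxj
        rw [hqj]
        simp [m0, hS2']
      · by_cases hxi : x = i
        · subst hxi
          rw [hqi]
          exact ⟨fun h => absurd h g2, fun h => absurd h.2 hi⟩
        · by_cases hxk : x = k
          · subst hxk
            rw [hqk]
            exact ⟨fun h => absurd h g3, fun h => absurd h.2 hk⟩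
          · rw [hqx x hxj hxi hxk]
            rw [mul_eq_zero]
            exact ⟨fun h => ⟨hxj, h.resolve_right g1⟩, fun h => Or.inl h.2⟩
    refine ih q' ?_ hz' ?_
    · rw [hzero, Finset.card_erase_of_mem (by simp [hj]), hn]
      rfl
    · refine h3.trans (Finset.card_le_card ?_)
      intro x hx
      simp only [Finset.mem_filter, Finset.mem_univ, true_and] at hx ⊢
      intro h
      have : x ∈ Finset.univ.filter fun x => q' x = 0 := by simp [h]
      rw [hzero] at this
      simp only [Finset.mem_erase, Finset.mem_filter, Finset.mem_univ, true_and] at this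
      exact hx this.2

/-- **The rational zeros of a diagonal cubic form are not covered by finitely many hyperplanes**, if
there is one with at least three nonzero coordinates; for three variables the three terms have to
be distinct. -/
theorem NC_of {ι : Type} [Fintype ι] [DecidableEq ι] {c q : ι → ℚ} (h0 : ∀ j, c j ≠ 0)
    (hz : ZQ c q) (h3 : 3 ≤ (Finset.univ.filter fun j => q j ≠ 0).card)
    (hinj : Fintype.card ι = 3 → Function.Injective fun j => c j * q j ^ 3) : NC c := by
  have hcard : 3 ≤ Fintype.card ι := h3.trans (Finset.card_le_univ _)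
  rcases (show Fintype.card ι = 3 ∨ 4 ≤ Fintype.card ι by omega) with h | h
  · have hq : ∀ j, q j ≠ 0 := by
      intro j
      have : (Finset.univ.filter fun j => q j ≠ 0) = Finset.univ := by
        apply Finset.eq_univ_of_card
        exact le_antisymm (Finset.card_le_univ _) (by omega)
      have hj : j ∈ Finset.univ.filter fun j => q j ≠ 0 := by rw [this]; simp
      simpa using hj
    refine NC.scale hq ?_
    have e : Fin 3 ≃ ι := (Fintype.equivFinOfCardEq h).symm
    refine NC.equiv e (NC_three (fun j => mul_ne_zero (h0 _) (pow_ne_zero 3 (hq _))) ?_ ?_)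
    · rw [← hz]
      exact Equiv.sum_comp e fun j => c j * q j ^ 3
    · exact (hinj h).comp e.injective
  · obtain ⟨w, hw, hw0⟩ := full_supp h0 _ q rfl hz h3
    exact NC.scale hw0 (NC_all _ ι _ rfl h (fun j => mul_ne_zero (h0 _) (pow_ne_zero 3 (hw0 _))) hw)

end Pool.Agent.J4H71.CB
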