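import Pool.Agent.J4H71.CB.Opn
import Pool.Agent.J4H71.CB.Den

/-!
# The pieces (helper71)
-/

set_option autoImplicit false
set_option linter.unusedSectionVars false

namespace Pool.Agent.J4H71.CB

open Set Filter Topology Pool.Agent.J4H71.PC Pool.Agent.H581R2 Pool.Agent.TH729.SQ

variable {κ : Type} [Fintype κ] {b : κ → κ → κ → ℚ} {V : Submodule ℚ (κ → ℚ)}

/-- stable under nonzero rational multiples -/
def Scl (N : Set (κ → ℚ)) : Prop := ∀ t : ℚ, t ≠ 0 → ∀ x ∈ N, t • x ∈ N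

/-- admissible sets with pieces which are stable under multiplication -/
def AdmF (b : κ → κ → κ → ℚ) (N : Set (κ → ℚ)) : Prop :=
  ∃ (A : Type) (_ : Finite A) (N' : A → Set (κ → ℚ)) (W : A → Set (κ → ℝ)),
    N = ⋃ α, N' α ∧ ∀ α, Piece (fun _ : Unit => 3) (fun _ => pol b) (N' α) (W α) ∧ Scl (N' α)

section general

lemma adm_piece' {R : Type} {n : R → ℕ} {h : R → MvPolynomial κ ℚ} {N : Set (κ → ℚ)}
    {W : Set (κ → ℝ)} (H : Piece n h N W) : Adm n h N :=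
  ⟨Unit, inferInstance, fun _ => N, fun _ => W, (iUnion_const _).symm, fun _ => H⟩

lemma adm_union' {R : Type} {n : R → ℕ} {h : R → MvPolynomial κ ℚ} {N₁ N₂ : Set (κ → ℚ)}
    (H₁ : Adm n h N₁) (H₂ : Adm n h N₂) : Adm n h (N₁ ∪ N₂) := by
  obtain ⟨A, hA, N', W, hN, hP⟩ := H₁
  obtain ⟨A', hA', N'', W', hN', hP'⟩ := H₂
  refine ⟨A ⊕ A', inferInstance, Sum.elim N' N'', Sum.elim W W', ?_, ?_⟩
  · rw [hN, hN', iUnion_sum]
    rfl
  · rintro (α | α)
    · exact hP α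
    · exact hP' α

lemma adm_empty : AdmF b (∅ : Set (κ → ℚ)) :=
  ⟨Empty, inferInstance, fun e => e.elim, fun e => e.elim, by simp, fun e => e.elim⟩

lemma adm_piece {N : Set (κ → ℚ)} {W : Set (κ → ℝ)}
    (H : Piece (fun _ : Unit => 3) (fun _ => pol b) N W) (hs : Scl N) : AdmF b N :=
  ⟨Unit, inferInstance, fun _ => N, fun _ => W, (iUnion_const _).symm, fun _ => ⟨H, hs⟩⟩

lemma adm_iUnion {ι : Type} [Finite ι] {N : ι → Set (κ → ℚ)} (H : ∀ i, AdmF b (N i)) :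
    AdmF b (⋃ i, N i) := by
  choose A hA N' W hN hP using H
  refine ⟨Σ i, A i, inferInstance, fun p => N' p.1 p.2, fun p => W p.1 p.2, ?_,
    fun p => hP p.1 p.2⟩
  rw [iUnion_sigma]
  exact iUnion_congr fun i => hN i

lemma adm_union {N₁ N₂ : Set (κ → ℚ)} (H₁ : AdmF b N₁) (H₂ : AdmF b N₂) :
    AdmF b (N₁ ∪ N₂) := by
  rw [union_eq_iUnion]
  exact adm_iUnion fun c => by cases c <;> assumption

end general

/-- the main part -/
def Nm (b : κ → κ → κ → ℚ) (V : Submodule ℚ (κ → ℚ)) : Set (κ → ℚ) :=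
  {z | z ∈ V ∧ cub b z ≠ 0 ∧ ∃ w ∈ V, dd b z w ≠ 0}

/-- the main part -/
def Wm (b : κ → κ → κ → ℚ) (C : Crd V) : Set (κ → ℝ) :=
  {x | x ∈ C.sp ∧ cub b x ≠ 0 ∧ ∃ w, w ∈ C.sp ∧ dd b x w ≠ 0}

lemma cub_PF : PF (fun x : κ → ℝ => cub b x) := ⟨pol b, fun x => (aeval_pol b x).symm⟩

lemma dd_PF : PF (fun v : κ ⊕ κ → ℝ => dd b (fun i => v (Sum.inr i)) fun i => v (Sum.inl i)) := by
  refine ⟨dd b (fun i => MvPolynomial.X (Sum.inr i)) fun i => MvPolynomial.X (Sum.inl i),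
    fun v => ?_⟩
  have := dd_map b (MvPolynomial.aeval v : MvPolynomial (κ ⊕ κ) ℚ →ₐ[ℚ] ℝ)
    (fun i => MvPolynomial.X (Sum.inr i)) (fun i => MvPolynomial.X (Sum.inl i))
  simp only [MvPolynomial.aeval_X] at this
  exact this.symm

lemma Wm_SA (C : Crd V) : SA (Wm b C) := by
  refine SAP.and C.sp_SA (SAP.and (SAP.not (SAP.eq_zero cub_PF)) ?_)
  have h1 : SAP fun v : κ ⊕ κ → ℝ => (fun i => v (Sum.inl i)) ∈ C.sp ∧
      dd b (fun i => v (Sum.inr i)) (fun i => v (Sum.inl i)) ≠ 0 :=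
    SAP.and (SAP.preimage (p := fun v => v ∈ C.sp) C.sp_SA fun i => PF.coord _)
      (SAP.not (SAP.eq_zero dd_PF))
  exact SAP.exists_fun κ κ _ h1

theorem piece_main (hb : Sy b) (C : Crd V) :
    Piece (fun _ : Unit => 3) (fun _ => pol b) (Nm b V) (Wm b C) := by
  refine ⟨Wm_SA C, ?_, ?_, ?_⟩
  · rintro z ⟨h1, h2, w, hw, h3⟩
    refine ⟨C.rv_mem h1, ?_, rv w, C.rv_mem hw, ?_⟩
    · have : cub b (rv z) = ((cub b z : ℚ) : ℝ) := (cub_cast b z).symm
      change cub b (rv z) ≠ 0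
      rw [this]
      exact_mod_cast h2
    · change dd b (rv z) (rv w) ≠ 0
      rw [← dd_cast]
      exact_mod_cast h3
  · intro _
    left
    rintro x ⟨-, h2, -⟩
    rw [aeval_pol]
    exact h2
  · rintro z ⟨hz1, hz2, hz3⟩ x ⟨hx1, hx2, hx3⟩ hx
    have h1 := open_main hb C (K := cls (fun _ : Unit => 3) (fun _ => pol b) (Nm b V) z)
      (fun y hy => hy.1.1) (by
        rintro z₁ ⟨⟨h1, h2, h3⟩, h4⟩ z' hz' hPS hw
        refine ⟨⟨hz', ?_, hw⟩, fun r => ?_⟩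
        · intro h0
          exact h2 (hPS.eq_zero_iff.2 h0)
        · have := h4 r
          rw [eval_pol, eval_pol] at this ⊢
          exact this.trans hPS) hx hx2 hx3
    rw [mem_nhdsWithin_iff_eventually]
    filter_upwards [h1] with y hy hyW
    exact hy hyW.1

lemma hh_smul (t : ℚ) (z w : κ → ℚ) : hh b (t • z) w = t ^ 4 * hh b z w := by
  unfold hh H0
  rw [cub_smul, tri_smul1, tri_smul1, tri_smul2]
  ring

lemma gg_smul (t : ℚ) (z w : κ → ℚ) : gg b (t • z) w = t ^ 6 * gg b z w := by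
  unfold gg G0
  rw [cub_smul, tri_smul1, tri_smul1, tri_smul2]
  ring

lemma dd_smul_ne {t : ℚ} (ht : t ≠ 0) {z w : κ → ℚ} (h : dd b z w ≠ 0) : dd b (t • z) w ≠ 0 := by
  intro h0
  apply h
  unfold dd at h0 ⊢
  rcases mul_eq_zero.1 h0 with h1 | h1
  · rcases mul_eq_zero.1 h1 with h2 | h2
    · rw [h2]; ring
    · rw [gg_smul] at h2
      rw [(mul_eq_zero.1 h2).resolve_left (pow_ne_zero 6 ht)]
      ring
  · obtain ⟨r, hr, h2⟩ := Finset.prod_eq_zero_iff.1 h1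
    refine mul_eq_zero_of_right _ (Finset.prod_eq_zero hr ?_)
    rw [hh_smul, gg_smul] at h2
    have h3 : t ^ 12 * (4 * hh b z w ^ 3 + algebraMap ℚ ℚ r * gg b z w ^ 2) = 0 := by
      linear_combination h2
    exact (mul_eq_zero.1 h3).resolve_left (pow_ne_zero 12 ht)

lemma Nm_scl (b : κ → κ → κ → ℚ) (V : Submodule ℚ (κ → ℚ)) : Scl (Nm b V) := by
  rintro t ht x ⟨h1, h2, w, hw, h3⟩
  refine ⟨V.smul_mem _ h1, ?_, w, hw, dd_smul_ne ht h3⟩
  rw [cub_smul]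
  exact mul_ne_zero (pow_ne_zero 3 ht) h2

/-- the zeros -/
theorem adm_zero {d : ℕ} {F : MvPolynomial (Fin d) ℚ} (hF : F.totalDegree ≤ 3) :
    Adm (fun _ : Unit => 3) (fun _ => F) {z | MvPolynomial.eval z F = 0} := by
  have hSA : SA (closure (rl {z : Fin d → ℚ | MvPolynomial.eval z F = 0})) := by
    have := Pool.Agent.TH729.CC.affine_SA (Rat.castHom ℝ) (fun r => by
      exact isAlgebraic_algebraMap r) F hF
    convert this using 2
    ext x
    constructor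
    · rintro ⟨z, hz, rfl⟩
      exact ⟨z, hz, rfl⟩
    · rintro ⟨z, hz, rfl⟩
      exact ⟨z, hz, rfl⟩
  refine adm_piece' (W := closure (rl {z : Fin d → ℚ | MvPolynomial.eval z F = 0}))
    ⟨hSA, ?_, ?_, ?_⟩
  · intro z hz
    exact subset_closure ⟨z, hz, rfl⟩
  · intro _
    right
    intro x hx
    have h1 : IsClosed {x : Fin d → ℝ | (MvPolynomial.aeval x F : ℝ) = 0} :=
      isClosed_eq (PF.continuous ⟨F, fun _ => rfl⟩) continuous_const
    refine h1.closure_subset_iff.2 ?_ hx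
    rintro _ ⟨z, hz, rfl⟩
    change (MvPolynomial.aeval (fun i => ((z i : ℚ) : ℝ)) F : ℝ) = 0
    rw [aeval_cast]
    have : MvPolynomial.eval z F = 0 := hz
    rw [this, Rat.cast_zero]
  · intro z hz x hx _
    have h1 : cls (fun _ : Unit => 3) (fun _ => F) {z | MvPolynomial.eval z F = 0} z =
        {z | MvPolynomial.eval z F = 0} := by
      ext z'
      constructor
      · exact fun h => h.1
      · intro h
        refine ⟨h, fun _ => ?_⟩
        have e1 : MvPolynomial.eval z F = 0 := hz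
        have e2 : MvPolynomial.eval z' F = 0 := h
        rw [e1, e2]
        exact PS.refl _ _
    rw [h1]
    exact self_mem_nhdsWithin

/-- the nonzero values in a subspace -/
def Nz (b : κ → κ → κ → ℚ) (V : Submodule ℚ (κ → ℚ)) : Set (κ → ℚ) := {z | z ∈ V ∧ cub b z ≠ 0}

lemma Nz_scl (b : κ → κ → κ → ℚ) (V : Submodule ℚ (κ → ℚ)) : Scl (Nz b V) := by
  rintro t ht x ⟨h1, h2⟩
  refine ⟨V.smul_mem _ h1, ?_⟩
  rw [cub_smul]
  exact mul_ne_zero (pow_ne_zero 3 ht) h2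

/-- a dense class -/
lemma adm_dense (C : Crd V) (H : ∀ z ∈ V, cub b z ≠ 0 → ∀ y ∈ C.sp, cub b y ≠ 0 →
    y ∈ closure (rl {z' | z' ∈ V ∧ PS 3 (cub b z) (cub b z')})) : AdmF b (Nz b V) := by
  refine adm_piece (W := {x | x ∈ C.sp ∧ cub b x ≠ 0}) ⟨?_, ?_, ?_, ?_⟩ (Nz_scl b V)
  · exact SAP.and C.sp_SA (SAP.not (SAP.eq_zero cub_PF))
  · rintro z ⟨h1, h2⟩
    refine ⟨C.rv_mem h1, ?_⟩
    change cub b (rv z) ≠ 0
    have : cub b (rv z) = ((cub b z : ℚ) : ℝ) := (cub_cast b z).symm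
    rw [this]
    exact_mod_cast h2
  · intro _
    left
    rintro x ⟨-, h2⟩
    rw [aeval_pol]
    exact h2
  · rintro z ⟨hz1, hz2⟩ x _ _
    have h1 : cls (fun _ : Unit => 3) (fun _ => pol b) (Nz b V) z =
        {z' | z' ∈ V ∧ PS 3 (cub b z) (cub b z')} := by
      ext z'
      constructor
      · rintro ⟨⟨h1, h2⟩, h3⟩
        have := h3 ()
        rw [eval_pol, eval_pol] at this
        exact ⟨h1, this⟩
      · rintro ⟨h1, h2⟩
        refine ⟨⟨h1, fun h0 => hz2 (h2.eq_zero_iff.2 h0)⟩, fun _ => ?_⟩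
        rw [eval_pol, eval_pol]
        exact h2
    rw [h1]
    refine mem_of_superset self_mem_nhdsWithin ?_
    rintro y ⟨hy1, hy2⟩
    exact H z hz1 hz2 y hy1 hy2

end Pool.Agent.J4H71.CB
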