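import Pool.Agent.J4H71.CB.Full

/-!
# Polynomials of degree at most three are admissible (helper71)
-/

set_option autoImplicit false
set_option linter.unusedSectionVars false

namespace Pool.Agent.J4H71.CB

open Set Filter Topology Pool.Agent.J4H71.PC Pool.Agent.H581R2 Pool.Agent.TH729.SQ

section slice

variable {κ : Type} [Fintype κ]

/-- the vector with an additional coordinate -/
def opt {R : Type} (s : R) (x : κ → R) : Option κ → R := fun o => o.elim s x

lemma opt_cont : Continuous fun x : κ → ℝ => opt (1 : ℝ) x := by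
  refine continuous_pi fun o => ?_
  rcases o with _ | k
  · exact continuous_const
  · exact continuous_apply k

lemma rv_opt (x : κ → ℚ) : rv (opt 1 x) = opt 1 (rv x) := by
  funext o
  rcases o with _ | k
  · simp [rv, opt]
  · rfl

/-- the homogenization -/
lemma exists_hom {f : MvPolynomial κ ℚ} (hf : f.totalDegree ≤ 3) :
    ∃ b : Option κ → Option κ → Option κ → ℚ, Sy b ∧
      ∀ x : κ → ℚ, MvPolynomial.eval x f = cub b (opt 1 x) := by
  classical
  set F : MvPolynomial (Option κ) ℚ := ∑ m ∈ f.support, MvPolynomial.C (f.coeff m) *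
    MvPolynomial.X none ^ (3 - m.degree) * MvPolynomial.rename some (MvPolynomial.monomial m 1) with hF
  have hhom : F.IsHomogeneous 3 := by
    refine MvPolynomial.IsHomogeneous.sum _ _ _ fun m hm => ?_
    have h1 : m.degree ≤ 3 := by
      have := MvPolynomial.le_totalDegree hm
      rw [Finsupp.degree_apply]
      exact this.trans hf
    have h2 := ((MvPolynomial.isHomogeneous_C (Option κ) (f.coeff m)).mul
      ((MvPolynomial.isHomogeneous_X ℚ (none : Option κ)).pow (3 - m.degree))).mul
      ((MvPolynomial.isHomogeneous_monomial (σ := κ) (1 : ℚ) (rfl : m.degree = m.degree)).rename_isHomogeneous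
        (f := (some : κ → Option κ)))
    have h3 : 0 + 1 * (3 - m.degree) + m.degree = 3 := by omega
    rw [h3] at h2
    exact h2
  obtain ⟨b, hb, hbF⟩ := exists_tri hhom
  refine ⟨b, hb, fun x => ?_⟩
  rw [← hbF, hF, map_sum, MvPolynomial.eval_eq]
  refine Finset.sum_congr rfl fun m _ => ?_
  rw [map_mul, map_mul, MvPolynomial.eval_C, map_pow, MvPolynomial.eval_X,
    MvPolynomial.eval_rename, MvPolynomial.eval_monomial]
  have e1 : (opt 1 x : Option κ → ℚ) none = 1 := rfl
  rw [e1, one_pow, mul_one, one_mul]
  rfl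

/-- **Slices.** -/
theorem adm_slice {b : Option κ → Option κ → Option κ → ℚ} {f : MvPolynomial κ ℚ}
    (hf : ∀ x : κ → ℚ, MvPolynomial.eval x f = cub b (opt 1 x)) (H : AdmF b (Nz b ⊤)) :
    Adm (fun _ : Unit => 3) (fun _ => f) {x | MvPolynomial.eval x f ≠ 0} := by
  obtain ⟨A, hA, N', W, hN, hP⟩ := H
  have hfR : ∀ x : κ → ℝ, (MvPolynomial.aeval x f : ℝ) = cub b (opt 1 x) := by
    intro x
    set G : MvPolynomial κ ℚ := cub b (opt 1 MvPolynomial.X) with hG
    have h1 : ∀ y : κ → ℚ, MvPolynomial.eval y G = cub b (opt 1 y) := by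
      intro y
      have := tri_map b (MvPolynomial.aeval y : MvPolynomial κ ℚ →ₐ[ℚ] ℚ) (opt 1 MvPolynomial.X)
        (opt 1 MvPolynomial.X) (opt 1 MvPolynomial.X)
      have e : (fun i => MvPolynomial.aeval y (opt 1 MvPolynomial.X i : MvPolynomial κ ℚ) :
          Option κ → ℚ) = opt 1 y := by
        funext o
        rcases o with _ | k
        · simp [opt]
        · simp [opt]
      rw [e] at this
      rw [MvPolynomial.aeval_eq_eval] at this
      exact this
    have h2 : f = G := MvPolynomial.funext fun y => by rw [hf, h1]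
    rw [h2]
    have := tri_map b (MvPolynomial.aeval x : MvPolynomial κ ℚ →ₐ[ℚ] ℝ) (opt 1 MvPolynomial.X)
      (opt 1 MvPolynomial.X) (opt 1 MvPolynomial.X)
    have e : (fun i => MvPolynomial.aeval x (opt 1 MvPolynomial.X i : MvPolynomial κ ℚ) :
        Option κ → ℝ) = opt 1 x := by
      funext o
      rcases o with _ | k
      · simp [opt]
      · simp [opt]
    rw [e] at this
    exact this
  refine ⟨A, hA, fun α => {x | opt 1 x ∈ N' α}, fun α => {x | opt 1 x ∈ W α}, ?_, fun α => ?_⟩
  · ext x
    rw [mem_iUnion]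
    have h1 : opt 1 x ∈ Nz b ⊤ ↔ MvPolynomial.eval x f ≠ 0 := by
      rw [hf]
      exact ⟨fun h => h.2, fun h => ⟨Submodule.mem_top, h⟩⟩
    change MvPolynomial.eval x f ≠ 0 ↔ _
    rw [← h1, hN, mem_iUnion]
    rfl
  · obtain ⟨hPα, hS⟩ := hP α
    refine ⟨?_, ?_, ?_, ?_⟩
    · refine SAP.preimage (p := fun v => v ∈ W α) hPα.sa (φ := fun x : κ → ℝ => opt 1 x) fun o => ?_
      rcases o with _ | k
      · exact PF.one
      · exact PF.coord k
    · intro z hz
      change opt 1 (rv z) ∈ W α
      rw [← rv_opt]
      exact hPα.sub _ hz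
    · intro r
      rcases hPα.sign r with h1 | h1
      · left
        intro x hx
        have := h1 _ hx
        rw [aeval_pol] at this
        rwa [hfR]
      · right
        intro x hx
        have := h1 _ hx
        rw [aeval_pol] at this
        rwa [hfR]
    · intro z hz x hx hxc
      set K := cls (fun _ : Unit => 3) (fun _ => f) {x | opt 1 x ∈ N' α} z with hK
      set K' := cls (fun _ : Unit => 3) (fun _ => pol b) (N' α) (opt 1 z) with hK'
      have hmap : ∀ y ∈ rl K, opt 1 y ∈ rl K' := by
        rintro _ ⟨u, ⟨hu1, hu2⟩, rfl⟩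
        refine mem_rl_iff.2 ⟨opt 1 u, ⟨hu1, fun r => ?_⟩, rv_opt u⟩
        have := hu2 r
        rw [hf, hf] at this
        rw [eval_pol, eval_pol]
        exact this
      have h1 : opt 1 x ∈ closure (rl K') := map_mem_closure opt_cont hxc hmap
      have h2 := hPα.opn (opt 1 z) hz (opt 1 x) hx h1
      have h3 : Tendsto (fun x : κ → ℝ => opt (1 : ℝ) x) (𝓝[{x | opt 1 x ∈ W α}] x)
          (𝓝[W α] (opt 1 x)) := by
        refine tendsto_nhdsWithin_of_tendsto_nhds_of_eventually_within _
          (opt_cont.continuousAt.tendsto.mono_left nhdsWithin_le_nhds) ?_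
        filter_upwards [self_mem_nhdsWithin] with y hy
        exact hy
      filter_upwards [h3 h2] with y hy
      have hy' : opt 1 y ∈ closure (rl K') := hy
      obtain ⟨v, hv, hvl⟩ := mem_closure_iff_seq_limit.1 hy'
      have hvn : Tendsto (fun n => v n none) atTop (𝓝 1) := (tendsto_pi_nhds.1 hvl) none
      have hvk : ∀ k, Tendsto (fun n => v n (some k) / v n none) atTop (𝓝 (y k)) := by
        intro k
        have := ((tendsto_pi_nhds.1 hvl) (some k)).div hvn one_ne_zero
        rw [div_one] at this
        exact this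
      refine mem_closure_of_tendsto (tendsto_pi_nhds.2 hvk) ?_
      filter_upwards [hvn.eventually_ne one_ne_zero] with n hn
      obtain ⟨u, ⟨hu1, hu2⟩, hu⟩ := hv n
      rw [hu] at hn
      have hu0 : u none ≠ 0 := by
        intro h0
        apply hn
        change ((u none : ℚ) : ℝ) = 0
        rw [h0, Rat.cast_zero]
      have e1 : opt 1 (fun k => u (some k) / u none) = (u none)⁻¹ • u := by
        funext o
        rcases o with _ | k
        · simp [opt, hu0]
        · simp [opt, div_eq_inv_mul]
      refine ⟨fun k => u (some k) / u none, ⟨?_, fun r => ?_⟩, ?_⟩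
      · change opt 1 (fun k => u (some k) / u none) ∈ N' α
        rw [e1]
        exact hS _ (inv_ne_zero hu0) _ hu1
      · have h4 := hu2 r
        rw [eval_pol, eval_pol] at h4
        rw [hf, hf, e1, cub_smul]
        exact h4.trans ⟨(u none)⁻¹, inv_ne_zero hu0, rfl⟩
      · funext k
        rw [hu]
        push_cast
        rfl

end slice

/-- **Polynomials of degree at most three are admissible for the exponent three.** -/
theorem adm_poly {d : ℕ} {f : MvPolynomial (Fin d) ℚ} (hf : f.totalDegree ≤ 3) :
    Adm (fun _ : Unit => 3) (fun _ => f) univ := by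
  obtain ⟨b, hb, hbf⟩ := exists_hom hf
  have key : (univ : Set (Fin d → ℚ)) = {z | MvPolynomial.eval z f = 0} ∪
      {z | MvPolynomial.eval z f ≠ 0} := by
    ext z
    simp only [mem_univ, true_iff]
    exact Classical.em _
  rw [key]
  exact adm_union' (adm_zero hf) (adm_slice hbf (adm_Nz hb _ _ rfl))

end Pool.Agent.J4H71.CB
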