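import Pool.Agent.J4H71.CB.Tl

/-!
# Moves in rational subspaces (helper71)
-/

set_option autoImplicit false
set_option linter.unusedSectionVars false

namespace Pool.Agent.J4H71.CB

open Set Filter Topology Pool.Agent.J4H71.PC Pool.Agent.H581R2 Pool.Agent.TH729.SQ

variable {κ : Type} [Fintype κ]

/-- real coordinates of a rational vector -/
def rv (z : κ → ℚ) : κ → ℝ := fun i => (z i : ℝ)

lemma rv_add (x y : κ → ℚ) : rv (x + y) = rv x + rv y := by
  funext i; simp [rv]

lemma rv_smul (t : ℚ) (x : κ → ℚ) : rv (t • x) = (t : ℝ) • rv x := by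
  funext i; simp [rv]

lemma mem_rl_iff {D : Set (κ → ℚ)} {x : κ → ℝ} : x ∈ rl D ↔ ∃ z ∈ D, rv z = x := by
  constructor
  · rintro ⟨z, hz, rfl⟩
    exact ⟨z, hz, rfl⟩
  · rintro ⟨z, hz, rfl⟩
    exact ⟨z, hz, rfl⟩

/-- coordinates of a subspace -/
structure Crd (V : Submodule ℚ (κ → ℚ)) where
  /-- the dimension -/
  m : ℕ
  /-- the basis -/
  e : Fin m → κ → ℚ
  /-- the coordinates -/
  l : Fin m → κ → ℚ
  mem : ∀ i, e i ∈ V
  rep : ∀ x ∈ V, ∀ k, x k = ∑ i, (∑ j, l i j * x j) * e i k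

lemma exists_crd (V : Submodule ℚ (κ → ℚ)) : Nonempty (Crd V) := by
  classical
  have b := Module.finBasis ℚ V
  obtain ⟨g, hg⟩ := V.subtype.exists_leftInverse_of_injective (by simp)
  have hg' : ∀ x : V, g x = x := fun x => by
    have := LinearMap.congr_fun hg x
    simpa using this
  refine ⟨⟨_, fun i => b i, fun i k => b.repr (g (Pi.single k 1)) i, fun i => (b i).2, ?_⟩⟩
  intro x hx k
  have h1 : ∀ i, ∑ j, b.repr (g (Pi.single j 1)) i * x j = b.repr (g x) i := by
    intro i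
    have h2 : x = ∑ j, x j • (Pi.single j 1 : κ → ℚ) := by
      funext k
      simp [Finset.sum_apply, Pi.single_apply]
    conv_rhs => rw [h2]
    rw [map_sum, map_sum, Finsupp.finsetSum_apply]
    refine Finset.sum_congr rfl fun j _ => ?_
    rw [map_smul, map_smul, Finsupp.smul_apply, smul_eq_mul, mul_comm]
  simp only [h1]
  have h3 := b.sum_repr (⟨x, hx⟩ : V)
  have h4 : g x = ⟨x, hx⟩ := hg' ⟨x, hx⟩
  rw [h4]
  have h5 := congrArg (fun y : V => (y : κ → ℚ) k) h3
  simp only [Submodule.coe_sum, Submodule.coe_smul, Finset.sum_apply, Pi.smul_apply,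
    smul_eq_mul] at h5
  exact h5.symm

namespace Crd

variable {V : Submodule ℚ (κ → ℚ)} (C : Crd V)

/-- the real coordinates -/
def lr (i : Fin C.m) (x : κ → ℝ) : ℝ := ∑ j, (C.l i j : ℝ) * x j

/-- the real points of the subspace -/
def sp : Set (κ → ℝ) := {x | ∀ k, x k = ∑ i, C.lr i x * C.e i k}

lemma lr_rv (i : Fin C.m) (z : κ → ℚ) : C.lr i (rv z) = ((∑ j, C.l i j * z j : ℚ) : ℝ) := by
  simp [lr, rv]

lemma lr_cont (i : Fin C.m) : Continuous (C.lr i) := by
  unfold lr
  fun_prop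

lemma lr_add (i : Fin C.m) (x y : κ → ℝ) : C.lr i (x + y) = C.lr i x + C.lr i y := by
  simp [lr, mul_add, Finset.sum_add_distrib]

lemma lr_sub (i : Fin C.m) (x y : κ → ℝ) : C.lr i (x - y) = C.lr i x - C.lr i y := by
  simp [lr, mul_sub, Finset.sum_sub_distrib]

lemma lr_smul (i : Fin C.m) (t : ℝ) (x : κ → ℝ) : C.lr i (t • x) = t * C.lr i x := by
  simp only [lr, Finset.mul_sum, Pi.smul_apply, smul_eq_mul]
  exact Finset.sum_congr rfl fun j _ => by ring

lemma sp_eq {x : κ → ℝ} (hx : x ∈ C.sp) : x = ∑ i, C.lr i x • rv (C.e i) := by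
  funext k
  rw [Finset.sum_apply]
  exact hx k

lemma rv_mem {z : κ → ℚ} (hz : z ∈ V) : rv z ∈ C.sp := by
  intro k
  simp only [lr_rv]
  have := C.rep z hz k
  change ((z k : ℚ) : ℝ) = _
  exact_mod_cast this

lemma add_mem {x y : κ → ℝ} (hx : x ∈ C.sp) (hy : y ∈ C.sp) : x + y ∈ C.sp := by
  intro k
  simp only [lr_add, add_mul, Finset.sum_add_distrib, Pi.add_apply]
  rw [← hx k, ← hy k]

lemma smul_mem (t : ℝ) {x : κ → ℝ} (hx : x ∈ C.sp) : t • x ∈ C.sp := by
  intro k
  simp only [lr_smul, Pi.smul_apply, smul_eq_mul, mul_assoc]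
  rw [← Finset.mul_sum, ← hx k]

lemma isClosed_sp : IsClosed C.sp := by
  have : C.sp = ⋂ k, {x : κ → ℝ | x k = ∑ i, C.lr i x * C.e i k} := by
    ext x
    simp [sp]
  rw [this]
  refine isClosed_iInter fun k => isClosed_eq (continuous_apply k) ?_
  exact continuous_finsetSum _ fun i _ => (C.lr_cont i).mul continuous_const

lemma closure_sub {D : Set (κ → ℚ)} (hD : D ⊆ V) : closure (rl D) ⊆ C.sp := by
  refine closure_minimal ?_ C.isClosed_sp
  rintro _ ⟨z, hz, rfl⟩
  exact C.rv_mem (hD hz)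

/-- density of the rational points -/
lemma dense {x : κ → ℝ} (hx : x ∈ C.sp) : x ∈ closure (rl (V : Set (κ → ℚ))) := by
  have h1 : ∀ i, ∃ r : ℕ → ℚ, Tendsto (fun n => (r n : ℝ)) atTop (𝓝 (C.lr i x)) := by
    intro i
    have h2 : C.lr i x ∈ closure (Set.range ((↑) : ℚ → ℝ)) := Rat.denseRange_cast _
    obtain ⟨v, hv, hv'⟩ := mem_closure_iff_seq_limit.1 h2
    choose r hr using hv
    exact ⟨r, by simpa [hr] using hv'⟩
  choose r hr using h1
  have h2 : Tendsto (fun n => ∑ i, (r i n : ℝ) • rv (C.e i)) atTop (𝓝 x) := by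
    conv => rhs; rw [C.sp_eq hx]
    exact tendsto_finsetSum _ fun i _ => (hr i).smul_const _
  refine mem_closure_of_tendsto h2 (Eventually.of_forall fun n => ?_)
  rw [mem_rl_iff]
  refine ⟨∑ i, r i n • C.e i, Submodule.sum_mem _ fun i _ => V.smul_mem _ (C.mem i), ?_⟩
  funext k
  simp [rv, Finset.sum_apply]

lemma sp_SA : SA C.sp := by
  refine SAP.forall_fin fun k => SAP.eq (PF.coord k) (PF.sum _ fun i _ => ?_)
  refine PF.mul (PF.sum _ fun j _ => (PF.const _).mul (PF.coord _)) (PF.const _)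

end Crd

section dd

variable {R S : Type} [CommRing R] [Algebra ℚ R] [CommRing S] [Algebra ℚ S]

/-- the exceptional values -/
noncomputable def UU : Finset ℚ := Classical.choose move3

/-- the Hessian of the restriction to a line -/
def hh (b : κ → κ → κ → ℚ) (x w : κ → R) : R := H0 (cub b x) (tri b x x w) (tri b x w w)

/-- the cubic covariant of the restriction to a line -/
def gg (b : κ → κ → κ → ℚ) (x w : κ → R) : R :=
  G0 (cub b x) (tri b x x w) (tri b x w w) (cub b w)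

/-- the discriminating function -/
noncomputable def dd (b : κ → κ → κ → ℚ) (x w : κ → R) : R :=
  cub b w * gg b x w * ∏ r ∈ UU, (4 * hh b x w ^ 3 + algebraMap ℚ R r * gg b x w ^ 2)

lemma hh_map (b : κ → κ → κ → ℚ) (φ : R →ₐ[ℚ] S) (x w : κ → R) :
    φ (hh b x w) = hh b (fun i => φ (x i)) fun i => φ (w i) := by
  unfold hh H0 cub
  simp only [map_sub, map_mul, map_pow, tri_map]

lemma gg_map (b : κ → κ → κ → ℚ) (φ : R →ₐ[ℚ] S) (x w : κ → R) :
    φ (gg b x w) = gg b (fun i => φ (x i)) fun i => φ (w i) := by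
  unfold gg G0 cub
  simp only [map_sub, map_add, map_mul, map_pow, tri_map, map_ofNat]

lemma dd_map (b : κ → κ → κ → ℚ) (φ : R →ₐ[ℚ] S) (x w : κ → R) :
    φ (dd b x w) = dd b (fun i => φ (x i)) fun i => φ (w i) := by
  unfold dd
  simp only [map_mul, map_prod, map_add, map_pow, map_ofNat, hh_map, gg_map, AlgHom.commutes]
  congr 2
  exact tri_map b φ w w w

lemma dd_cast (b : κ → κ → κ → ℚ) (x w : κ → ℚ) : ((dd b x w : ℚ) : ℝ) = dd b (rv x) (rv w) :=
  dd_map b (Algebra.ofId ℚ ℝ) x w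

lemma tri_cont {X : Type} [TopologicalSpace X] (b : κ → κ → κ → ℚ) {f g h : X → κ → ℝ}
    (hf : Continuous f) (hg : Continuous g) (hh : Continuous h) :
    Continuous fun y => tri b (f y) (g y) (h y) := by
  unfold tri
  refine continuous_finsetSum _ fun i _ => continuous_finsetSum _ fun j _ =>
    continuous_finsetSum _ fun k _ => ?_
  simp only [Algebra.smul_def]
  exact continuous_const.mul ((((continuous_apply i).comp hf).mul
    ((continuous_apply j).comp hg)).mul ((continuous_apply k).comp hh))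

lemma cub_cont {X : Type} [TopologicalSpace X] (b : κ → κ → κ → ℚ) {f : X → κ → ℝ}
    (hf : Continuous f) : Continuous fun y => cub b (f y) := tri_cont b hf hf hf

lemma hh_cont {X : Type} [TopologicalSpace X] (b : κ → κ → κ → ℚ) {f g : X → κ → ℝ}
    (hf : Continuous f) (hg : Continuous g) : Continuous fun y => hh b (f y) (g y) := by
  unfold hh H0
  exact ((cub_cont b hf).mul (tri_cont b hf hg hg)).sub ((tri_cont b hf hf hg).pow 2)

lemma gg_cont {X : Type} [TopologicalSpace X] (b : κ → κ → κ → ℚ) {f g : X → κ → ℝ}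
    (hf : Continuous f) (hg : Continuous g) : Continuous fun y => gg b (f y) (g y) := by
  unfold gg G0
  have h1 := cub_cont b hf
  have h2 := cub_cont b hg
  have h3 := tri_cont b hf hg hg
  have h4 := tri_cont b hf hf hg
  fun_prop

lemma dd_cont {X : Type} [TopologicalSpace X] (b : κ → κ → κ → ℚ) {f g : X → κ → ℝ}
    (hf : Continuous f) (hg : Continuous g) : Continuous fun y => dd b (f y) (g y) := by
  unfold dd
  refine ((cub_cont b hg).mul (gg_cont b hf hg)).mul ?_
  refine continuous_finsetProd _ fun r _ => ?_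
  exact (continuous_const.mul ((hh_cont b hf hg).pow 3)).add
    (continuous_const.mul ((gg_cont b hf hg).pow 2))

/-- **The moves.** -/
theorem mv {b : κ → κ → κ → ℚ} (hb : Sy b) {u w : κ → ℚ} (h : dd b u w ≠ 0) {s : ℝ}
    (hs : ∀ v : ℝ, 0 ≤ v → v ≤ 1 → cub b (rv u + (v * s) • rv w) ≠ 0) {ε : ℝ} (hε : 0 < ε) :
    ∃ t : ℚ, |(t : ℝ) - s| < ε ∧ PS 3 (cub b u) (cub b (u + t • w)) := by
  have hU := Classical.choose_spec move3
  have h1 : cub b w ≠ 0 := fun h0 => h (by unfold dd; rw [h0]; ring)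
  have h2 : gg b u w ≠ 0 := fun h0 => h (by unfold dd; rw [h0]; ring)
  have h3 : ∀ r ∈ UU, 4 * hh b u w ^ 3 + r * gg b u w ^ 2 ≠ 0 := by
    intro r hr h0
    apply h
    unfold dd
    refine mul_eq_zero_of_right _ (Finset.prod_eq_zero hr ?_)
    exact h0
  obtain ⟨t, ht, ht'⟩ := hU (cub b u) (tri b u u w) (tri b u w w) (cub b w) h1 h2 h3 s (by
    intro v hv0 hv1 h0
    apply hs v hv0 hv1
    rw [hb.line]
    unfold cub at h0 ⊢
    rw [tri_cast, tri_cast, tri_cast, tri_cast] at h0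
    exact h0) ε hε
  refine ⟨t, ht, ?_⟩
  rw [hb.line]
  exact ht'

end dd

end Pool.Agent.J4H71.CB
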