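import Pool.Agent.J4H71.CB.Mv
import Pool.Agent.J4H71.PC.Prin
import Pool.Agent.TH729.CC.Hom

/-!
# Trilinear forms (helper71)
-/

set_option autoImplicit false
set_option linter.unusedSectionVars false

namespace Pool.Agent.J4H71.CB

open Set Filter Topology Pool.Agent.J4H71.PC Pool.Agent.H581R2 Pool.Agent.TH729.SQ

variable {κ : Type} [Fintype κ] {R S : Type} [CommRing R] [Algebra ℚ R] [CommRing S] [Algebra ℚ S]

/-- trilinear forms -/
def tri (b : κ → κ → κ → ℚ) (x y z : κ → R) : R := ∑ i, ∑ j, ∑ k, b i j k • (x i * y j * z k)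

/-- symmetric forms -/
structure Sy (b : κ → κ → κ → ℚ) : Prop where
  s12 : ∀ i j k, b i j k = b j i k
  s23 : ∀ i j k, b i j k = b i k j

/-- the cubic form -/
def cub (b : κ → κ → κ → ℚ) (x : κ → R) : R := tri b x x x

section basic

variable (b : κ → κ → κ → ℚ)

lemma tri_add1 (x x' y z : κ → R) : tri b (x + x') y z = tri b x y z + tri b x' y z := by
  simp only [tri, Pi.add_apply, add_mul, smul_add, Finset.sum_add_distrib]

lemma tri_add2 (x y y' z : κ → R) : tri b x (y + y') z = tri b x y z + tri b x y' z := by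
  simp only [tri, Pi.add_apply, add_mul, mul_add, smul_add, Finset.sum_add_distrib]

lemma tri_add3 (x y z z' : κ → R) : tri b x y (z + z') = tri b x y z + tri b x y z' := by
  simp only [tri, Pi.add_apply, mul_add, smul_add, Finset.sum_add_distrib]

lemma tri_smul1 (t : R) (x y z : κ → R) : tri b (t • x) y z = t * tri b x y z := by
  simp only [tri, Finset.mul_sum, Pi.smul_apply, smul_eq_mul, Algebra.smul_def]
  exact Finset.sum_congr rfl fun i _ => Finset.sum_congr rfl fun j _ =>
    Finset.sum_congr rfl fun k _ => by ring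

lemma tri_smul2 (t : R) (x y z : κ → R) : tri b x (t • y) z = t * tri b x y z := by
  simp only [tri, Finset.mul_sum, Pi.smul_apply, smul_eq_mul, Algebra.smul_def]
  exact Finset.sum_congr rfl fun i _ => Finset.sum_congr rfl fun j _ =>
    Finset.sum_congr rfl fun k _ => by ring

lemma tri_smul3 (t : R) (x y z : κ → R) : tri b x y (t • z) = t * tri b x y z := by
  simp only [tri, Finset.mul_sum, Pi.smul_apply, smul_eq_mul, Algebra.smul_def]
  exact Finset.sum_congr rfl fun i _ => Finset.sum_congr rfl fun j _ =>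
    Finset.sum_congr rfl fun k _ => by ring

lemma tri_map (φ : R →ₐ[ℚ] S) (x y z : κ → R) :
    φ (tri b x y z) = tri b (fun i => φ (x i)) (fun i => φ (y i)) fun i => φ (z i) := by
  simp only [tri, map_sum, map_smul, map_mul]

lemma tri_cast (x y z : κ → ℚ) : ((tri b x y z : ℚ) : ℝ) =
    tri b (fun i => (x i : ℝ)) (fun i => (y i : ℝ)) fun i => (z i : ℝ) := by
  have := tri_map b (Algebra.ofId ℚ ℝ) x y z
  exact this

lemma cub_cast (x : κ → ℚ) : ((cub b x : ℚ) : ℝ) = cub b fun i => (x i : ℝ) := tri_cast b x x x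

variable {b}

lemma Sy.t12 (hb : Sy b) (x y z : κ → R) : tri b y x z = tri b x y z := by
  unfold tri
  rw [Finset.sum_comm]
  refine Finset.sum_congr rfl fun i _ => Finset.sum_congr rfl fun j _ =>
    Finset.sum_congr rfl fun k _ => ?_
  rw [hb.s12 j i k, mul_comm (y j)]

lemma Sy.t23 (hb : Sy b) (x y z : κ → R) : tri b x z y = tri b x y z := by
  unfold tri
  refine Finset.sum_congr rfl fun i _ => ?_
  rw [Finset.sum_comm]
  refine Finset.sum_congr rfl fun j _ => Finset.sum_congr rfl fun k _ => ?_
  rw [hb.s23 i k j, mul_right_comm]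

lemma cub_smul (t : R) (x : κ → R) : cub b (t • x) = t ^ 3 * cub b x := by
  unfold cub
  rw [tri_smul1, tri_smul2, tri_smul3]
  ring

/-- the expansion along a line -/
lemma Sy.line (hb : Sy b) (x w : κ → R) (t : R) :
    cub b (x + t • w) = ev3 (cub b x) (tri b x x w) (tri b x w w) (cub b w) t := by
  unfold cub ev3
  simp only [tri_add1, tri_add2, tri_add3, tri_smul1, tri_smul2, tri_smul3]
  have e1 : tri b w x x = tri b x x w := by rw [hb.t12, hb.t23]
  have e2 : tri b x w x = tri b x x w := hb.t23 _ _ _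
  have e3 : tri b w w x = tri b x w w := by rw [hb.t23, hb.t12]
  have e4 : tri b w x w = tri b x w w := hb.t12 _ _ _
  rw [e1, e2, e3, e4]
  ring

end basic

section rep

/-- symmetrization -/
lemma exists_sy (b : κ → κ → κ → ℚ) : ∃ b' : κ → κ → κ → ℚ, Sy b' ∧ ∀ x : κ → ℚ,
    cub b' x = tri b x x x := by
  refine ⟨fun i j k => (b i j k + b i k j + b j i k + b j k i + b k i j + b k j i) / 6,
    ⟨fun i j k => by ring, fun i j k => by ring⟩, fun x => ?_⟩
  have e : cub (fun i j k => (b i j k + b i k j + b j i k + b j k i + b k i j + b k j i) / 6) x =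
      (tri b x x x + tri (fun i j k => b i k j) x x x + tri (fun i j k => b j i k) x x x +
        tri (fun i j k => b j k i) x x x + tri (fun i j k => b k i j) x x x +
        tri (fun i j k => b k j i) x x x) / 6 := by
    simp only [cub, tri, smul_eq_mul]
    simp only [← Finset.sum_add_distrib, Finset.sum_div]
    exact Finset.sum_congr rfl fun i _ => Finset.sum_congr rfl fun j _ =>
      Finset.sum_congr rfl fun k _ => by ring
  have h1 : ∀ c : κ → κ → κ → ℚ, tri (fun i j k => c i k j) x x x = tri c x x x := by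
    intro c
    unfold tri
    refine Finset.sum_congr rfl fun i _ => ?_
    rw [Finset.sum_comm]
    exact Finset.sum_congr rfl fun j _ => Finset.sum_congr rfl fun k _ => by
      rw [mul_right_comm]
  have h2 : ∀ c : κ → κ → κ → ℚ, tri (fun i j k => c j i k) x x x = tri c x x x := by
    intro c
    unfold tri
    rw [Finset.sum_comm]
    exact Finset.sum_congr rfl fun i _ => Finset.sum_congr rfl fun j _ =>
      Finset.sum_congr rfl fun k _ => by rw [mul_comm (x j) (x i)]
  have k1 : tri (fun i j k => b i k j) x x x = tri b x x x := h1 b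
  have k2 : tri (fun i j k => b j i k) x x x = tri b x x x := h2 b
  have k3 : tri (fun i j k => b j k i) x x x = tri b x x x := by
    rw [h1 (fun i j k => b k j i), h2 (fun i j k => b k i j), h1 (fun i j k => b j i k), h2 b]
  have k4 : tri (fun i j k => b k i j) x x x = tri b x x x := by
    rw [h1 (fun i j k => b j i k), h2 b]
  have k5 : tri (fun i j k => b k j i) x x x = tri b x x x := by
    rw [h2 (fun i j k => b k i j), h1 (fun i j k => b j i k), h2 b]
  rw [e, k1, k2, k3, k4, k5]
  ring

lemma tri_sum {α : Type*} (s : Finset α) (b : α → κ → κ → κ → ℚ) (x y z : κ → ℚ) :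
    tri (fun i j k => ∑ a ∈ s, b a i j k) x y z = ∑ a ∈ s, tri (b a) x y z := by
  classical
  induction s using Finset.induction_on with
  | empty => simp [tri]
  | insert a s ha ih =>
    rw [Finset.sum_insert ha, ← ih]
    simp only [tri, Finset.sum_insert ha, add_smul, Finset.sum_add_distrib]

/-- cubic forms as trilinear forms -/
theorem exists_tri {F : MvPolynomial κ ℚ} (hF : F.IsHomogeneous 3) :
    ∃ b : κ → κ → κ → ℚ, Sy b ∧ ∀ x : κ → ℚ, MvPolynomial.eval x F = cub b x := by
  classical
  have h1 : ∀ d : κ →₀ ℕ, ∃ i j k : Option κ, d ∈ F.support → ∃ i' j' k' : κ, i = some i' ∧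
      j = some j' ∧ k = some k' ∧ d.toMultiset = {i', j', k'} := by
    intro d
    by_cases hd : d ∈ F.support
    · have h2 : d.toMultiset.card = 3 := by
        rw [Finsupp.card_toMultiset]
        have := hF (MvPolynomial.mem_support_iff.1 hd)
        rw [Finsupp.weight_apply] at this
        simp only [Pi.one_apply, smul_eq_mul, mul_one] at this
        exact this
      obtain ⟨i, j, k, h3⟩ := Multiset.card_eq_three.1 h2
      exact ⟨some i, some j, some k, fun _ => ⟨i, j, k, rfl, rfl, rfl, h3⟩⟩
    · exact ⟨none, none, none, fun h => absurd h hd⟩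
  choose i j k hijk using h1
  obtain ⟨b', hb', hb⟩ := exists_sy fun l m n => ∑ d ∈ F.support,
    if i d = some l ∧ j d = some m ∧ k d = some n then F.coeff d else 0
  refine ⟨b', hb', fun x => ?_⟩
  rw [hb, tri_sum, MvPolynomial.eval_eq]
  refine Finset.sum_congr rfl fun d hd => ?_
  obtain ⟨i', j', k', h1, h2, h3, h4⟩ := hijk d hd
  have h5 : ∏ i ∈ d.support, x i ^ d i = x i' * x j' * x k' := by
    have := Pool.Agent.TH729.CC.prod_map_toMultiset d x
    rw [h4] at this
    simp only [Finsupp.prod] at this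
    rw [← this]
    simp [mul_assoc]
  rw [h5]
  unfold tri
  rw [Finset.sum_eq_single i', Finset.sum_eq_single j', Finset.sum_eq_single k']
  all_goals beta_reduce
  · rw [if_pos ⟨h1, h2, h3⟩, smul_eq_mul]
  · intro n _ hn
    rw [if_neg, zero_smul]
    rintro ⟨-, -, h⟩
    rw [h3] at h
    exact hn (Option.some.inj h).symm
  · simp
  · intro n _ hn
    refine Finset.sum_eq_zero fun l _ => ?_
    beta_reduce
    rw [if_neg, zero_smul]
    rintro ⟨-, h, -⟩
    rw [h2] at h
    exact hn (Option.some.inj h).symm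
  · simp
  · intro n _ hn
    refine Finset.sum_eq_zero fun l _ => Finset.sum_eq_zero fun l' _ => ?_
    beta_reduce
    rw [if_neg, zero_smul]
    rintro ⟨h, -, -⟩
    rw [h1] at h
    exact hn (Option.some.inj h).symm
  · simp

/-- the polynomial -/
noncomputable def pol (b : κ → κ → κ → ℚ) : MvPolynomial κ ℚ := cub b MvPolynomial.X

lemma eval_pol (b : κ → κ → κ → ℚ) (x : κ → ℚ) : MvPolynomial.eval x (pol b) = cub b x := by
  have := tri_map b (MvPolynomial.aeval x : MvPolynomial κ ℚ →ₐ[ℚ] ℚ) MvPolynomial.X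
    MvPolynomial.X MvPolynomial.X
  simp only [MvPolynomial.aeval_X] at this
  rw [MvPolynomial.aeval_eq_eval] at this
  exact this

lemma aeval_pol (b : κ → κ → κ → ℚ) (x : κ → ℝ) :
    (MvPolynomial.aeval x (pol b) : ℝ) = cub b x := by
  have := tri_map b (MvPolynomial.aeval x : MvPolynomial κ ℚ →ₐ[ℚ] ℝ) MvPolynomial.X
    MvPolynomial.X MvPolynomial.X
  simp only [MvPolynomial.aeval_X] at this
  exact this

end rep

end Pool.Agent.J4H71.CB
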